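import Pool.Agent.H911R3.Poly

/-! The metrics `ω_t` are complete. -/

namespace Pool.Agent.H911R3

open MeasureTheory Set Filter Topology
open scoped ComplexOrder

variable {n : ℕ}

theorem normSq_om (t : ℝ) (p v : Fin n → ℂ) :
    normSq (om n t) p v = 2 * ∑ i, Gs t (sc (p i)) * ‖v i‖ ^ 2 := by
  unfold normSq
  simp only [om_apply, ite_mul, zero_mul, Finset.sum_ite_eq, Finset.mem_univ, if_true,
    Complex.re_sum]
  congr 1
  refine Finset.sum_congr rfl fun i _ => ?_
  rw [mul_assoc, Complex.mul_conj, ← Complex.ofReal_mul, Complex.ofReal_re, Complex.normSq_eq_norm_sq]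

theorem Gs_ge {t s : ℝ} (ht : 0 ≤ t) (hs : s < 1) : 2 / (1 - s) ^ 2 ≤ Gs t s := by
  unfold Gs
  have h1 : 0 < 1 - s := by linarith
  have h2 : 0 ≤ t * (1 - s) := by positivity
  have h3 : 0 ≤ 2 / (1 - s) ^ 2 := by positivity
  nlinarith

theorem normSq_ge {t : ℝ} (ht : 0 ≤ t) {p : Fin n → ℂ} (hp : p ∈ polydisc n) (v : Fin n → ℂ)
    (i : Fin n) : 2 * ‖v i‖ / (1 - sc (p i)) ≤ Real.sqrt (normSq (om n t) p v) := by
  have hs := mem_poly.mp hp i
  have h1 : 0 < 1 - sc (p i) := by linarith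
  apply Real.le_sqrt_of_sq_le
  rw [normSq_om]
  have h2 : Gs t (sc (p i)) * ‖v i‖ ^ 2 ≤ ∑ j, Gs t (sc (p j)) * ‖v j‖ ^ 2 :=
    Finset.single_le_sum (f := fun j => Gs t (sc (p j)) * ‖v j‖ ^ 2)
      (fun j _ => mul_nonneg (Gs_pos ht (mem_poly.mp hp j)).le (sq_nonneg _)) (Finset.mem_univ i)
  have h3 : 2 / (1 - sc (p i)) ^ 2 * ‖v i‖ ^ 2 ≤ Gs t (sc (p i)) * ‖v i‖ ^ 2 := by
    gcongr
    exact Gs_ge ht hs
  have h4 : (2 * ‖v i‖ / (1 - sc (p i))) ^ 2 = 2 * (2 / (1 - sc (p i)) ^ 2 * ‖v i‖ ^ 2) := by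
    field_simp
  rw [h4]
  linarith

theorem continuousOn_speed {t : ℝ} {c : ℝ → Fin n → ℂ} (hc : ContDiff ℝ 1 c)
    (hcX : ∀ τ ∈ Icc (0 : ℝ) 1, c τ ∈ polydisc n) :
    ContinuousOn (fun τ => Real.sqrt (normSq (om n t) (c τ) (deriv c τ))) (Icc 0 1) := by
  apply ContinuousOn.sqrt
  simp only [normSq_om]
  refine continuousOn_const.mul (continuousOn_finsetSum _ fun i _ => ContinuousOn.mul ?_ ?_)
  · exact (contDiffOn_Gs t i).continuousOn.comp hc.continuous.continuousOn hcX
  · have := hc.continuous_deriv le_rfl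
    exact (((continuous_apply i).comp this).norm.pow 2).continuousOn

theorem path_bound {F : Type*} [NormedAddCommGroup F] [NormedSpace ℝ F] [CompleteSpace F]
    {φ φ' : ℝ → F} {L : ℝ → ℝ} (h1 : ∀ τ ∈ Icc (0 : ℝ) 1, HasDerivAt φ (φ' τ) τ)
    (h2 : ContinuousOn φ' (Icc 0 1)) (h3 : ContinuousOn L (Icc 0 1))
    (h4 : ∀ τ ∈ Icc (0 : ℝ) 1, ‖φ' τ‖ ≤ L τ) : ‖φ 1 - φ 0‖ ≤ ∫ τ in (0 : ℝ)..1, L τ := by
  have e : uIcc (0 : ℝ) 1 = Icc 0 1 := uIcc_of_le zero_le_one
  have i1 : IntervalIntegrable φ' volume 0 1 := by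
    apply ContinuousOn.intervalIntegrable; rwa [e]
  have i2 : IntervalIntegrable L volume 0 1 := by
    apply ContinuousOn.intervalIntegrable; rwa [e]
  rw [← intervalIntegral.integral_eq_sub_of_hasDerivAt (fun τ hτ => h1 τ (by rwa [e] at hτ)) i1]
  apply intervalIntegral.norm_integral_le_of_norm_le zero_le_one _ i2
  refine Eventually.of_forall fun τ hτ => h4 τ (Ioc_subset_Icc_self hτ)

/-- exhaustion function -/
noncomputable def bf (i : Fin n) (p : Fin n → ℂ) : ℝ := -Real.log (1 - sc (p i))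

theorem length_bounds {t : ℝ} (ht : 0 ≤ t) {p q : Fin n → ℂ} {c : ℝ → Fin n → ℂ}
    (hc : c ∈ pathsIn (polydisc n) p q) (i : Fin n) :
    |bf i q - bf i p| ≤ pathLength (om n t) c ∧ ‖q i - p i‖ ≤ pathLength (om n t) c := by
  obtain ⟨h1, rfl, rfl, hX⟩ := hc
  have hd : Continuous (deriv c) := h1.continuous_deriv le_rfl
  have hdi : ∀ τ, HasDerivAt (fun τ => c τ i) (deriv c τ i) τ := by
    intro τ
    have := ((h1.differentiable (by norm_num)) τ).hasDerivAt
    exact (hasDerivAt_pi.mp this) i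
  have cdi : Continuous fun τ => deriv c τ i := (continuous_apply i).comp hd
  have cci : Continuous fun τ => c τ i := (continuous_apply i).comp h1.continuous
  have hL := continuousOn_speed (t := t) h1 hX
  have hsc : ∀ τ ∈ Icc (0 : ℝ) 1, sc (c τ i) < 1 := fun τ hτ => mem_poly.mp (hX τ hτ) i
  constructor
  · rw [← Real.norm_eq_abs]
    refine path_bound (φ := fun τ => bf i (c τ))
      (φ' := fun τ => (2 * (c τ i).re * (deriv c τ i).re + 2 * (c τ i).im * (deriv c τ i).im) /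
        (1 - sc (c τ i))) ?_ ?_ hL ?_
    · intro τ hτ
      have h0 : 1 - sc (c τ i) ≠ 0 := by have := hsc τ hτ; linarith
      have a1 : HasDerivAt (fun τ => (c τ i).re) (deriv c τ i).re τ :=
        Complex.reCLM.hasFDerivAt.comp_hasDerivAt τ (hdi τ)
      have a2 : HasDerivAt (fun τ => (c τ i).im) (deriv c τ i).im τ :=
        Complex.imCLM.hasFDerivAt.comp_hasDerivAt τ (hdi τ)
      have a3 : HasDerivAt (fun τ => sc (c τ i))
          (2 * (c τ i).re * (deriv c τ i).re + 2 * (c τ i).im * (deriv c τ i).im) τ := by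
        refine ((a1.pow 2).add (a2.pow 2)).congr_deriv ?_
        simp
      have a4 := ((a3.const_sub 1).log h0).neg
      refine a4.congr_deriv ?_
      ring
    · refine ContinuousOn.div ?_ ?_ (fun τ hτ => by have := hsc τ hτ; linarith)
      · apply Continuous.continuousOn
        have := Complex.continuous_re.comp cci
        have := Complex.continuous_im.comp cci
        have := Complex.continuous_re.comp cdi
        have := Complex.continuous_im.comp cdi
        fun_prop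
      · exact (continuous_const.sub (continuous_sc.comp cci)).continuousOn
    · intro τ hτ
      have hs := hsc τ hτ
      have h0 : 0 < 1 - sc (c τ i) := by linarith
      refine le_trans ?_ (normSq_ge ht (hX τ hτ) (deriv c τ) i)
      rw [Real.norm_eq_abs, abs_div, abs_of_pos h0]
      apply div_le_div_of_nonneg_right _ h0.le
      have e1 : 2 * (c τ i).re * (deriv c τ i).re + 2 * (c τ i).im * (deriv c τ i).im =
          2 * ((starRingEnd ℂ) (c τ i) * deriv c τ i).re := by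
        simp [Complex.mul_re]
        ring
      rw [e1, abs_mul, abs_of_pos (by norm_num : (0:ℝ) < 2)]
      have e2 := Complex.abs_re_le_norm ((starRingEnd ℂ) (c τ i) * deriv c τ i)
      rw [norm_mul, RCLike.norm_conj] at e2
      have e3 : ‖c τ i‖ ≤ 1 := by
        have := hs
        rw [sc_norm] at this
        nlinarith [norm_nonneg (c τ i)]
      have e4 : ‖c τ i‖ * ‖deriv c τ i‖ ≤ 1 * ‖deriv c τ i‖ := by gcongr
      linarith
  · refine path_bound (φ := fun τ => c τ i) (φ' := fun τ => deriv c τ i) (fun τ _ => hdi τ)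
      cdi.continuousOn hL ?_
    intro τ hτ
    have hs := hsc τ hτ
    have h0 : 0 < 1 - sc (c τ i) := by linarith
    refine le_trans ?_ (normSq_ge ht (hX τ hτ) (deriv c τ) i)
    rw [le_div_iff₀ h0]
    have := sc_nonneg (c τ i)
    nlinarith [norm_nonneg (deriv c τ i)]

/-- region with `|z_i|² ≤ 1 - δ` -/
def KK (n : ℕ) (δ : ℝ) : Set (Fin n → ℂ) := {p | ∀ i, sc (p i) ≤ 1 - δ}

theorem KK_subset {δ : ℝ} (hδ : 0 < δ) : KK n δ ⊆ polydisc n := by
  intro p hp
  rw [mem_poly]
  intro i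
  have := hp i
  linarith

theorem convex_sc (r : ℝ) : Convex ℝ {w : ℂ | sc w ≤ r} := by
  intro x hx y hy a b ha hb hab
  have hx' : sc x ≤ r := hx
  have hy' : sc y ≤ r := hy
  show sc (a • x + b • y) ≤ r
  have : sc (a • x + b • y) = a * sc x + b * sc y - a * b * sc (x - y) := by
    have hb' : b = 1 - a := by linarith
    subst hb'
    unfold sc
    simp
    ring
  rw [this]
  have h1 := sc_nonneg (x - y)
  have h2 : 0 ≤ a * b * sc (x - y) := by positivity
  have h3 : a * sc x ≤ a * r := by gcongr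
  have h4 : b * sc y ≤ b * r := by gcongr
  have h5 : a * r + b * r = r := by rw [← add_mul, hab, one_mul]
  linarith

theorem line_mem {p q : Fin n → ℂ} {δ : ℝ} (hp : p ∈ KK n δ) (hq : q ∈ KK n δ) {τ : ℝ}
    (hτ : τ ∈ Icc (0 : ℝ) 1) : p + τ • (q - p) ∈ KK n δ := by
  intro i
  have h := convex_sc (1 - δ) (hp i) (hq i) (by linarith [hτ.2] : (0:ℝ) ≤ 1 - τ) hτ.1 (by ring)
  have e : (p + τ • (q - p)) i = (1 - τ) • p i + τ • q i := by
    simp only [Pi.add_apply, Pi.smul_apply, Pi.sub_apply]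
    module
  rw [e]
  exact h

theorem line_path {p q : Fin n → ℂ} {δ : ℝ} (hδ : 0 < δ) (hp : p ∈ KK n δ) (hq : q ∈ KK n δ) :
    (fun τ : ℝ => p + τ • (q - p)) ∈ pathsIn (polydisc n) p q := by
  refine ⟨by fun_prop, by simp, by simp, fun τ hτ => KK_subset hδ (line_mem hp hq hτ)⟩

theorem exists_KK {p : Fin n → ℂ} (hp : p ∈ polydisc n) : ∃ δ > 0, p ∈ KK n δ := by
  classical
  rw [mem_poly] at hp
  rcases isEmpty_or_nonempty (Fin n) with h | h
  · exact ⟨1, one_pos, fun i => (IsEmpty.false i).elim⟩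
  · obtain ⟨i, hi⟩ := Finite.exists_max (fun i => sc (p i))
    exact ⟨1 - sc (p i), by linarith [hp i], fun j => by linarith [hi j]⟩

theorem KK_mono {δ δ' : ℝ} (h : δ' ≤ δ) : KK n δ ⊆ KK n δ' := fun p hp i => by
  have := hp i
  linarith

theorem exists_KK2 {p q : Fin n → ℂ} (hp : p ∈ polydisc n) (hq : q ∈ polydisc n) :
    ∃ δ > 0, p ∈ KK n δ ∧ q ∈ KK n δ := by
  obtain ⟨a, ha, hpa⟩ := exists_KK hp
  obtain ⟨b, hb, hqb⟩ := exists_KK hq
  exact ⟨min a b, lt_min ha hb, KK_mono (min_le_left _ _) hpa, KK_mono (min_le_right _ _) hqb⟩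

theorem pathLength_nonneg (g : (Fin n → ℂ) → Matrix (Fin n) (Fin n) ℂ) (c : ℝ → Fin n → ℂ) :
    0 ≤ pathLength g c := by
  apply intervalIntegral.integral_nonneg zero_le_one
  intro τ _
  exact Real.sqrt_nonneg _

theorem dist_ge {t : ℝ} (ht : 0 ≤ t) {p q : Fin n → ℂ} (hp : p ∈ polydisc n)
    (hq : q ∈ polydisc n) (i : Fin n) :
    |bf i q - bf i p| ≤ riemDist (polydisc n) (om n t) p q ∧
    ‖q i - p i‖ ≤ riemDist (polydisc n) (om n t) p q := by
  obtain ⟨δ, hδ, h1, h2⟩ := exists_KK2 hp hq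
  have hne : (pathLength (om n t) '' pathsIn (polydisc n) p q).Nonempty :=
    ⟨_, _, line_path hδ h1 h2, rfl⟩
  constructor
  · apply le_csInf hne
    rintro _ ⟨c, hc, rfl⟩
    exact (length_bounds ht hc i).1
  · apply le_csInf hne
    rintro _ ⟨c, hc, rfl⟩
    exact (length_bounds ht hc i).2

theorem riemDist_nonneg (X : Set (Fin n → ℂ)) (g : (Fin n → ℂ) → Matrix (Fin n) (Fin n) ℂ)
    (p q : Fin n → ℂ) : 0 ≤ riemDist X g p q := by
  apply Real.sInf_nonneg
  rintro _ ⟨c, _, rfl⟩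
  exact pathLength_nonneg g c

theorem dist_le {t : ℝ} (ht : 0 ≤ t) {δ : ℝ} (hδ : 0 < δ) :
    ∃ C : ℝ, 0 ≤ C ∧ ∀ p ∈ KK n δ, ∀ q ∈ KK n δ,
      riemDist (polydisc n) (om n t) p q ≤ C * ‖q - p‖ := by
  refine ⟨Real.sqrt (2 * (n * ((1 + t) * (2 / δ ^ 2)))), Real.sqrt_nonneg _, fun p hp q hq => ?_⟩
  have hpath := line_path hδ hp hq
  have hle : riemDist (polydisc n) (om n t) p q ≤
      pathLength (om n t) (fun τ : ℝ => p + τ • (q - p)) := by
    apply csInf_le
    · refine ⟨0, ?_⟩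
      rintro _ ⟨c, _, rfl⟩
      exact pathLength_nonneg _ c
    · exact ⟨_, hpath, rfl⟩
  refine hle.trans ?_
  · unfold pathLength
    have hder : ∀ τ : ℝ, deriv (fun τ : ℝ => p + τ • (q - p)) τ = q - p := by
      intro τ
      have : HasDerivAt (fun τ : ℝ => p + τ • (q - p)) (q - p) τ := by
        simpa using ((hasDerivAt_id τ).smul_const (q - p)).const_add p
      exact this.deriv
    have hb : ∀ τ ∈ Icc (0 : ℝ) 1, Real.sqrt (normSq (om n t) (p + τ • (q - p))
        (deriv (fun τ : ℝ => p + τ • (q - p)) τ)) ≤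
        Real.sqrt (2 * (n * ((1 + t) * (2 / δ ^ 2)))) * ‖q - p‖ := by
      intro τ hτ
      rw [hder, ← Real.sqrt_sq (norm_nonneg (q - p)), ← Real.sqrt_mul (by positivity)]
      apply Real.sqrt_le_sqrt
      rw [normSq_om]
      have hK := line_mem hp hq hτ
      have h5 : ∑ i, Gs t (sc ((p + τ • (q - p)) i)) * ‖(q - p) i‖ ^ 2 ≤
          ∑ _i : Fin n, ((1 + t) * (2 / δ ^ 2)) * ‖q - p‖ ^ 2 := by
        apply Finset.sum_le_sum
        intro i _
        have h6 := hK i
        have h7 : δ ≤ 1 - sc ((p + τ • (q - p)) i) := by linarith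
        have h8 := sc_nonneg ((p + τ • (q - p)) i)
        have h9 : Gs t (sc ((p + τ • (q - p)) i)) ≤ (1 + t) * (2 / δ ^ 2) := by
          unfold Gs
          have : t * (1 - sc ((p + τ • (q - p)) i)) ≤ t := by nlinarith
          gcongr
          
        have h10 : ‖(q - p) i‖ ≤ ‖q - p‖ := norm_le_pi_norm (q - p) i
        have h11 := Gs_pos ht (show sc ((p + τ • (q - p)) i) < 1 by linarith)
        gcongr
      rw [Finset.sum_const, Finset.card_univ, Fintype.card_fin, nsmul_eq_mul] at h5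
      linarith
    have hcont := continuousOn_speed (t := t) hpath.1 hpath.2.2.2
    have e : uIcc (0 : ℝ) 1 = Icc 0 1 := uIcc_of_le zero_le_one
    have i1 : IntervalIntegrable (fun τ => Real.sqrt (normSq (om n t) (p + τ • (q - p))
        (deriv (fun τ : ℝ => p + τ • (q - p)) τ))) volume 0 1 := by
      apply ContinuousOn.intervalIntegrable; rwa [e]
    refine (intervalIntegral.integral_mono_on zero_le_one i1 intervalIntegrable_const hb).trans ?_
    simp

theorem complete_om {t : ℝ} (ht : 0 ≤ t) : IsCompleteMetric (polydisc n) (om n t) := by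
  intro s hs hcauchy
  -- the sequence stays in a compact set
  obtain ⟨m₀, hm₀⟩ := hcauchy 1 one_pos
  have hb : ∃ δ > 0, ∀ m ≥ m₀, s m ∈ KK n δ := by
    obtain ⟨δ, hδ, hK⟩ := exists_KK (hs m₀)
    refine ⟨δ * Real.exp (-1), by positivity, fun m hm i => ?_⟩
    have h1 := (dist_ge ht (hs m) (hs m₀) i).1
    have h2 := hm₀ m hm m₀ le_rfl
    have h3 : bf i (s m) ≤ bf i (s m₀) + 1 := by
      have := (abs_le.mp (h1.trans h2.le)).1
      linarith
    have h4 : 0 < 1 - sc (s m i) := by have := mem_poly.mp (hs m) i; linarith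
    have h5 : 0 < 1 - sc (s m₀ i) := by have := mem_poly.mp (hs m₀) i; linarith
    unfold bf at h3
    have h6 : Real.log (1 - sc (s m₀ i)) - 1 ≤ Real.log (1 - sc (s m i)) := by linarith
    have h7 := Real.exp_le_exp.mpr h6
    rw [Real.exp_log h4, sub_eq_add_neg, Real.exp_add, Real.exp_log h5] at h7
    have h8 : δ ≤ 1 - sc (s m₀ i) := by have := hK i; linarith
    have h9 : δ * Real.exp (-1) ≤ (1 - sc (s m₀ i)) * Real.exp (-1) := by gcongr
    linarith
  obtain ⟨δ, hδ, hK⟩ := hb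
  have hclosed : IsClosed (KK n δ) := by
    have : KK n δ = ⋂ i, {p | sc (p i) ≤ 1 - δ} := by
      ext p; simp [KK]
    rw [this]
    exact isClosed_iInter fun i => isClosed_le (continuous_sci i) continuous_const
  have hE : CauchySeq s := by
    rw [Metric.cauchySeq_iff]
    intro ε hε
    obtain ⟨N, hN⟩ := hcauchy (ε / 2) (by linarith)
    refine ⟨N, fun m hm k hk => ?_⟩
    refine lt_of_le_of_lt ?_ (show ε / 2 < ε by linarith)
    rw [dist_pi_le_iff (by linarith)]
    intro i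
    rw [dist_eq_norm]
    have := (dist_ge ht (hs k) (hs m) i).2
    exact this.trans (hN k hk m hm).le
  obtain ⟨p, hp⟩ := cauchySeq_tendsto_of_complete hE
  have hpK : p ∈ KK n δ := by
    apply hclosed.mem_of_tendsto hp
    filter_upwards [eventually_ge_atTop m₀] with m hm
    exact hK m hm
  refine ⟨p, KK_subset hδ hpK, ?_⟩
  obtain ⟨C, hC, hle⟩ := dist_le (n := n) ht hδ
  have hlim : Tendsto (fun m => C * ‖p - s m‖) atTop (𝓝 0) := by
    have h1 : Tendsto (fun m => p - s m) atTop (𝓝 0) := by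
      simpa using (tendsto_const_nhds (x := p)).sub hp
    simpa using (h1.norm).const_mul C
  refine squeeze_zero' (Eventually.of_forall fun m => riemDist_nonneg _ _ _ _) ?_ hlim
  filter_upwards [eventually_ge_atTop m₀] with m hm
  exact hle (s m) (hK m hm) p hpK

theorem mem_Kcal {t : ℝ} (ht : 0 ≤ t) : om n t ∈ Kcal (polydisc n) :=
  ⟨isKahler_om ht, complete_om ht, fun _ hp => ricci_ge ht hp⟩

end Pool.Agent.H911R3
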