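import Mathlib

/-! The Hardy identity in the disc, with a weight independent of the disc variable. -/

namespace Pool.Agent.H911R3

open MeasureTheory Set Filter Topology

section

variable {E : Type*} [NormedAddCommGroup E] [NormedSpace ℝ E]

/-- squared modulus of the coordinate -/
noncomputable def sq (z : E →L[ℝ] ℂ) (p : E) : ℝ := (z p).re ^ 2 + (z p).im ^ 2

theorem sq_eq (z : E →L[ℝ] ℂ) (p : E) : sq z p = ‖z p‖ ^ 2 := by
  rw [sq, Complex.sq_norm, Complex.normSq_apply]; ring

theorem hasFDerivAt_re (z : E →L[ℝ] ℂ) (p : E) :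
    HasFDerivAt (fun q => (z q).re) (Complex.reCLM.comp z) p :=
  (Complex.reCLM.comp z).hasFDerivAt

theorem hasFDerivAt_im (z : E →L[ℝ] ℂ) (p : E) :
    HasFDerivAt (fun q => (z q).im) (Complex.imCLM.comp z) p :=
  (Complex.imCLM.comp z).hasFDerivAt

theorem hasFDerivAt_sq (z : E →L[ℝ] ℂ) (p : E) :
    HasFDerivAt (sq z) ((2 * (z p).re) • Complex.reCLM.comp z +
      (2 * (z p).im) • Complex.imCLM.comp z) p := by
  have h1 := (hasFDerivAt_re z p).pow 2
  have h2 := (hasFDerivAt_im z p).pow 2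
  have h := h1.add h2
  refine h.congr_fderiv ?_
  ext v
  simp

theorem contDiff_sq (z : E →L[ℝ] ℂ) : ContDiff ℝ ((⊤ : ℕ∞) : WithTop ℕ∞) (sq z) := by
  unfold sq
  exact ((Complex.reCLM.comp z).contDiff.pow 2).add ((Complex.imCLM.comp z).contDiff.pow 2)

/-- `fderiv` of `re z / (1 - |z|²)` -/
theorem fderiv_R1 (z : E →L[ℝ] ℂ) {p : E} (hp : sq z p < 1) (v : E) :
    DifferentiableAt ℝ (fun q => (z q).re / (1 - sq z q)) p ∧
    fderiv ℝ (fun q => (z q).re / (1 - sq z q)) p v =
      ((z v).re * (1 - sq z p) + (z p).re * (2 * (z p).re * (z v).re + 2 * (z p).im * (z v).im)) /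
        (1 - sq z p) ^ 2 := by
  have h0 : (1 - sq z p) ≠ 0 := by linarith
  have hi := (hasDerivAt_inv h0).comp_hasFDerivAt p ((hasFDerivAt_sq z p).const_sub 1)
  have h := (hasFDerivAt_re z p).mul hi
  have h' : HasFDerivAt (fun q => (z q).re / (1 - sq z q)) _ p := h
  refine ⟨h'.differentiableAt, ?_⟩
  rw [h'.fderiv]
  simp
  field_simp
  ring

theorem fderiv_R2 (z : E →L[ℝ] ℂ) {p : E} (hp : sq z p < 1) (v : E) :
    DifferentiableAt ℝ (fun q => (z q).im / (1 - sq z q)) p ∧
    fderiv ℝ (fun q => (z q).im / (1 - sq z q)) p v =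
      ((z v).im * (1 - sq z p) + (z p).im * (2 * (z p).re * (z v).re + 2 * (z p).im * (z v).im)) /
        (1 - sq z p) ^ 2 := by
  have h0 : (1 - sq z p) ≠ 0 := by linarith
  have hi := (hasDerivAt_inv h0).comp_hasFDerivAt p ((hasFDerivAt_sq z p).const_sub 1)
  have h := (hasFDerivAt_im z p).mul hi
  have h' : HasFDerivAt (fun q => (z q).im / (1 - sq z q)) _ p := h
  refine ⟨h'.differentiableAt, ?_⟩
  rw [h'.fderiv]
  simp
  field_simp
  ring

omit [NormedSpace ℝ E] in
/-- products of a compactly supported function with a function continuous on a neighbourhood of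
the support are integrable -/
theorem integrable_of_supp [MeasurableSpace E] [BorelSpace E]
    {μ : Measure E} [IsFiniteMeasureOnCompacts μ] {X : Set E} (hX : IsOpen X) {h k : E → ℝ}
    (hk : ContinuousOn k X) (hsupp : ∀ p, p ∉ tsupport h → k p = 0) (hc : HasCompactSupport h)
    (hs : tsupport h ⊆ X) : Integrable k μ := by
  have hts : tsupport k ⊆ tsupport h := by
    apply closure_minimal _ (isClosed_tsupport h)
    intro p hp
    by_contra hn
    exact hp (hsupp p hn)
  have hcont : Continuous k := hk.continuous_of_tsupport_subset hX (hts.trans hs)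
  exact hcont.integrable_of_hasCompactSupport (hc.of_isClosed_subset (isClosed_tsupport k) hts)

theorem hardy_identity [FiniteDimensional ℝ E] [MeasurableSpace E] [BorelSpace E]
    (μ : Measure E) [μ.IsAddHaarMeasure] (z : E →L[ℝ] ℂ) {e1 e2 : E} (h1 : z e1 = 1)
    (h2 : z e2 = Complex.I) {X : Set E} (hX : IsOpen X) (hz : ∀ p ∈ X, sq z p < 1)
    {W : E → ℝ} (hW : ContDiffOn ℝ 1 W X) (hW1 : ∀ p ∈ X, fderiv ℝ W p e1 = 0)
    (hW2 : ∀ p ∈ X, fderiv ℝ W p e2 = 0) {f : E → ℝ} (hf : ContDiff ℝ 1 f)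
    (hc : HasCompactSupport f) (hs : tsupport f ⊆ X) :
    Integrable (fun p => W p * (fderiv ℝ f p e1 ^ 2 + fderiv ℝ f p e2 ^ 2)) μ ∧
    Integrable (fun p => W p * (f p ^ 2 * ((2 - sq z p) / (1 - sq z p) ^ 2))) μ ∧
    Integrable (fun p => W p * ((fderiv ℝ f p e1 + f p * ((z p).re / (1 - sq z p))) ^ 2 +
        (fderiv ℝ f p e2 + f p * ((z p).im / (1 - sq z p))) ^ 2)) μ ∧
    ∫ p, W p * (fderiv ℝ f p e1 ^ 2 + fderiv ℝ f p e2 ^ 2) ∂μ =
      ∫ p, W p * (f p ^ 2 * ((2 - sq z p) / (1 - sq z p) ^ 2)) ∂μ +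
      ∫ p, W p * ((fderiv ℝ f p e1 + f p * ((z p).re / (1 - sq z p))) ^ 2 +
        (fderiv ℝ f p e2 + f p * ((z p).im / (1 - sq z p))) ^ 2) ∂μ := by
  have hz0 : ∀ p ∈ X, (1 - sq z p) ≠ 0 := fun p hp => by have := hz p hp; linarith
  have cW : ContinuousOn W X := hW.continuousOn
  have csq : Continuous (sq z) := (contDiff_sq z).continuous
  have cf : Continuous f := hf.continuous
  have cdf : ∀ v, Continuous fun p => fderiv ℝ f p v := fun v =>
    (hf.continuous_fderiv (by norm_num)).clm_apply continuous_const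
  have cz : Continuous z := z.continuous
  have cre : Continuous fun p => (z p).re := Complex.continuous_re.comp cz
  have cim : Continuous fun p => (z p).im := Complex.continuous_im.comp cz
  have cinv : ContinuousOn (fun p => (1 - sq z p)⁻¹) X :=
    (continuous_const.sub csq).continuousOn.inv₀ hz0
  have hf0 : ∀ p, p ∉ tsupport f → f p = 0 := fun p hp => image_eq_zero_of_notMem_tsupport hp
  have hdf0 : ∀ v p, p ∉ tsupport f → fderiv ℝ f p v = 0 := by
    intro v p hp
    have : fderiv ℝ f p = 0 := by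
      by_contra hne
      exact hp (support_fderiv_subset ℝ (f := f) hne)
    rw [this]; rfl
  -- the functions of the integration by parts
  set A : E → ℝ := fun q => W q * ((z q).re / (1 - sq z q)) with hA
  set B : E → ℝ := fun q => W q * ((z q).im / (1 - sq z q)) with hB
  have dW : ∀ p ∈ X, DifferentiableAt ℝ W p := fun p hp =>
    ((hW.contDiffAt (hX.mem_nhds hp)).differentiableAt (by norm_num))
  have dA : ∀ p ∈ X, DifferentiableAt ℝ A p := fun p hp =>
    (dW p hp).mul (fderiv_R1 z (hz p hp) 0).1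
  have dB : ∀ p ∈ X, DifferentiableAt ℝ B p := fun p hp =>
    (dW p hp).mul (fderiv_R2 z (hz p hp) 0).1
  have eA : ∀ p ∈ X, fderiv ℝ A p e1 = W p * (((1 - sq z p) + 2 * (z p).re ^ 2) /
      (1 - sq z p) ^ 2) := by
    intro p hp
    have h := fderiv_mul (dW p hp) (fderiv_R1 z (hz p hp) e1).1
    have h' : fderiv ℝ A p = _ := h
    rw [h']
    simp only [_root_.add_apply, _root_.smul_apply, smul_eq_mul, hW1 p hp,
      (fderiv_R1 z (hz p hp) e1).2, h1, Complex.one_re, Complex.one_im]
    ring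
  have eB : ∀ p ∈ X, fderiv ℝ B p e2 = W p * (((1 - sq z p) + 2 * (z p).im ^ 2) /
      (1 - sq z p) ^ 2) := by
    intro p hp
    have h := fderiv_mul (dW p hp) (fderiv_R2 z (hz p hp) e2).1
    have h' : fderiv ℝ B p = _ := h
    rw [h']
    simp only [_root_.add_apply, _root_.smul_apply, smul_eq_mul, hW2 p hp,
      (fderiv_R2 z (hz p hp) e2).2, h2, Complex.I_re, Complex.I_im]
    ring
  have dF : ∀ v p, fderiv ℝ (fun q => f q ^ 2) p v = 2 * f p * fderiv ℝ f p v := by
    intro v p
    have hd : DifferentiableAt ℝ f p := hf.differentiable (by norm_num) p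
    have h : fderiv ℝ (fun q => f q ^ 2) p = _ := (hd.hasFDerivAt.pow 2).fderiv
    rw [h]
    simp
  have tsF : tsupport (fun q => f q ^ 2) ⊆ X := by
    refine subset_trans ?_ hs
    apply closure_mono
    intro p hp hn
    exact hp (by simp [hn])
  -- integrability
  have I := fun {k : E → ℝ} (hk : ContinuousOn k X) (h0 : ∀ p, p ∉ tsupport f → k p = 0) =>
    integrable_of_supp (μ := μ) hX hk h0 hc hs
  have i1 : Integrable (fun p => W p * (fderiv ℝ f p e1 ^ 2 + fderiv ℝ f p e2 ^ 2)) μ := by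
    apply I
    · exact cW.mul (((cdf e1).pow 2).add ((cdf e2).pow 2)).continuousOn
    · intro p hp; simp [hdf0 _ p hp]
  have i2 : Integrable (fun p => W p * (f p ^ 2 * ((2 - sq z p) / (1 - sq z p) ^ 2))) μ := by
    apply I
    · refine cW.mul ((cf.pow 2).continuousOn.mul ?_)
      exact (continuous_const.sub csq).continuousOn.div
        ((continuous_const.sub csq).pow 2).continuousOn (fun p hp => pow_ne_zero 2 (hz0 p hp))
    · intro p hp; simp [hf0 p hp]
  have i3 : Integrable (fun p => W p * ((fderiv ℝ f p e1 + f p * ((z p).re / (1 - sq z p))) ^ 2 +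
        (fderiv ℝ f p e2 + f p * ((z p).im / (1 - sq z p))) ^ 2)) μ := by
    apply I
    · refine cW.mul ((((cdf e1).continuousOn.add (cf.continuousOn.mul ?_)).pow 2).add
        (((cdf e2).continuousOn.add (cf.continuousOn.mul ?_)).pow 2))
      · exact cre.continuousOn.div (continuous_const.sub csq).continuousOn hz0
      · exact cim.continuousOn.div (continuous_const.sub csq).continuousOn hz0
    · intro p hp; simp [hdf0 _ p hp, hf0 p hp]
  have i4 : Integrable (fun p => f p ^ 2 * fderiv ℝ A p e1) μ := by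
    have : ContinuousOn (fun p => f p ^ 2 * (W p * (((1 - sq z p) + 2 * (z p).re ^ 2) /
      (1 - sq z p) ^ 2))) X := by
      refine (cf.pow 2).continuousOn.mul (cW.mul ?_)
      exact ((continuous_const.sub csq).add (continuous_const.mul (cre.pow 2))).continuousOn.div
        ((continuous_const.sub csq).pow 2).continuousOn (fun p hp => pow_ne_zero 2 (hz0 p hp))
    apply I (this.congr (fun p hp => by simp only [eA p hp]))
    intro p hp; simp [hf0 p hp]
  have i5 : Integrable (fun p => f p ^ 2 * fderiv ℝ B p e2) μ := by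
    have : ContinuousOn (fun p => f p ^ 2 * (W p * (((1 - sq z p) + 2 * (z p).im ^ 2) /
      (1 - sq z p) ^ 2))) X := by
      refine (cf.pow 2).continuousOn.mul (cW.mul ?_)
      exact ((continuous_const.sub csq).add (continuous_const.mul (cim.pow 2))).continuousOn.div
        ((continuous_const.sub csq).pow 2).continuousOn (fun p hp => pow_ne_zero 2 (hz0 p hp))
    apply I (this.congr (fun p hp => by simp only [eB p hp]))
    intro p hp; simp [hf0 p hp]
  have cA : ContinuousOn A X := fun p hp => (dA p hp).continuousAt.continuousWithinAt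
  have cB : ContinuousOn B X := fun p hp => (dB p hp).continuousAt.continuousWithinAt
  have i6 : Integrable (fun p => fderiv ℝ (fun q => f q ^ 2) p e1 * A p) μ := by
    simp only [dF]
    apply I
    · exact ((continuous_const.mul cf).mul (cdf e1)).continuousOn.mul cA
    · intro p hp; simp [hf0 p hp]
  have i7 : Integrable (fun p => fderiv ℝ (fun q => f q ^ 2) p e2 * B p) μ := by
    simp only [dF]
    apply I
    · exact ((continuous_const.mul cf).mul (cdf e2)).continuousOn.mul cB
    · intro p hp; simp [hf0 p hp]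
  have i8 : Integrable (fun p => f p ^ 2 * A p) μ := by
    apply I
    · exact (cf.pow 2).continuousOn.mul cA
    · intro p hp; simp [hf0 p hp]
  have i9 : Integrable (fun p => f p ^ 2 * B p) μ := by
    apply I
    · exact (cf.pow 2).continuousOn.mul cB
    · intro p hp; simp [hf0 p hp]
  have hdFd : Differentiable ℝ (fun q => f q ^ 2) := (hf.differentiable (by norm_num)).pow 2
  have ibp1 := integral_mul_fderiv_eq_neg_fderiv_mul_of_integrable (μ := μ) (v := e1)
    (f := fun q => f q ^ 2) (g := A) i6 i4 i8 (fun x _ => hdFd x) (fun x hx => dA x (tsF hx))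
  have ibp2 := integral_mul_fderiv_eq_neg_fderiv_mul_of_integrable (μ := μ) (v := e2)
    (f := fun q => f q ^ 2) (g := B) i7 i5 i9 (fun x _ => hdFd x) (fun x hx => dB x (tsF hx))
  refine ⟨i1, i2, i3, ?_⟩
  have key : ∀ p, W p * ((fderiv ℝ f p e1 + f p * ((z p).re / (1 - sq z p))) ^ 2 +
        (fderiv ℝ f p e2 + f p * ((z p).im / (1 - sq z p))) ^ 2) =
      W p * (fderiv ℝ f p e1 ^ 2 + fderiv ℝ f p e2 ^ 2) -
      W p * (f p ^ 2 * ((2 - sq z p) / (1 - sq z p) ^ 2)) +
      ((fderiv ℝ (fun q => f q ^ 2) p e1 * A p + f p ^ 2 * fderiv ℝ A p e1) +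
      (fderiv ℝ (fun q => f q ^ 2) p e2 * B p + f p ^ 2 * fderiv ℝ B p e2)) := by
    intro p
    by_cases hp : p ∈ tsupport f
    · have hpX := hs hp
      have h0 := hz0 p hpX
      rw [dF, dF, eA p hpX, eB p hpX]
      simp only [hA, hB]
      have hsq : sq z p = (z p).re ^ 2 + (z p).im ^ 2 := rfl
      have h3 : (z p).im ^ 2 = sq z p - (z p).re ^ 2 := by rw [hsq]; ring
      field_simp
      ring_nf
      simp only [h3]
      ring
    · rw [dF, dF, hf0 p hp, hdf0 _ p hp, hdf0 _ p hp]
      simp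
  have hint : ∫ p, W p * ((fderiv ℝ f p e1 + f p * ((z p).re / (1 - sq z p))) ^ 2 +
        (fderiv ℝ f p e2 + f p * ((z p).im / (1 - sq z p))) ^ 2) ∂μ =
      ∫ p, W p * (fderiv ℝ f p e1 ^ 2 + fderiv ℝ f p e2 ^ 2) ∂μ -
      ∫ p, W p * (f p ^ 2 * ((2 - sq z p) / (1 - sq z p) ^ 2)) ∂μ +
      ((∫ p, fderiv ℝ (fun q => f q ^ 2) p e1 * A p ∂μ + ∫ p, f p ^ 2 * fderiv ℝ A p e1 ∂μ) +
      (∫ p, fderiv ℝ (fun q => f q ^ 2) p e2 * B p ∂μ + ∫ p, f p ^ 2 * fderiv ℝ B p e2 ∂μ)) := by
    rw [← integral_sub i1 i2, ← integral_add i6 i4, ← integral_add i7 i5]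
    have j1 := integral_add (i6.add i4) (i7.add i5)
    have j2 := integral_add (i1.sub i2) ((i6.add i4).add (i7.add i5))
    simp only [Pi.add_apply, Pi.sub_apply] at j1 j2
    rw [← j1, ← j2]
    exact integral_congr_ae (Eventually.of_forall key)
  rw [hint, ibp1, ibp2]
  ring

end

end Pool.Agent.H911R3
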