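import Pool.Agent.H911R3.Hardy

/-! Test functions in the disc. -/

namespace Pool.Agent.H911R3

open MeasureTheory Set Filter Topology

/-- squared modulus -/
noncomputable def sc (p : ℂ) : ℝ := p.re ^ 2 + p.im ^ 2

theorem sc_eq (p : ℂ) : sq (ContinuousLinearMap.id ℝ ℂ) p = sc p := rfl

theorem sc_norm (p : ℂ) : sc p = ‖p‖ ^ 2 := sq_eq (ContinuousLinearMap.id ℝ ℂ) p

theorem sc_nonneg (p : ℂ) : 0 ≤ sc p := by unfold sc; positivity

theorem continuous_sc : Continuous sc := by unfold sc; fun_prop

theorem volume_sc {c : ℝ} (hc : 0 ≤ c) :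
    volume {p : ℂ | sc p ≤ c} = ENNReal.ofReal (Real.pi * c) := by
  have h : {p : ℂ | sc p ≤ c} = Metric.closedBall 0 (Real.sqrt c) := by
    ext p
    simp only [mem_ofPred_eq, Metric.mem_closedBall, dist_zero_right, sc_norm]
    exact ⟨fun h => Real.le_sqrt_of_sq_le h, fun h => by
      have := pow_le_pow_left₀ (norm_nonneg p) h 2
      rwa [Real.sq_sqrt hc] at this⟩
  rw [h, Complex.volume_closedBall, ← ENNReal.ofReal_pow (Real.sqrt_nonneg c), Real.sq_sqrt hc,
    ENNReal.ofReal_mul Real.pi_pos.le, mul_comm, ← NNReal.coe_real_pi, ENNReal.ofReal_coe_nnreal]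

theorem measurableSet_sc (c : ℝ) : MeasurableSet {p : ℂ | sc p ≤ c} :=
  (isClosed_le continuous_sc continuous_const).measurableSet

theorem isCompact_sc (c : ℝ) : IsCompact {p : ℂ | sc p ≤ c} := by
  rcases le_or_gt 0 c with hc | hc
  · have h : {p : ℂ | sc p ≤ c} = Metric.closedBall 0 (Real.sqrt c) := by
      ext p
      simp only [mem_ofPred_eq, Metric.mem_closedBall, dist_zero_right, sc_norm]
      exact ⟨fun h => Real.le_sqrt_of_sq_le h, fun h => by
        have := pow_le_pow_left₀ (norm_nonneg p) h 2
        rwa [Real.sq_sqrt hc] at this⟩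
    rw [h]
    exact isCompact_closedBall _ _
  · have : {p : ℂ | sc p ≤ c} = ∅ := by
      ext p
      simp only [mem_ofPred_eq, mem_empty_iff_false, iff_false, not_le]
      exact hc.trans_le (sc_nonneg p)
    rw [this]
    exact isCompact_empty

/-- `∫_{s ≤ 1 - 2^{-m}} 1/(1-s) ≥ m π / 2` -/
theorem log_div (m : ℕ) :
    m * (Real.pi / 2) ≤ ∫ p in {p : ℂ | sc p ≤ 1 - (1 / 2) ^ m}, (1 - sc p)⁻¹ := by
  induction m with
  | zero =>
    simp only [Nat.cast_zero, zero_mul]
    apply setIntegral_nonneg (measurableSet_sc _)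
    intro p hp
    have : sc p ≤ 0 := by simpa using hp
    have : 0 ≤ 1 - sc p := by linarith
    positivity
  | succ m ih =>
    set a : ℝ := (1 / 2) ^ m with ha
    have ha0 : 0 < a := by positivity
    have ha1 : a ≤ 1 := pow_le_one₀ (by norm_num) (by norm_num)
    have e : (1 / 2 : ℝ) ^ (m + 1) = a / 2 := by rw [pow_succ]; ring
    rw [e]
    set S := {p : ℂ | sc p ≤ 1 - a} with hS
    set T := {p : ℂ | sc p ≤ 1 - a / 2} with hT
    have hST : S ⊆ T := fun p hp => by
      have : sc p ≤ 1 - a := hp
      show sc p ≤ 1 - a / 2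
      linarith
    have hcont : ContinuousOn (fun p => (1 - sc p)⁻¹) T := by
      apply ContinuousOn.inv₀ (continuous_const.sub continuous_sc).continuousOn
      intro p hp
      have : sc p ≤ 1 - a / 2 := hp
      show 1 - sc p ≠ 0
      linarith
    have hint : IntegrableOn (fun p => (1 - sc p)⁻¹) T :=
      hcont.integrableOn_compact (isCompact_sc _)
    have hsplit : ∫ p in T, (1 - sc p)⁻¹ =
        (∫ p in S, (1 - sc p)⁻¹) + ∫ p in T \ S, (1 - sc p)⁻¹ := by
      have := integral_inter_add_sdiff (μ := volume) (measurableSet_sc (1 - a)) hint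
      rw [← hS, inter_eq_right.mpr hST] at this
      exact this.symm
    rw [hsplit]
    have hvol : volume (T \ S) = ENNReal.ofReal (Real.pi * (a / 2)) := by
      rw [measure_sdiff hST (measurableSet_sc _).nullMeasurableSet
        (isCompact_sc _).measure_lt_top.ne, hS, hT, volume_sc (by linarith),
        volume_sc (by linarith), ← ENNReal.ofReal_sub _ (by
          have := Real.pi_pos; apply mul_nonneg this.le; linarith)]
      congr 1
      ring
    have hvr : volume.real (T \ S) = Real.pi * (a / 2) := by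
      rw [Measure.real, hvol, ENNReal.toReal_ofReal]
      have := Real.pi_pos; positivity
    have h2 : ∫ _p in T \ S, a⁻¹ ≤ ∫ p in T \ S, (1 - sc p)⁻¹ := by
      apply setIntegral_mono_on
      · exact integrableOn_const (by rw [hvol]; exact ENNReal.ofReal_ne_top)
      · exact hint.mono_set sdiff_subset
      · exact (measurableSet_sc _).diff (measurableSet_sc _)
      · intro p hp
        have h3 : sc p ≤ 1 - a / 2 := hp.1
        have h4 : ¬ sc p ≤ 1 - a := hp.2
        apply inv_anti₀
        · linarith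
        · linarith
    have h5 : ∫ _p in T \ S, a⁻¹ = Real.pi / 2 := by
      rw [setIntegral_const, hvr, smul_eq_mul]
      field_simp
    push_cast
    linarith

/-- cutoff profile: `0` for `x ≤ 1/2`, `1` for `x ≥ 1` -/
noncomputable def chi (x : ℝ) : ℝ := Real.smoothTransition (2 * x - 1)

theorem chi_smooth : ContDiff ℝ ((⊤ : ℕ∞) : WithTop ℕ∞) chi := by
  unfold chi
  exact Real.smoothTransition.contDiff.comp (by fun_prop)

theorem chi_zero {x : ℝ} (hx : x ≤ 1 / 2) : chi x = 0 :=
  Real.smoothTransition.zero_of_nonpos (by linarith)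

theorem chi_one {x : ℝ} (hx : 1 ≤ x) : chi x = 1 :=
  Real.smoothTransition.one_of_one_le (by linarith)

theorem chi_nonneg (x : ℝ) : 0 ≤ chi x := Real.smoothTransition.nonneg _

theorem chi_le_one (x : ℝ) : chi x ≤ 1 := Real.smoothTransition.le_one _

theorem deriv_chi_zero {x : ℝ} (hx : x < 1 / 2 ∨ 1 < x) : deriv chi x = 0 := by
  rcases hx with hx | hx
  · have : chi =ᶠ[𝓝 x] fun _ => 0 := by
      filter_upwards [Iio_mem_nhds hx] with y hy
      exact chi_zero (le_of_lt hy)
    rw [this.deriv_eq]; simp
  · have : chi =ᶠ[𝓝 x] fun _ => 1 := by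
      filter_upwards [Ioi_mem_nhds hx] with y hy
      exact chi_one (le_of_lt hy)
    rw [this.deriv_eq]; simp

theorem deriv_chi_bdd : ∃ C : ℝ, 0 ≤ C ∧ ∀ x, |deriv chi x| ≤ C := by
  have hc : Continuous (deriv chi) := chi_smooth.continuous_deriv (by norm_cast)
  obtain ⟨C, hC⟩ := (isCompact_Icc (a := (1 / 2 : ℝ)) (b := 1)).exists_bound_of_continuousOn
    hc.continuousOn
  refine ⟨max C 0, le_max_right _ _, fun x => ?_⟩
  by_cases hx : x ∈ Icc (1 / 2 : ℝ) 1
  · exact (hC x hx).trans (le_max_left _ _)
  · have : x < 1 / 2 ∨ 1 < x := by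
      by_contra h
      push Not at h
      exact hx ⟨h.1, h.2⟩
    rw [deriv_chi_zero this, abs_zero]
    exact le_max_right _ _

/-- the profile of the test functions -/
noncomputable def prof (k : ℝ) (s : ℝ) : ℝ := Real.sqrt (1 - s) * chi (k * (1 - s))

theorem prof_zero {k s : ℝ} (h : k * (1 - s) ≤ 1 / 2) : prof k s = 0 := by
  rw [prof, chi_zero h, mul_zero]

theorem hasDerivAt_prof {k s : ℝ} (hs : s < 1) :
    HasDerivAt (prof k) (-(1 / (2 * Real.sqrt (1 - s))) * chi (k * (1 - s)) +
      Real.sqrt (1 - s) * (deriv chi (k * (1 - s)) * (-k))) s := by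
  have h1 : HasDerivAt (fun s : ℝ => 1 - s) (-1) s := by
    simpa using (hasDerivAt_id s).const_sub 1
  have h2 := h1.sqrt (by linarith : (1 - s) ≠ 0)
  have h3 : HasDerivAt (fun s : ℝ => k * (1 - s)) (-k) s := by
    simpa using h1.const_mul k
  have h4 : HasDerivAt chi (deriv chi (k * (1 - s))) (k * (1 - s)) :=
    (chi_smooth.differentiable (by norm_cast)).differentiableAt.hasDerivAt
  have h5 := h4.comp s h3
  have h := h2.mul h5
  refine (h.congr_deriv ?_)
  simp only [Function.comp_apply]
  ring

theorem prof_smooth {k : ℝ} (hk : 1 ≤ k) : ContDiff ℝ ((⊤ : ℕ∞) : WithTop ℕ∞) (prof k) := by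
  rw [contDiff_iff_contDiffAt]
  intro s
  rcases lt_or_ge s 1 with hs | hs
  · apply ContDiffAt.mul
    · exact ContDiffAt.sqrt (by fun_prop) (by linarith)
    · exact chi_smooth.contDiffAt.comp s (by fun_prop)
  · have : prof k =ᶠ[𝓝 s] fun _ => 0 := by
      have : Ioi (1 - 1 / (2 * k)) ∈ 𝓝 s := Ioi_mem_nhds (by
        have : 0 < 1 / (2 * k) := by positivity
        linarith)
      filter_upwards [this] with y hy
      apply prof_zero
      have hy' : 1 - y < 1 / (2 * k) := by
        have : 1 - 1 / (2 * k) < y := hy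
        linarith
      have := mul_le_mul_of_nonneg_left hy'.le (by linarith : (0:ℝ) ≤ k)
      refine this.trans (le_of_eq ?_)
      field_simp
    exact contDiffAt_const.congr_of_eventuallyEq this

theorem test_fn {ε : ℝ} (hε : 0 < ε) : ∃ h : ℂ → ℝ, ContDiff ℝ ((⊤ : ℕ∞) : WithTop ℕ∞) h ∧
    HasCompactSupport h ∧ tsupport h ⊆ {p | sc p < 1} ∧
    Integrable (fun p => fderiv ℝ h p 1 ^ 2 + fderiv ℝ h p Complex.I ^ 2) ∧
    0 < ∫ p, h p ^ 2 * (1 / (1 - sc p) ^ 2) ∧
    ∫ p, (fderiv ℝ h p 1 ^ 2 + fderiv ℝ h p Complex.I ^ 2) ≤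
      (1 + ε) * ∫ p, h p ^ 2 * (1 / (1 - sc p) ^ 2) := by
  obtain ⟨C, hC0, hC⟩ := deriv_chi_bdd
  have hπ := Real.pi_pos
  -- choice of m
  obtain ⟨m, hm⟩ := exists_nat_gt ((Real.pi + 4 * Real.pi * C ^ 2) / (ε * (Real.pi / 2)) + 1)
  have hm0 : (0 : ℝ) < m := by
    have : 0 ≤ (Real.pi + 4 * Real.pi * C ^ 2) / (ε * (Real.pi / 2)) := by positivity
    linarith
  have hm1 : Real.pi + 4 * Real.pi * C ^ 2 ≤ ε * (m * (Real.pi / 2)) := by
    have h1 : (Real.pi + 4 * Real.pi * C ^ 2) / (ε * (Real.pi / 2)) < m := by linarith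
    rw [div_lt_iff₀ (by positivity)] at h1
    linarith
  set k : ℝ := 2 ^ m with hk
  have hk1 : 1 ≤ k := one_le_pow₀ (by norm_num)
  have hk0 : 0 < k := by linarith
  set h : ℂ → ℝ := fun p => prof k (sc p) with hh
  have hsm : ContDiff ℝ ((⊤ : ℕ∞) : WithTop ℕ∞) h :=
    (prof_smooth hk1).comp (contDiff_sq (ContinuousLinearMap.id ℝ ℂ))
  have hzero : ∀ p, 1 - 1 / (2 * k) < sc p → h p = 0 := by
    intro p hp
    apply prof_zero
    have hy' : 1 - sc p < 1 / (2 * k) := by linarith
    have := mul_le_mul_of_nonneg_left hy'.le hk0.le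
    refine this.trans (le_of_eq ?_)
    field_simp
  have hts : tsupport h ⊆ {p | sc p ≤ 1 - 1 / (2 * k)} := by
    apply closure_minimal _ (isClosed_le continuous_sc continuous_const)
    intro p hp
    by_contra hn
    exact hp (hzero p (by simpa using hn))
  have hcs : HasCompactSupport h :=
    (isCompact_sc (1 - 1 / (2 * k))).of_isClosed_subset (isClosed_tsupport h) hts
  have hX : IsOpen {p : ℂ | sc p < 1} := isOpen_lt continuous_sc continuous_const
  have htsX : tsupport h ⊆ {p | sc p < 1} := by
    intro p hp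
    have h1 : sc p ≤ 1 - 1 / (2 * k) := hts hp
    have h2 : 0 < 1 / (2 * k) := by positivity
    show sc p < 1
    linarith
  obtain ⟨i1, i2, i3, key⟩ := hardy_identity (volume : Measure ℂ) (ContinuousLinearMap.id ℝ ℂ)
    (e1 := 1) (e2 := Complex.I) rfl rfl hX (fun p hp => hp) (W := fun _ => 1) contDiffOn_const
    (by intro p _; simp) (by intro p _; simp) (hsm.of_le (by norm_cast)) hcs htsX
  simp only [one_mul, sc_eq, ContinuousLinearMap.coe_id', id_eq] at i1 i2 i3 key
  have csc := continuous_sc
  -- the integrable pieces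
  have I := fun {u : ℂ → ℝ} (hu : ContinuousOn u {p | sc p < 1})
      (h0 : ∀ p, p ∉ tsupport h → u p = 0) =>
    integrable_of_supp (μ := (volume : Measure ℂ)) hX hu h0 hcs htsX
  have hh0 : ∀ p, p ∉ tsupport h → h p = 0 := fun p hp => image_eq_zero_of_notMem_tsupport hp
  have hne : ∀ p ∈ {p : ℂ | sc p < 1}, (1 - sc p) ≠ 0 := fun p hp => by
    have : sc p < 1 := hp
    linarith
  have iM : Integrable (fun p => h p ^ 2 * (1 / (1 - sc p) ^ 2)) := by
    apply I
    · refine (hsm.continuous.pow 2).continuousOn.mul ?_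
      exact continuousOn_const.div ((continuous_const.sub csc).pow 2).continuousOn
        (fun p hp => pow_ne_zero 2 (hne p hp))
    · intro p hp; simp [hh0 p hp]
  have iN : Integrable (fun p => h p ^ 2 * (1 / (1 - sc p))) := by
    apply I
    · refine (hsm.continuous.pow 2).continuousOn.mul ?_
      exact continuousOn_const.div (continuous_const.sub csc).continuousOn hne
    · intro p hp; simp [hh0 p hp]
  -- first term
  have t1 : ∫ p, h p ^ 2 * ((2 - sc p) / (1 - sc p) ^ 2) =
      (∫ p, h p ^ 2 * (1 / (1 - sc p) ^ 2)) + ∫ p, h p ^ 2 * (1 / (1 - sc p)) := by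
    rw [← integral_add iM iN]
    apply integral_congr_ae
    refine Eventually.of_forall fun p => ?_
    simp only
    by_cases hp : p ∈ tsupport h
    · have := hne p (htsX hp)
      field_simp
      ring
    · simp [hh0 p hp]
  -- bound of the second part of the first term
  have hval : ∀ p, sc p < 1 → h p ^ 2 = (1 - sc p) * chi (k * (1 - sc p)) ^ 2 := by
    intro p hp
    rw [hh]
    simp only [prof, mul_pow]
    rw [Real.sq_sqrt (by linarith)]
  have t2 : ∫ p, h p ^ 2 * (1 / (1 - sc p)) ≤ Real.pi := by
    have e1 : ∀ p, h p ^ 2 * (1 / (1 - sc p)) ≤ indicator {p : ℂ | sc p ≤ 1} (fun _ => (1 : ℝ)) p := by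
      intro p
      by_cases hp : p ∈ tsupport h
      · have h1 : sc p < 1 := htsX hp
        rw [indicator_of_mem (show p ∈ {p : ℂ | sc p ≤ 1} from h1.le), hval p h1]
        have h2 : (1 - sc p) ≠ 0 := by linarith
        have h3 : (1 - sc p) * chi (k * (1 - sc p)) ^ 2 * (1 / (1 - sc p)) =
            chi (k * (1 - sc p)) ^ 2 := by field_simp
        rw [h3]
        exact pow_le_one₀ (chi_nonneg _) (chi_le_one _)
      · rw [hh0 p hp]
        simp only [ne_eq, OfNat.ofNat_ne_zero, not_false_eq_true, zero_pow, zero_mul]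
        exact indicator_nonneg (fun _ _ => zero_le_one) p
    have e2 : Integrable (indicator {p : ℂ | sc p ≤ 1} (fun _ => (1 : ℝ))) := by
      rw [integrable_indicator_iff (measurableSet_sc 1)]
      exact integrableOn_const (isCompact_sc 1).measure_lt_top.ne
    refine (integral_mono iN e2 e1).trans (le_of_eq ?_)
    rw [integral_indicator (measurableSet_sc 1), setIntegral_const, Measure.real,
      volume_sc zero_le_one, ENNReal.toReal_ofReal (by positivity)]
    simp
  -- the remainder
  have t3 : ∫ p, ((fderiv ℝ h p 1 + h p * (p.re / (1 - sc p))) ^ 2 +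
        (fderiv ℝ h p Complex.I + h p * (p.im / (1 - sc p))) ^ 2) ≤ 4 * Real.pi * C ^ 2 := by
    set T := {p : ℂ | sc p ≤ 1} with hT
    set S := {p : ℂ | sc p ≤ 1 - 1 / k} with hS
    have hk' : 0 < 1 / k := by positivity
    have hk'' : 1 / k ≤ 1 := by rw [div_le_one hk0]; exact hk1
    have hST : S ⊆ T := fun p hp => by
      have : sc p ≤ 1 - 1 / k := hp
      show sc p ≤ 1
      linarith
    -- the closed complement-like region
    have hSm : MeasurableSet {p : ℂ | sc p < 1 - 1 / k} :=
      (isOpen_lt csc continuous_const).measurableSet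
    have e1 : ∀ p, ((fderiv ℝ h p 1 + h p * (p.re / (1 - sc p))) ^ 2 +
        (fderiv ℝ h p Complex.I + h p * (p.im / (1 - sc p))) ^ 2) ≤
        indicator (T \ {p : ℂ | sc p < 1 - 1 / k}) (fun _ => 4 * k * C ^ 2) p := by
      intro p
      by_cases hp : p ∈ tsupport h
      · have h1 : sc p < 1 := htsX hp
        have h1' : 0 < 1 - sc p := by linarith
        have hd := (hasDerivAt_prof (k := k) h1).comp_hasFDerivAt p
          (hasFDerivAt_sq (ContinuousLinearMap.id ℝ ℂ) p)
        have hd' : HasFDerivAt h _ p := hd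
        have hsq := Real.sq_sqrt h1'.le
        have hsqp := Real.sqrt_pos.mpr h1'
        set r := Real.sqrt (1 - sc p) with hr
        have er : 1 - sc p = r ^ 2 := hsq.symm
        have ed1 : fderiv ℝ h p 1 + h p * (p.re / (1 - sc p)) =
            -2 * k * p.re * r * deriv chi (k * (1 - sc p)) := by
          rw [hd'.fderiv]
          have : h p = r * chi (k * (1 - sc p)) := rfl
          rw [this]
          simp only [ContinuousLinearMap.coe_id', id_eq, ContinuousLinearMap.comp_id,
            _root_.smul_apply, _root_.add_apply,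
            Complex.reCLM_apply, Complex.imCLM_apply, Complex.one_re, Complex.one_im, smul_eq_mul,
            mul_one, mul_zero, add_zero, ← hr]
          set c1 := chi (k * (1 - sc p))
          set c2 := deriv chi (k * (1 - sc p))
          rw [er]
          field_simp
          ring
        have ed2 : fderiv ℝ h p Complex.I + h p * (p.im / (1 - sc p)) =
            -2 * k * p.im * r * deriv chi (k * (1 - sc p)) := by
          rw [hd'.fderiv]
          have : h p = r * chi (k * (1 - sc p)) := rfl
          rw [this]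
          simp only [ContinuousLinearMap.coe_id', id_eq, ContinuousLinearMap.comp_id,
            _root_.smul_apply, _root_.add_apply,
            Complex.reCLM_apply, Complex.imCLM_apply, Complex.I_re, Complex.I_im, smul_eq_mul,
            mul_one, mul_zero, zero_add, ← hr]
          set c1 := chi (k * (1 - sc p))
          set c2 := deriv chi (k * (1 - sc p))
          rw [er]
          field_simp
          ring
        rw [ed1, ed2]
        have e3 : (-2 * k * p.re * r * deriv chi (k * (1 - sc p))) ^ 2 +
            (-2 * k * p.im * r * deriv chi (k * (1 - sc p))) ^ 2 =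
            4 * k ^ 2 * sc p * r ^ 2 * deriv chi (k * (1 - sc p)) ^ 2 := by
          unfold sc; ring
        rw [e3, ← er]
        by_cases hp2 : sc p < 1 - 1 / k
        · have h5 : 1 < k * (1 - sc p) := by
            have h6 : 1 / k < 1 - sc p := by linarith
            have := mul_lt_mul_of_pos_left h6 hk0
            rwa [mul_one_div_cancel hk0.ne'] at this
          rw [deriv_chi_zero (Or.inr h5)]
          simp only [ne_eq, OfNat.ofNat_ne_zero, not_false_eq_true, zero_pow, mul_zero]
          exact indicator_nonneg (fun _ _ => by positivity) p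
        · rw [indicator_of_mem (show p ∈ T \ {p : ℂ | sc p < 1 - 1 / k} from ⟨h1.le, hp2⟩)]
          have h6 : 1 - sc p ≤ 1 / k := by linarith
          have h7 : deriv chi (k * (1 - sc p)) ^ 2 ≤ C ^ 2 := by
            rw [← sq_abs]
            exact pow_le_pow_left₀ (abs_nonneg _) (hC _) 2
          calc 4 * k ^ 2 * sc p * (1 - sc p) * deriv chi (k * (1 - sc p)) ^ 2
              ≤ 4 * k ^ 2 * 1 * (1 / k) * C ^ 2 := by
                gcongr
            _ = 4 * k * C ^ 2 := by field_simp
      · have hd0 : fderiv ℝ h p = 0 := by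
          by_contra hne
          exact hp (support_fderiv_subset ℝ (f := h) hne)
        rw [hh0 p hp, hd0]
        simp only [_root_.zero_apply, zero_mul, add_zero, ne_eq, OfNat.ofNat_ne_zero,
          not_false_eq_true, zero_pow]
        exact indicator_nonneg (fun _ _ => by positivity) p
    have hvol : volume (T \ {p : ℂ | sc p < 1 - 1 / k}) ≤ ENNReal.ofReal (Real.pi * (1 / k)) := by
      -- compare with closed discs of slightly smaller radius
      have hlim : ∀ δ > 0, δ < 1 / k → volume (T \ {p : ℂ | sc p < 1 - 1 / k}) ≤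
          ENNReal.ofReal (Real.pi * (1 / k + δ)) := by
        intro δ hδ hδ2
        by_cases hk2 : 0 ≤ 1 - 1 / k - δ
        · have hsub : T \ {p : ℂ | sc p < 1 - 1 / k} ⊆ T \ {p : ℂ | sc p ≤ 1 - 1 / k - δ} := by
            intro p hp
            refine ⟨hp.1, fun h => hp.2 ?_⟩
            have : sc p ≤ 1 - 1 / k - δ := h
            show sc p < 1 - 1 / k
            linarith
          refine (measure_mono hsub).trans (le_of_eq ?_)
          rw [measure_sdiff (fun p hp => by
              have : sc p ≤ 1 - 1 / k - δ := hp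
              show sc p ≤ 1
              linarith) (measurableSet_sc _).nullMeasurableSet
            (isCompact_sc _).measure_lt_top.ne, hT, volume_sc zero_le_one,
            volume_sc hk2, ← ENNReal.ofReal_sub _ (by positivity)]
          congr 1
          ring
        · refine (measure_mono sdiff_subset).trans ?_
          rw [hT, volume_sc zero_le_one]
          apply ENNReal.ofReal_le_ofReal
          have : 1 ≤ 1 / k + δ := by linarith
          exact mul_le_mul_of_nonneg_left this hπ.le
      have hlim2 : Tendsto (fun δ : ℝ => ENNReal.ofReal (Real.pi * (1 / k + δ))) (𝓝[>] 0)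
          (𝓝 (ENNReal.ofReal (Real.pi * (1 / k + 0)))) := by
        apply (ENNReal.continuous_ofReal.comp (by fun_prop :
          Continuous fun δ : ℝ => Real.pi * (1 / k + δ))).continuousWithinAt.tendsto
      rw [add_zero] at hlim2
      apply ge_of_tendsto hlim2
      have : Ioo 0 (1 / k) ∈ 𝓝[>] (0 : ℝ) := Ioo_mem_nhdsGT hk'
      filter_upwards [this] with δ hδ
      exact hlim δ hδ.1 hδ.2
    have hTm : MeasurableSet (T \ {p : ℂ | sc p < 1 - 1 / k}) := (measurableSet_sc 1).diff hSm
    have e2 : Integrable (indicator (T \ {p : ℂ | sc p < 1 - 1 / k}) (fun _ => 4 * k * C ^ 2)) := by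
      rw [integrable_indicator_iff hTm]
      exact integrableOn_const (lt_of_le_of_lt hvol ENNReal.ofReal_lt_top).ne
    refine (integral_mono i3 e2 e1).trans ?_
    rw [integral_indicator hTm, setIntegral_const, Measure.real, smul_eq_mul]
    have h8 : (volume (T \ {p : ℂ | sc p < 1 - 1 / k})).toReal ≤ Real.pi * (1 / k) := by
      have := ENNReal.toReal_mono ENNReal.ofReal_ne_top hvol
      rwa [ENNReal.toReal_ofReal (by positivity)] at this
    calc (volume (T \ {p : ℂ | sc p < 1 - 1 / k})).toReal * (4 * k * C ^ 2)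
        ≤ (Real.pi * (1 / k)) * (4 * k * C ^ 2) := by gcongr
      _ = 4 * Real.pi * C ^ 2 := by field_simp
  -- lower bound of the mass
  have t4 : m * (Real.pi / 2) ≤ ∫ p, h p ^ 2 * (1 / (1 - sc p) ^ 2) := by
    refine (log_div m).trans ?_
    have hset : MeasurableSet {p : ℂ | sc p ≤ 1 - (1 / 2) ^ m} := measurableSet_sc _
    rw [← integral_indicator hset]
    have hkm : k * (1 / 2) ^ m = 1 := by
      rw [hk, ← mul_pow]; norm_num
    apply integral_mono_of_nonneg
    · refine Eventually.of_forall fun p => ?_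
      apply indicator_nonneg
      intro p hp
      have h1 : sc p ≤ 1 - (1 / 2) ^ m := hp
      have h2 : (0 : ℝ) < (1 / 2) ^ m := by positivity
      have : 0 < 1 - sc p := by linarith
      positivity
    · exact iM
    · refine Eventually.of_forall fun p => ?_
      simp only
      by_cases hp : sc p ≤ 1 - (1 / 2) ^ m
      · rw [indicator_of_mem (show p ∈ {p : ℂ | sc p ≤ 1 - (1 / 2) ^ m} from hp)]
        have h2 : (0 : ℝ) < (1 / 2) ^ m := by positivity
        have h3 : 0 < 1 - sc p := by linarith
        rw [hval p (by linarith), chi_one (by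
          have : (1 / 2) ^ m ≤ 1 - sc p := by linarith
          have := mul_le_mul_of_nonneg_left this hk0.le
          rwa [hkm] at this)]
        apply le_of_eq
        field_simp
      · rw [indicator_of_notMem (show p ∉ {p : ℂ | sc p ≤ 1 - (1 / 2) ^ m} from hp)]
        positivity
  refine ⟨h, hsm, hcs, htsX, i1, lt_of_lt_of_le (by positivity) t4, ?_⟩
  rw [key, t1]
  have := mul_le_mul_of_nonneg_left t4 hε.le
  have h9 : (1 + ε) * ∫ p, h p ^ 2 * (1 / (1 - sc p) ^ 2) =
      (∫ p, h p ^ 2 * (1 / (1 - sc p) ^ 2)) + ε * ∫ p, h p ^ 2 * (1 / (1 - sc p) ^ 2) := by ring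
  rw [h9]
  linarith

end Pool.Agent.H911R3
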