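import Pool.Agent.H911R3.SpecDefs
import Pool.Agent.H911R3.Test

/-! The metrics `ω_t` on the polydisc: Kähler, Ricci curvature. -/

namespace Pool.Agent.H911R3

open MeasureTheory Set Filter Topology
open scoped ComplexOrder

variable {n : ℕ}

/-- coefficient as a function of `s = |z|²` -/
noncomputable def Gs (t s : ℝ) : ℝ := (1 + t * (1 - s)) * (2 / (1 - s) ^ 2)

theorem om_eq (t : ℝ) (p : Fin n → ℂ) :
    om n t p = Matrix.diagonal fun i => ((Gs t (sc (p i)) : ℝ) : ℂ) := by
  unfold om Gs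
  simp only [sc_norm]

theorem mem_poly {p : Fin n → ℂ} : p ∈ polydisc n ↔ ∀ i, sc (p i) < 1 := by
  unfold polydisc
  simp only [mem_ofPred_eq, sc_norm]
  refine forall_congr' fun i => ?_
  rw [sq_lt_one_iff₀ (norm_nonneg _)]

theorem continuous_sci (i : Fin n) : Continuous fun p : Fin n → ℂ => sc (p i) :=
  continuous_sc.comp (continuous_apply i)

theorem isOpen_poly : IsOpen (polydisc n) := by
  have : polydisc n = ⋂ i, {p | sc (p i) < 1} := by
    ext p; simp [mem_poly]
  rw [this]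
  exact isOpen_iInter_of_finite fun i => isOpen_lt (continuous_sci i) continuous_const

/-- coordinate projection -/
noncomputable abbrev zc (n : ℕ) (i : Fin n) : (Fin n → ℂ) →L[ℝ] ℂ :=
  ContinuousLinearMap.proj i

theorem sq_zc (i : Fin n) (p : Fin n → ℂ) : sq (zc n i) p = sc (p i) := rfl

theorem Gs_pos {t s : ℝ} (ht : 0 ≤ t) (hs : s < 1) : 0 < Gs t s := by
  unfold Gs
  have : 0 < 1 - s := by linarith
  positivity

theorem contDiffOn_Gs (t : ℝ) (i : Fin n) : ContDiffOn ℝ ((⊤ : ℕ∞) : WithTop ℕ∞)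
    (fun p : Fin n → ℂ => Gs t (sc (p i))) (polydisc n) := by
  have h1 : ContDiff ℝ ((⊤ : ℕ∞) : WithTop ℕ∞) (fun p : Fin n → ℂ => sc (p i)) :=
    contDiff_sq (zc n i)
  unfold Gs
  have h2 : ContDiff ℝ ((⊤ : ℕ∞) : WithTop ℕ∞) (fun p : Fin n → ℂ => 1 - sc (p i)) :=
    contDiff_const.sub h1
  refine ContDiffOn.mul (contDiff_const.add (contDiff_const.mul h2)).contDiffOn ?_
  refine ContDiffOn.div contDiffOn_const (h2.pow 2).contDiffOn ?_
  intro p hp
  have := mem_poly.mp hp i
  exact pow_ne_zero 2 (by linarith)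

theorem zc_single (i j : Fin n) (w : ℂ) : zc n j (Pi.single i w) = if i = j then w else 0 := by
  simp only [ContinuousLinearMap.proj_apply, Pi.single_apply]
  rcases eq_or_ne i j with h | h
  · subst h; simp
  · rw [if_neg h, if_neg (Ne.symm h)]

/-- real derivative of a function of `|z_j|²` -/
theorem hasFDerivAt_comp_sc {u : ℝ → ℝ} {u' : ℝ} {j : Fin n} {p : Fin n → ℂ}
    (hu : HasDerivAt u u' (sc (p j))) :
    HasFDerivAt (fun q : Fin n → ℂ => u (sc (q j)))
      (u' • ((2 * (p j).re) • Complex.reCLM.comp (zc n j) +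
      (2 * (p j).im) • Complex.imCLM.comp (zc n j))) p :=
  HasDerivAt.comp_hasFDerivAt (f := sq (zc n j)) p hu (hasFDerivAt_sq (zc n j) p)

theorem hasFDerivAt_ofReal {F : (Fin n → ℂ) → ℝ} {F' : (Fin n → ℂ) →L[ℝ] ℝ} {p : Fin n → ℂ}
    (h : HasFDerivAt F F' p) :
    HasFDerivAt (fun q => ((F q : ℝ) : ℂ)) (Complex.ofRealCLM.comp F') p :=
  Complex.ofRealCLM.hasFDerivAt.comp p h

theorem dz_ofReal {F : (Fin n → ℂ) → ℝ} {F' : (Fin n → ℂ) →L[ℝ] ℝ} {p : Fin n → ℂ}
    (h : HasFDerivAt F F' p) (i : Fin n) : dz i (fun q => ((F q : ℝ) : ℂ)) p =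
      ((F' (Pi.single i 1) : ℝ) - Complex.I * (F' (Pi.single i Complex.I) : ℝ)) / 2 := by
  unfold dz
  rw [(hasFDerivAt_ofReal h).fderiv]
  simp

theorem dzbar_ofReal {F : (Fin n → ℂ) → ℝ} {F' : (Fin n → ℂ) →L[ℝ] ℝ} {p : Fin n → ℂ}
    (h : HasFDerivAt F F' p) (i : Fin n) : dzbar i (fun q => ((F q : ℝ) : ℂ)) p =
      ((F' (Pi.single i 1) : ℝ) + Complex.I * (F' (Pi.single i Complex.I) : ℝ)) / 2 := by
  unfold dzbar
  rw [(hasFDerivAt_ofReal h).fderiv]
  simp

theorem om_apply (t : ℝ) (p : Fin n → ℂ) (i j : Fin n) :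
    om n t p i j = if i = j then ((Gs t (sc (p i)) : ℝ) : ℂ) else 0 := by
  rw [om_eq, Matrix.diagonal_apply]

theorem diff_Gs (t : ℝ) (i : Fin n) {p : Fin n → ℂ} (hp : p ∈ polydisc n) :
    ∃ u', HasDerivAt (Gs t) u' (sc (p i)) := by
  have h := mem_poly.mp hp i
  have : DifferentiableAt ℝ (Gs t) (sc (p i)) := by
    unfold Gs
    have : (1 - sc (p i)) ^ 2 ≠ 0 := pow_ne_zero 2 (by linarith)
    fun_prop (disch := assumption)
  exact ⟨_, this.hasDerivAt⟩

theorem dz_om_ne (t : ℝ) {p : Fin n → ℂ} (hp : p ∈ polydisc n) {i k : Fin n} (h : k ≠ i) :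
    dz k (fun q => ((Gs t (sc (q i)) : ℝ) : ℂ)) p = 0 := by
  obtain ⟨u', hu⟩ := diff_Gs t i hp
  rw [dz_ofReal (hasFDerivAt_comp_sc hu)]
  simp only [_root_.smul_apply, _root_.add_apply, ContinuousLinearMap.comp_apply, zc_single,
    if_neg h]
  simp

theorem isKahler_om {t : ℝ} (ht : 0 ≤ t) : IsKahler (polydisc n) (om n t) where
  smooth i j := by
    simp only [om_apply]
    by_cases h : i = j
    · simp only [if_pos h]
      exact Complex.ofRealCLM.contDiff.comp_contDiffOn (contDiffOn_Gs t i)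
    · simp only [if_neg h]
      exact contDiffOn_const
  posDef p hp := by
    rw [om_eq, Matrix.posDef_diagonal_iff]
    intro i
    have := Gs_pos ht (mem_poly.mp hp i)
    exact_mod_cast this
  closed p hp i j k := by
    simp only [om_apply]
    have hz : ∀ l, dz l (fun _ : Fin n → ℂ => (0 : ℂ)) p = 0 := by
      intro l
      simp [dz]
    by_cases hij : i = j
    · subst hij
      by_cases hki : k = i
      · subst hki; rfl
      · simp only [if_true, if_neg hki]
        rw [dz_om_ne t hp hki, hz]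
    · simp only [if_neg hij]
      by_cases hkj : k = j
      · subst hkj
        simp only [if_true]
        rw [dz_om_ne t hp hij, hz]
      · simp only [if_neg hkj]
        rw [hz, hz]

/-- logarithm of the coefficient -/
noncomputable def LG (t s : ℝ) : ℝ := Real.log (Gs t s)

noncomputable def LG1 (t s : ℝ) : ℝ := -t / (1 + t * (1 - s)) + 2 / (1 - s)

noncomputable def LG2 (t s : ℝ) : ℝ := -t ^ 2 / (1 + t * (1 - s)) ^ 2 + 2 / (1 - s) ^ 2

theorem D_pos {t s : ℝ} (ht : 0 ≤ t) (hs : s < 1) : 0 < 1 + t * (1 - s) := by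
  have : 0 < 1 - s := by linarith
  positivity

theorem hasDerivAt_LG {t s : ℝ} (ht : 0 ≤ t) (hs : s < 1) : HasDerivAt (LG t) (LG1 t s) s := by
  have hD := D_pos ht hs
  have h1 : 0 < 1 - s := by linarith
  have e : LG t =ᶠ[𝓝 s] fun x => Real.log (1 + t * (1 - x)) + (Real.log 2 - 2 * Real.log (1 - x)) := by
    filter_upwards [Iio_mem_nhds hs] with x hx
    have hx' : x < 1 := hx
    have h2 : 0 < 1 - x := by linarith
    have h3 := D_pos ht hx'
    rw [LG, Gs, Real.log_mul h3.ne' (by positivity), Real.log_div two_ne_zero (by positivity),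
      Real.log_pow]
    norm_num
  refine HasDerivAt.congr_of_eventuallyEq ?_ e
  have a1 : HasDerivAt (fun x : ℝ => 1 - x) (-1) s := by
    simpa using (hasDerivAt_id s).const_sub 1
  have a2 : HasDerivAt (fun x : ℝ => 1 + t * (1 - x)) (-t) s := by
    simpa using (a1.const_mul t).const_add 1
  have a3 := a2.log hD.ne'
  have a4 := (a1.log h1.ne').const_mul 2
  have a5 := a3.add (a4.const_sub (Real.log 2))
  refine a5.congr_deriv ?_
  unfold LG1
  ring

theorem hasDerivAt_LG1 {t s : ℝ} (ht : 0 ≤ t) (hs : s < 1) :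
    HasDerivAt (LG1 t) (LG2 t s) s := by
  have hD := D_pos ht hs
  have h1 : 0 < 1 - s := by linarith
  have a1 : HasDerivAt (fun x : ℝ => 1 - x) (-1) s := by
    simpa using (hasDerivAt_id s).const_sub 1
  have a2 : HasDerivAt (fun x : ℝ => 1 + t * (1 - x)) (-t) s := by
    simpa using (a1.const_mul t).const_add 1
  have a3 := (hasDerivAt_const s (-t)).div a2 hD.ne'
  have a4 := (hasDerivAt_const s (2 : ℝ)).div a1 h1.ne'
  have a5 := a3.add a4
  refine a5.congr_deriv ?_
  unfold LG2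
  field_simp
  ring

theorem det_om (t : ℝ) (p : Fin n → ℂ) : (om n t p).det.re = ∏ i, Gs t (sc (p i)) := by
  rw [om_eq, Matrix.det_diagonal, ← Complex.ofReal_prod, Complex.ofReal_re]

theorem logdet_om {t : ℝ} (ht : 0 ≤ t) {p : Fin n → ℂ} (hp : p ∈ polydisc n) :
    Real.log (om n t p).det.re = ∑ k, LG t (sc (p k)) := by
  rw [det_om, Real.log_prod (fun i _ => (Gs_pos ht (mem_poly.mp hp i)).ne')]
  rfl

theorem dzbar_logdet {t : ℝ} (ht : 0 ≤ t) {p : Fin n → ℂ} (hp : p ∈ polydisc n) (j : Fin n) :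
    dzbar j (fun q => ((Real.log (om n t q).det.re : ℝ) : ℂ)) p = (LG1 t (sc (p j)) : ℂ) * p j := by
  have e : (fun q => Real.log (om n t q).det.re) =ᶠ[𝓝 p] fun q => ∑ k, LG t (sc (q k)) := by
    filter_upwards [isOpen_poly.mem_nhds hp] with q hq
    exact logdet_om ht hq
  have h1 : HasFDerivAt (fun q : Fin n → ℂ => ∑ k, LG t (sc (q k)))
      (∑ k, (LG1 t (sc (p k)) • ((2 * (p k).re) • Complex.reCLM.comp (zc n k) +
      (2 * (p k).im) • Complex.imCLM.comp (zc n k)))) p :=
    HasFDerivAt.fun_sum fun k _ => hasFDerivAt_comp_sc (hasDerivAt_LG ht (mem_poly.mp hp k))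
  have h2 := h1.congr_of_eventuallyEq e
  rw [dzbar_ofReal h2]
  simp only [_root_.sum_apply, _root_.smul_apply, _root_.add_apply,
    ContinuousLinearMap.comp_apply, zc_single, Complex.reCLM_apply, Complex.imCLM_apply,
    smul_eq_mul]
  rw [Finset.sum_eq_single j, Finset.sum_eq_single j]
  · simp only [if_true, Complex.one_re, Complex.one_im, Complex.I_re, Complex.I_im]
    generalize LG1 t (sc (p j)) = a
    conv_rhs => rw [← Complex.re_add_im (p j)]
    push_cast
    ring
  · intro b _ hb; simp [Ne.symm hb]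
  · intro h; exact absurd (Finset.mem_univ j) h
  · intro b _ hb; simp [Ne.symm hb]
  · intro h; exact absurd (Finset.mem_univ j) h

theorem ricci_om {t : ℝ} (ht : 0 ≤ t) {p : Fin n → ℂ} (hp : p ∈ polydisc n) :
    ricci (om n t) p = Matrix.diagonal fun i =>
      ((t * (1 + t) / (1 + t * (1 - sc (p i))) ^ 2 - 2 / (1 - sc (p i)) ^ 2 : ℝ) : ℂ) := by
  ext i j
  rw [ricci, Matrix.of_apply, Matrix.diagonal_apply]
  have e : (dzbar j fun q => ((Real.log (om n t q).det.re : ℝ) : ℂ)) =ᶠ[𝓝 p]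
      fun q => (LG1 t (sc (q j)) : ℂ) * q j := by
    filter_upwards [isOpen_poly.mem_nhds hp] with q hq
    exact dzbar_logdet ht hq j
  have hs := mem_poly.mp hp j
  have h1 := hasFDerivAt_ofReal (hasFDerivAt_comp_sc (hasDerivAt_LG1 ht hs))
  have h2 : HasFDerivAt (fun q : Fin n → ℂ => q j) (zc n j) p := (zc n j).hasFDerivAt
  have h3 := (h1.mul h2).congr_of_eventuallyEq e
  unfold dz
  rw [h3.fderiv]
  simp only [_root_.smul_apply, _root_.add_apply,
    ContinuousLinearMap.comp_apply, zc_single, Complex.reCLM_apply, Complex.imCLM_apply,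
    smul_eq_mul, Complex.ofRealCLM_apply]
  by_cases hij : i = j
  · subst hij
    simp only [if_true, Complex.one_re, Complex.one_im, Complex.I_re, Complex.I_im]
    have hD := D_pos ht hs
    have h1s : 0 < 1 - sc (p i) := by linarith
    have key : t * (1 + t) / (1 + t * (1 - sc (p i))) ^ 2 - 2 / (1 - sc (p i)) ^ 2 =
        -(LG2 t (sc (p i)) * sc (p i) + LG1 t (sc (p i))) := by
      unfold LG1 LG2
      field_simp
      ring
    rw [key]
    have hpi : p i = ((p i).re : ℂ) + (p i).im * Complex.I := (Complex.re_add_im (p i)).symm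
    have hsc : ((sc (p i) : ℝ) : ℂ) = ((p i).re : ℂ) ^ 2 + ((p i).im : ℂ) ^ 2 := by
      unfold sc; push_cast; ring
    push_cast
    rw [hsc]
    generalize ((LG1 t (sc (p i)) : ℝ) : ℂ) = a
    generalize ((LG2 t (sc (p i)) : ℝ) : ℂ) = b
    generalize ((p i).re : ℂ) = x at hpi ⊢
    generalize ((p i).im : ℂ) = y at hpi ⊢
    rw [hpi]
    have hI : Complex.I ^ 2 = -1 := Complex.I_sq
    linear_combination (a / 2 + b * y ^ 2) * hI
  · simp [if_neg hij]

theorem isKE_om : IsKE (polydisc n) (om n 0) := by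
  intro p hp
  rw [ricci_om le_rfl hp, om_eq]
  ext i j
  rw [Matrix.neg_apply, Matrix.diagonal_apply, Matrix.diagonal_apply]
  by_cases h : i = j
  · simp only [if_pos h, Gs]
    push_cast
    ring
  · simp only [if_neg h, neg_zero]

theorem ricci_ge {t : ℝ} (ht : 0 ≤ t) {p : Fin n → ℂ} (hp : p ∈ polydisc n) :
    (ricci (om n t) p + om n t p).PosSemidef := by
  rw [ricci_om ht hp, om_eq, Matrix.diagonal_add, Matrix.posSemidef_diagonal_iff]
  intro i
  have hs := mem_poly.mp hp i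
  have hD := D_pos ht hs
  have h1 : 0 < 1 - sc (p i) := by linarith
  rw [← Complex.ofReal_add]
  have : t * (1 + t) / (1 + t * (1 - sc (p i))) ^ 2 - 2 / (1 - sc (p i)) ^ 2 + Gs t (sc (p i)) =
      t * (1 + t) / (1 + t * (1 - sc (p i))) ^ 2 + t * 2 / (1 - sc (p i)) := by
    unfold Gs
    field_simp
    ring
  rw [this]
  have h2 : 0 ≤ t * (1 + t) / (1 + t * (1 - sc (p i))) ^ 2 + t * 2 / (1 - sc (p i)) := by
    positivity
  exact_mod_cast h2

end Pool.Agent.H911R3
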