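import Mathlib
import Pool.Agent.Helper562.Imm

/-! The manifold of unit decomposable tensors `x ⊗ y ⊗ z` in `ℝ² ⊗ ℝ³ ⊗ ℝ³`: charts. -/

open Bundle Bornology Set MeasureTheory Manifold Filter Topology
open scoped ENNReal ContDiff Manifold NNReal

noncomputable section

namespace Pool.Agent.H911R3.Seg
set_option maxSynthPendingDepth 3
set_option linter.unusedSectionVars false
set_option linter.unusedVariables false

abbrev A2 := EuclideanSpace ℝ (Fin 2)
abbrev A3 := EuclideanSpace ℝ (Fin 3)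
abbrev Ix := Fin 2 × Fin 3 × Fin 3
/-- the space of real `2 × 3 × 3` tensors -/
abbrev V := EuclideanSpace ℝ Ix

/-- the tensor `x ⊗ y ⊗ z` -/
def tp (x : A2) (y z : A3) : V := WithLp.toLp 2 (fun t => x t.1 * y t.2.1 * z t.2.2)

@[simp] lemma tp_apply (x : A2) (y z : A3) (t : Ix) : tp x y z t = x t.1 * y t.2.1 * z t.2.2 := rfl

lemma inner_tp (x x' : A2) (y y' z z' : A3) :
    inner ℝ (tp x y z) (tp x' y' z') = inner ℝ x x' * inner ℝ y y' * inner ℝ z z' := by
  simp [PiLp.inner_apply, Fintype.sum_prod_type, Fin.sum_univ_two, Fin.sum_univ_three]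
  ring

lemma norm_tp (x : A2) (y z : A3) : ‖tp x y z‖ = ‖x‖ * ‖y‖ * ‖z‖ := by
  have h : ‖tp x y z‖ ^ 2 = (‖x‖ * ‖y‖ * ‖z‖) ^ 2 := by
    rw [← real_inner_self_eq_norm_sq, inner_tp, real_inner_self_eq_norm_sq,
      real_inner_self_eq_norm_sq, real_inner_self_eq_norm_sq]
    ring
  exact (pow_left_inj₀ (norm_nonneg _) (by positivity) two_ne_zero).mp h

lemma tp_smul (a b c : ℝ) (x : A2) (y z : A3) :
    tp (a • x) (b • y) (c • z) = (a * b * c) • tp x y z := by
  ext t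
  simp
  ring

/-- the set of the tensors `x ⊗ y ⊗ z` with `x, y, z` unit vectors -/
def P (T : V) : Prop := ∃ x : A2, ∃ y z : A3, ‖x‖ = 1 ∧ ‖y‖ = 1 ∧ ‖z‖ = 1 ∧ T = tp x y z

/-- The manifold of the unit decomposable tensors in `ℝ² ⊗ ℝ³ ⊗ ℝ³`. -/
def M : Type := {T : V // P T}

instance : TopologicalSpace M := instTopologicalSpaceSubtype
instance : T3Space M := inferInstanceAs (T3Space {T : V // P T})
instance : SecondCountableTopology M := inferInstanceAs (SecondCountableTopology {T : V // P T})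

/-- the model space -/
abbrev E := (Fin 1 → ℝ) × (Fin 2 → ℝ) × (Fin 2 → ℝ)

section vec
variable {m : ℕ}

/-- the vector with `1` at position `i₀` and the coordinates `u` elsewhere -/
def Xv (i₀ : Fin (m + 1)) (u : Fin m → ℝ) : EuclideanSpace ℝ (Fin (m + 1)) :=
  WithLp.toLp 2 (i₀.insertNth (α := fun _ => ℝ) 1 u)

lemma Xv_same (i₀ : Fin (m + 1)) (u : Fin m → ℝ) : Xv i₀ u i₀ = 1 := by
  simp [Xv]

lemma Xv_succ (i₀ : Fin (m + 1)) (u : Fin m → ℝ) (a : Fin m) : Xv i₀ u (i₀.succAbove a) = u a := by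
  simp [Xv]

lemma Xv_ne (i₀ : Fin (m + 1)) (u : Fin m → ℝ) : Xv i₀ u ≠ 0 := by
  intro h
  have := congrArg (fun v : EuclideanSpace ℝ (Fin (m + 1)) => v i₀) h
  simp [Xv_same] at this

lemma contDiff_Xv (i₀ : Fin (m + 1)) : ContDiff ℝ ∞ (Xv i₀ : (Fin m → ℝ) → _) := by
  rw [contDiff_euclidean]
  intro i
  rcases eq_or_ne i i₀ with rfl | h
  · simp only [Xv_same]
    exact contDiff_const
  · obtain ⟨a, rfl⟩ := Fin.exists_succAbove_eq h
    simp only [Xv_succ]
    exact contDiff_apply ℝ ℝ a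

/-- normalized vector -/
def Xu (i₀ : Fin (m + 1)) (u : Fin m → ℝ) : EuclideanSpace ℝ (Fin (m + 1)) :=
  ‖Xv i₀ u‖⁻¹ • Xv i₀ u

lemma norm_Xu (i₀ : Fin (m + 1)) (u : Fin m → ℝ) : ‖Xu i₀ u‖ = 1 := by
  rw [Xu, norm_smul, norm_inv, norm_norm, inv_mul_cancel₀ (norm_ne_zero_iff.mpr (Xv_ne i₀ u))]

lemma contDiff_Xu (i₀ : Fin (m + 1)) : ContDiff ℝ ∞ (Xu i₀ : (Fin m → ℝ) → _) := by
  unfold Xu
  have h1 : ContDiff ℝ ∞ (fun u : Fin m → ℝ => ‖Xv i₀ u‖) :=
    (contDiff_Xv i₀).norm ℝ (Xv_ne i₀)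
  exact (h1.inv fun u => norm_ne_zero_iff.mpr (Xv_ne i₀ u)).smul (contDiff_Xv i₀)

lemma Xu_same_pos (i₀ : Fin (m + 1)) (u : Fin m → ℝ) : 0 < Xu i₀ u i₀ := by
  have h := norm_pos_iff.mpr (Xv_ne i₀ u)
  simp only [Xu, PiLp.smul_apply, Xv_same, smul_eq_mul, mul_one]
  positivity

lemma Xu_div (i₀ : Fin (m + 1)) (u : Fin m → ℝ) (a : Fin m) :
    Xu i₀ u (i₀.succAbove a) = u a * Xu i₀ u i₀ := by
  simp only [Xu, PiLp.smul_apply, Xv_same, Xv_succ, smul_eq_mul]
  ring

lemma Xu_of (i₀ : Fin (m + 1)) (x : EuclideanSpace ℝ (Fin (m + 1))) (hx : ‖x‖ = 1)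
    (h0 : x i₀ ≠ 0) (u : Fin m → ℝ) (hu : ∀ a, u a = x (i₀.succAbove a) / x i₀) :
    Xu i₀ u = (|x i₀| / x i₀) • x := by
  have h1 : Xv i₀ u = (x i₀)⁻¹ • x := by
    ext i
    rcases eq_or_ne i i₀ with rfl | h
    · simp [Xv_same, h0]
    · obtain ⟨a, rfl⟩ := Fin.exists_succAbove_eq h
      simp only [Xv_succ, hu, PiLp.smul_apply, smul_eq_mul]
      field_simp
  rw [Xu, h1, norm_smul, hx, smul_smul, mul_one, norm_inv, inv_inv, Real.norm_eq_abs,
    div_eq_mul_inv]

end vec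

/-- signs -/
def eps (b : Bool) : ℝ := if b then 1 else -1

lemma eps_mul (b : Bool) : eps b * eps b = 1 := by cases b <;> simp [eps]

lemma abs_eps (b : Bool) : |eps b| = 1 := by cases b <;> simp [eps]

/-- inverse chart -/
def psi (c : Ix × Bool) (w : E) : V :=
  tp (eps c.2 • Xu c.1.1 w.1) (Xu c.1.2.1 w.2.1) (Xu c.1.2.2 w.2.2)

/-- chart -/
def phi (c : Ix × Bool) (T : V) : E :=
  (fun a => T (c.1.1.succAbove a, c.1.2.1, c.1.2.2) / T c.1,
    fun b => T (c.1.1, c.1.2.1.succAbove b, c.1.2.2) / T c.1,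
    fun d => T (c.1.1, c.1.2.1, c.1.2.2.succAbove d) / T c.1)

lemma psi_mem (c : Ix × Bool) (w : E) : P (psi c w) :=
  ⟨_, _, _, by rw [norm_smul, norm_Xu, Real.norm_eq_abs, abs_eps, mul_one], norm_Xu _ _,
    norm_Xu _ _, rfl⟩

lemma psi_pos (c : Ix × Bool) (w : E) : 0 < eps c.2 * psi c w c.1 := by
  simp only [psi, tp_apply, PiLp.smul_apply, smul_eq_mul]
  have h1 := Xu_same_pos c.1.1 w.1
  have h2 := Xu_same_pos c.1.2.1 w.2.1
  have h3 := Xu_same_pos c.1.2.2 w.2.2
  have e : eps c.2 * (eps c.2 * Xu c.1.1 w.1 c.1.1 * Xu c.1.2.1 w.2.1 c.1.2.1 *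
      Xu c.1.2.2 w.2.2 c.1.2.2) = (eps c.2 * eps c.2) * (Xu c.1.1 w.1 c.1.1 *
        Xu c.1.2.1 w.2.1 c.1.2.1 * Xu c.1.2.2 w.2.2 c.1.2.2) := by ring
  rw [e, eps_mul, one_mul]
  positivity

lemma eps_ne (b : Bool) : eps b ≠ 0 := by cases b <;> simp [eps]

lemma phi_psi (c : Ix × Bool) (w : E) : phi c (psi c w) = w := by
  have h1 := (Xu_same_pos c.1.1 w.1).ne'
  have h2 := (Xu_same_pos c.1.2.1 w.2.1).ne'
  have h3 := (Xu_same_pos c.1.2.2 w.2.2).ne'
  have h4 := eps_ne c.2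
  ext a
  · simp only [phi, psi, tp_apply, PiLp.smul_apply, smul_eq_mul, Xu_div]
    field_simp
  · simp only [phi, psi, tp_apply, PiLp.smul_apply, smul_eq_mul, Xu_div]
    field_simp
  · simp only [phi, psi, tp_apply, PiLp.smul_apply, smul_eq_mul, Xu_div]
    field_simp

lemma psi_phi (c : Ix × Bool) (T : V) (hT : P T) (hd : 0 < eps c.2 * T c.1) :
    psi c (phi c T) = T := by
  obtain ⟨x, y, z, hx, hy, hz, rfl⟩ := hT
  have h0 : tp x y z c.1 ≠ 0 := by
    intro h; rw [h, mul_zero] at hd; exact lt_irrefl _ hd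
  rw [tp_apply] at h0
  have hx0 : x c.1.1 ≠ 0 := by intro h; apply h0; rw [h]; ring
  have hy0 : y c.1.2.1 ≠ 0 := by intro h; apply h0; rw [h]; ring
  have hz0 : z c.1.2.2 ≠ 0 := by intro h; apply h0; rw [h]; ring
  unfold psi
  rw [Xu_of c.1.1 x hx hx0 _ (fun a => by
      simp only [phi, tp_apply]; field_simp),
    Xu_of c.1.2.1 y hy hy0 _ (fun a => by
      simp only [phi, tp_apply]; field_simp),
    Xu_of c.1.2.2 z hz hz0 _ (fun a => by
      simp only [phi, tp_apply]; field_simp),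
    smul_smul, tp_smul]
  have key : eps c.2 * (|x c.1.1| / x c.1.1) * (|y c.1.2.1| / y c.1.2.1) *
      (|z c.1.2.2| / z c.1.2.2) = 1 := by
    have e1 : eps c.2 * (|x c.1.1| / x c.1.1) * (|y c.1.2.1| / y c.1.2.1) *
      (|z c.1.2.2| / z c.1.2.2) = eps c.2 * |x c.1.1 * y c.1.2.1 * z c.1.2.2| /
        (x c.1.1 * y c.1.2.1 * z c.1.2.2) := by
      rw [abs_mul, abs_mul]
      field_simp
    rw [tp_apply] at hd
    have e2 : |x c.1.1 * y c.1.2.1 * z c.1.2.2| = eps c.2 * (x c.1.1 * y c.1.2.1 * z c.1.2.2) := by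
      rw [← abs_of_pos hd, abs_mul (eps c.2), abs_eps, one_mul]
    rw [e1, e2, ← mul_assoc, eps_mul, one_mul, div_self h0]
  rw [key, one_smul]

lemma contDiff_tp {W : Type*} [NormedAddCommGroup W] [NormedSpace ℝ W] {f : W → A2} {g h : W → A3}
    {n : ℕ∞ω} {s : Set W} {a : W} (hf : ContDiffWithinAt ℝ n f s a) (hg : ContDiffWithinAt ℝ n g s a)
    (hh : ContDiffWithinAt ℝ n h s a) : ContDiffWithinAt ℝ n (fun w => tp (f w) (g w) (h w)) s a := by
  rw [contDiffWithinAt_euclidean] at hf hg hh ⊢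
  intro t
  simp only [tp_apply]
  exact ((hf _).mul (hg _)).mul (hh _)

lemma contDiff_psi (c : Ix × Bool) : ContDiff ℝ ∞ (psi c) := by
  rw [contDiff_iff_contDiffAt]
  intro w
  rw [← contDiffWithinAt_univ]
  unfold psi
  apply contDiff_tp
  · exact (((contDiff_Xu c.1.1).comp contDiff_fst).const_smul (eps c.2)).contDiffAt.contDiffWithinAt
  · exact ((contDiff_Xu c.1.2.1).comp (contDiff_fst.comp contDiff_snd)).contDiffAt.contDiffWithinAt
  · exact ((contDiff_Xu c.1.2.2).comp (contDiff_snd.comp contDiff_snd)).contDiffAt.contDiffWithinAt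

lemma contDiff_coord (t : Ix) : ContDiff ℝ ∞ (fun T : V => T t) :=
  (EuclideanSpace.proj (𝕜 := ℝ) t : V →L[ℝ] ℝ).contDiff

lemma contDiffAt_phi (c : Ix × Bool) (T : V) (hT : T c.1 ≠ 0) : ContDiffAt ℝ ∞ (phi c) T := by
  unfold phi
  refine ContDiffAt.prodMk ?_ (ContDiffAt.prodMk ?_ ?_)
  all_goals
    rw [contDiffAt_pi]
    intro a
    exact (contDiff_coord _).contDiffAt.div (contDiff_coord _).contDiffAt hT

lemma ne_of_pos {c : Ix × Bool} {T : V} (h : 0 < eps c.2 * T c.1) : T c.1 ≠ 0 := by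
  intro h0; rw [h0, mul_zero] at h; exact lt_irrefl _ h

/-- the charts -/
def chart (c : Ix × Bool) : OpenPartialHomeomorph M E where
  toFun x := phi c x.1
  invFun y := ⟨psi c y, psi_mem c _⟩
  source := {x | 0 < eps c.2 * x.1 c.1}
  target := univ
  map_source' x hx := mem_univ _
  map_target' y hy := psi_pos c _
  left_inv' x hx := Subtype.ext (psi_phi c x.1 x.2 hx)
  right_inv' y hy := phi_psi c y
  open_source := by
    have h : Continuous (fun x : M => eps c.2 * x.1 c.1) :=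
      continuous_const.mul ((contDiff_coord c.1).continuous.comp continuous_subtype_val)
    exact isOpen_lt continuous_const h
  open_target := isOpen_univ
  continuousOn_toFun := by
    intro x hx
    have h1 : ContinuousAt (phi c) x.1 := (contDiffAt_phi c x.1 (ne_of_pos hx)).continuousAt
    exact (h1.comp continuous_subtype_val.continuousAt).continuousWithinAt
  continuousOn_invFun := by
    apply Continuous.continuousOn
    apply Continuous.subtype_mk
    exact (contDiff_psi c).continuous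

lemma norm_P {T : V} (hT : P T) : ‖T‖ = 1 := by
  obtain ⟨x, y, z, hx, hy, hz, rfl⟩ := hT
  rw [norm_tp, hx, hy, hz]; norm_num

lemma exists_chart (x : M) : ∃ c : Ix × Bool, 0 < eps c.2 * x.1 c.1 := by
  have h1 : x.1 ≠ 0 := by
    intro h
    have := norm_P x.2
    rw [h, norm_zero] at this
    exact zero_ne_one this
  obtain ⟨t, ht⟩ : ∃ t, x.1 t ≠ 0 := by
    by_contra h
    push Not at h
    exact h1 (by ext t; exact h t)
  rcases lt_or_gt_of_ne ht with h | h
  · exact ⟨(t, false), by simp [eps, h]⟩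
  · exact ⟨(t, true), by simp [eps, h]⟩

/-- index of the preferred chart -/
def idx (x : M) : Ix × Bool := (exists_chart x).choose

lemma idx_spec (x : M) : 0 < eps (idx x).2 * x.1 (idx x).1 := (exists_chart x).choose_spec

instance : ChartedSpace E M where
  atlas := range chart
  chartAt x := chart (idx x)
  mem_chart_source x := idx_spec x
  chart_mem_atlas x := mem_range_self _

instance : IsManifold 𝓘(ℝ, E) ∞ M := by
  apply isManifold_of_contDiffOn
  rintro _ _ ⟨b, rfl⟩ ⟨c, rfl⟩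
  simp only [modelWithCornersSelf_coe, modelWithCornersSelf_coe_symm, Function.comp_id,
    Function.id_comp, range_id, inter_univ, preimage_id]
  intro y hy
  apply ContDiffAt.contDiffWithinAt
  have hy2 : 0 < eps c.2 * (psi b y) c.1 := hy.2
  have h1 : ContDiffAt ℝ ∞ (fun y => phi c (psi b y)) y := by
    apply ContDiffAt.comp (g := phi c) (f := fun y => psi b y)
    · exact contDiffAt_phi c _ (ne_of_pos hy2)
    · exact (contDiff_psi b).contDiffAt
  exact h1

/-- the inclusion in the space of tensors -/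
def inc (x : M) : V := x.1

lemma continuous_inc : Continuous inc := continuous_subtype_val

lemma contMDiff_inc : ContMDiff 𝓘(ℝ, E) 𝓘(ℝ, V) ∞ inc := by
  intro x
  rw [contMDiffAt_iff]
  refine ⟨continuous_inc.continuousAt, ?_⟩
  simp only [mfld_simps]
  apply ContDiff.contDiffWithinAt
  exact contDiff_psi (idx x)

/-- A continuous map into `M` is smooth as soon as it is smooth in the ambient space. -/
lemma contMDiffAt_of_inc {W : Type*} [NormedAddCommGroup W] [NormedSpace ℝ W] {g : W → M}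
    {s : Set W} {t : W} {n : ℕ∞ω} (hn : n ≤ (∞ : ℕ∞ω))
    (hg : ContDiffWithinAt ℝ n (fun y => inc (g y)) s t) :
    ContMDiffWithinAt 𝓘(ℝ, W) 𝓘(ℝ, E) n g s t := by
  rw [contMDiffWithinAt_iff_target]
  constructor
  · have h1 : ContinuousWithinAt (fun y => inc (g y)) s t := hg.continuousWithinAt
    exact (IsInducing.subtypeVal.continuousWithinAt_iff).2 h1
  · rw [contMDiffWithinAt_iff_contDiffWithinAt]
    have h2 : ContDiffWithinAt ℝ n (fun y => phi (idx (g t)) (inc (g y))) s t := by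
      apply ContDiffAt.comp_contDiffWithinAt (g := phi (idx (g t))) (f := fun y => inc (g y))
      · exact (contDiffAt_phi _ _ (ne_of_pos (idx_spec (g t)))).of_le hn
      · exact hg
    exact h2

lemma inc_inj : Function.Injective inc := fun x y h => Subtype.ext h

lemma D_inc_inj (x : M) : Function.Injective (Pool.Agent.Helper562.Imm.D (E := E) inc x) := by
  have hx : x ∈ (chartAt E x).source := mem_chart_source E x
  have h1 := (mdifferentiable_chart (I := 𝓘(ℝ, E)) x).mfderiv_injective hx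
  have hev : (chartAt E x : M → E) = fun y => phi (idx x) (inc y) := rfl
  have hd : DifferentiableAt ℝ (phi (idx x)) (inc x) :=
    (contDiffAt_phi _ _ (ne_of_pos (idx_spec x))).differentiableAt (by simp)
  have hi : MDifferentiableAt 𝓘(ℝ, E) 𝓘(ℝ, V) inc x :=
    (contMDiff_inc x).mdifferentiableAt (by simp)
  have h2 : mfderiv 𝓘(ℝ, E) 𝓘(ℝ, E) (chartAt E x : M → E) x =
      (mfderiv 𝓘(ℝ, V) 𝓘(ℝ, E) (phi (idx x)) (inc x)).comp
        (mfderiv 𝓘(ℝ, E) 𝓘(ℝ, V) inc x) := by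
    rw [hev]
    exact mfderiv_comp (I' := 𝓘(ℝ, V)) x hd.mdifferentiableAt hi
  intro v w hvw
  apply h1
  rw [h2]
  exact congrArg (mfderiv 𝓘(ℝ, V) 𝓘(ℝ, E) (phi (idx x)) (inc x)) hvw

/-- the induced Riemannian metric -/
def gM : ContMDiffRiemannianMetric 𝓘(ℝ, E) ∞ E (fun x : M => TangentSpace 𝓘(ℝ, E) x) :=
  Pool.Agent.Helper562.Imm.metric inc contMDiff_inc D_inc_inj

end Pool.Agent.H911R3.Seg
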