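import Pool.Agent.H911R3.Seg1
import Pool.Agent.Helper381.Defs

/-! The Riemannian distance on `M`, isometries induced by linear isometries, symmetries. -/

open Bundle Bornology Set MeasureTheory Manifold Filter Topology
open scoped ENNReal ContDiff Manifold NNReal

noncomputable section

namespace Pool.Agent.H911R3.Seg
set_option maxSynthPendingDepth 3
set_option linter.unusedSectionVars false
set_option linter.unusedVariables false

open Pool.Agent.Helper562

/-- the Riemannian bundle structure. -/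
@[reducible] def rb : RiemannianBundle (fun x : M => TangentSpace 𝓘(ℝ, E) x) :=
  ⟨gM.toRiemannianMetric⟩

attribute [local instance] rb

lemma enorm_eq (x : M) (v : TangentSpace 𝓘(ℝ, E) x) : ‖v‖ₑ = ‖Imm.D (E := E) inc x v‖ₑ := by
  have h : ‖v‖ = ‖Imm.D (E := E) inc x v‖ := by
    rw [norm_eq_sqrt_real_inner, norm_eq_sqrt_real_inner]
    rfl
  rw [← ofReal_norm, ← ofReal_norm, h]

instance cb' : IsContinuousRiemannianBundle E (fun x : M => TangentSpace 𝓘(ℝ, E) x) :=
  ⟨gM.inner, gM.contMDiff.continuous, fun _ _ _ => rfl⟩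

lemma smoothBundle : IsContMDiffRiemannianBundle 𝓘(ℝ, E) ∞ E (fun x : M => TangentSpace 𝓘(ℝ, E) x) :=
  ⟨gM.inner, gM.contMDiff, fun _ _ _ => rfl⟩

/-- the extended metric. -/
@[reducible] def emM : EMetricSpace M := EMetricSpace.ofRiemannianMetric 𝓘(ℝ, E) M

lemma lower (x y : M) : edist (inc x) (inc y) ≤ riemannianEDist 𝓘(ℝ, E) x y :=
  Imm.edist_le_riemannianEDist inc contMDiff_inc enorm_eq x y

/-- unit spheres -/
abbrev Sph := Metric.sphere (0 : A2) 1 × Metric.sphere (0 : A3) 1 × Metric.sphere (0 : A3) 1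

/-- the parametrization by the product of spheres -/
def par (s : Sph) : M := ⟨tp s.1.1 s.2.1.1 s.2.2.1, s.1.1, s.2.1.1, s.2.2.1, by simp,
  by simp, by simp, rfl⟩

lemma continuous_par : Continuous par := by
  apply Continuous.subtype_mk
  refine (PiLp.continuous_toLp 2 _).comp (continuous_pi fun t => ?_)
  have h1 : Continuous fun s : Sph => (s.1.1 : A2) t.1 :=
    (EuclideanSpace.proj (𝕜 := ℝ) t.1 : A2 →L[ℝ] ℝ).continuous.comp
      (continuous_subtype_val.comp continuous_fst)
  have h2 : Continuous fun s : Sph => (s.2.1.1 : A3) t.2.1 :=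
    (EuclideanSpace.proj (𝕜 := ℝ) t.2.1 : A3 →L[ℝ] ℝ).continuous.comp
      (continuous_subtype_val.comp (continuous_fst.comp continuous_snd))
  have h3 : Continuous fun s : Sph => (s.2.2.1 : A3) t.2.2 :=
    (EuclideanSpace.proj (𝕜 := ℝ) t.2.2 : A3 →L[ℝ] ℝ).continuous.comp
      (continuous_subtype_val.comp (continuous_snd.comp continuous_snd))
  exact (h1.mul h2).mul h3

lemma surjective_par : Function.Surjective par := by
  rintro ⟨T, x, y, z, hx, hy, hz, rfl⟩
  exact ⟨(⟨x, by simpa using hx⟩, ⟨y, by simpa using hy⟩, ⟨z, by simpa using hz⟩), rfl⟩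

instance connM : ConnectedSpace M := by
  have h2 : IsConnected (Metric.sphere (0 : A2) 1) := isConnected_sphere (by
    rw [← Module.finrank_eq_rank]; simp) 0 zero_le_one
  have h3 : IsConnected (Metric.sphere (0 : A3) 1) := isConnected_sphere (by
    rw [← Module.finrank_eq_rank]; simp) 0 zero_le_one
  have : ConnectedSpace (Metric.sphere (0 : A2) 1) := isConnected_iff_connectedSpace.mp h2
  have : ConnectedSpace (Metric.sphere (0 : A3) 1) := isConnected_iff_connectedSpace.mp h3
  exact surjective_par.connectedSpace continuous_par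

instance compM : CompactSpace M := by
  have h := isCompact_range continuous_par
  rw [surjective_par.range_eq] at h
  exact ⟨h⟩

lemma edist_ne_top (x y : M) : emM.edist x y ≠ ⊤ := by
  let _ : EMetricSpace M := emM
  have h1 : IsClopen (Metric.eball x ⊤) := ⟨Metric.isClosed_eball_top, Metric.isOpen_eball⟩
  have h3 : PreconnectedSpace M := inferInstance
  have h2 : Metric.eball x ⊤ = univ := by
    apply h1.eq_univ
    exact ⟨x, by simp⟩
  have h4 : y ∈ Metric.eball x ⊤ := by rw [h2]; trivial
  have h5 : edist y x < ⊤ := h4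
  rw [edist_comm] at h5
  exact h5.ne

/-- the Riemannian distance makes `M` a metric space. -/
@[reducible] def mM : MetricSpace M := @EMetricSpace.toMetricSpace M emM edist_ne_top

attribute [local instance] mM

lemma edist_mM (x y : M) : edist x y = riemannianEDist 𝓘(ℝ, E) x y := rfl

lemma riemM : IsRiemannianManifold 𝓘(ℝ, E) M := ⟨fun _ _ => rfl⟩

lemma dist_ge (x y : M) : ‖inc x - inc y‖ ≤ dist x y := by
  have h := lower x y
  rw [← edist_mM, edist_dist, edist_dist] at h
  rw [← dist_eq_norm]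
  exact (ENNReal.ofReal_le_ofReal_iff dist_nonneg).mp h

/-- the map induced by a linear isometry preserving the image -/
def ind (L : V →ₗᵢ[ℝ] V) (hL : ∀ T, P T → P (L T)) (x : M) : M := ⟨L x.1, hL x.1 x.2⟩

lemma ind_le (L : V →ₗᵢ[ℝ] V) (hL : ∀ T, P T → P (L T)) (x y : M) :
    riemannianEDist 𝓘(ℝ, E) (ind L hL x) (ind L hL y) ≤ riemannianEDist 𝓘(ℝ, E) x y := by
  apply le_of_forall_gt
  intro r hr
  obtain ⟨c, h0, h1, hc, hlt⟩ := exists_lt_of_riemannianEDist_lt hr
  refine lt_of_le_of_lt ?_ hlt
  have hcd : ContDiffOn ℝ 1 (inc ∘ c) (Icc 0 1) := by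
    rw [← contMDiffOn_iff_contDiffOn]
    exact (contMDiff_inc.of_le (by simp)).comp_contMDiffOn hc
  have hc2 : ContMDiffOn 𝓘(ℝ, ℝ) 𝓘(ℝ, E) 1 (fun t => ind L hL (c t)) (Icc 0 1) := by
    intro t ht
    apply contMDiffAt_of_inc (by exact_mod_cast le_top)
    exact L.toContinuousLinearMap.contDiff.contDiffAt.comp_contDiffWithinAt t (hcd t ht)
  have h2 := riemannianEDist_le_pathELength hc2 rfl rfl zero_le_one
  simp only [h0, h1] at h2
  refine h2.trans ?_
  rw [Imm.pathELength_eq inc contMDiff_inc enorm_eq _ hc2,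
    Imm.pathELength_eq inc contMDiff_inc enorm_eq _ hc]
  apply setLIntegral_mono' measurableSet_Icc
  intro t ht
  have hd : DifferentiableWithinAt ℝ (inc ∘ c) (Icc 0 1) t :=
    (hcd t ht).differentiableWithinAt (by norm_num)
  have e : derivWithin (inc ∘ fun t => ind L hL (c t)) (Icc 0 1) t =
      L (derivWithin (inc ∘ c) (Icc 0 1) t) := by
    have h3 := (L.toContinuousLinearMap.hasFDerivAt (x := (inc ∘ c) t)).comp_hasDerivWithinAt t
      hd.hasDerivWithinAt
    exact h3.derivWithin (uniqueDiffOn_Icc zero_lt_one t ht)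
  rw [e]
  apply le_of_eq
  rw [← ofReal_norm, ← ofReal_norm, L.norm_map]

/-- isometry of `M` induced by a linear isometry -/
def indI (L : V ≃ₗᵢ[ℝ] V) (hL : ∀ T, P T → P (L T)) (hL' : ∀ T, P T → P (L.symm T)) : M ≃ᵢ M where
  toFun := ind L.toLinearIsometry hL
  invFun := ind L.symm.toLinearIsometry hL'
  left_inv x := Subtype.ext (L.symm_apply_apply x.1)
  right_inv x := Subtype.ext (L.apply_symm_apply x.1)
  isometry_toFun := by
    intro x y
    rw [edist_mM, edist_mM]
    apply le_antisymm (ind_le _ _ x y)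
    have h := ind_le L.symm.toLinearIsometry hL' (ind L.toLinearIsometry hL x)
      (ind L.toLinearIsometry hL y)
    have e : ∀ z : M, ind L.symm.toLinearIsometry hL' (ind L.toLinearIsometry hL z) = z :=
      fun z => Subtype.ext (L.symm_apply_apply z.1)
    rwa [e, e] at h

lemma inc_indI (L : V ≃ₗᵢ[ℝ] V) (hL : ∀ T, P T → P (L T)) (hL' : ∀ T, P T → P (L.symm T)) (x : M) :
    inc (indI L hL hL' x) = L (inc x) := rfl

/-! ### slot reflections -/

lemma tp_add1 (x x' : A2) (y z : A3) : tp (x + x') y z = tp x y z + tp x' y z := by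
  ext t; simp; ring
lemma tp_add2 (x : A2) (y y' z : A3) : tp x (y + y') z = tp x y z + tp x y' z := by
  ext t; simp; ring
lemma tp_add3 (x : A2) (y z z' : A3) : tp x y (z + z') = tp x y z + tp x y z' := by
  ext t; simp; ring
lemma tp_smul1 (a : ℝ) (x : A2) (y z : A3) : tp (a • x) y z = a • tp x y z := by
  ext t; simp; ring
lemma tp_smul2 (a : ℝ) (x : A2) (y z : A3) : tp x (a • y) z = a • tp x y z := by
  ext t; simp; ring
lemma tp_smul3 (a : ℝ) (x : A2) (y z : A3) : tp x y (a • z) = a • tp x y z := by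
  ext t; simp; ring
lemma tp_sub1 (x x' : A2) (y z : A3) : tp (x - x') y z = tp x y z - tp x' y z := by
  ext t; simp; ring
lemma tp_sub2 (x : A2) (y y' z : A3) : tp x (y - y') z = tp x y z - tp x y' z := by
  ext t; simp; ring
lemma tp_sub3 (x : A2) (y z z' : A3) : tp x y (z - z') = tp x y z - tp x y z' := by
  ext t; simp; ring

/-- `R_u v = 2 <u,v> u - v` -/
def rf {H : Type*} [NormedAddCommGroup H] [InnerProductSpace ℝ H] (u v : H) : H :=
  (2 * inner ℝ u v) • u - v

lemma rf_rf {H : Type*} [NormedAddCommGroup H] [InnerProductSpace ℝ H] {u : H} (hu : ‖u‖ = 1)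
    (v : H) : rf u (rf u v) = v := by
  have h : inner ℝ u u = (1 : ℝ) := by rw [real_inner_self_eq_norm_sq, hu]; norm_num
  unfold rf
  rw [inner_sub_right, inner_smul_right, h]
  module

lemma norm_rf {H : Type*} [NormedAddCommGroup H] [InnerProductSpace ℝ H] {u : H} (hu : ‖u‖ = 1)
    (v : H) : ‖rf u v‖ = ‖v‖ := by
  have h : inner ℝ u u = (1 : ℝ) := by rw [real_inner_self_eq_norm_sq, hu]; norm_num
  have h2 : ‖rf u v‖ ^ 2 = ‖v‖ ^ 2 := by
    rw [← real_inner_self_eq_norm_sq, ← real_inner_self_eq_norm_sq]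
    unfold rf
    simp only [inner_sub_left, inner_sub_right, inner_smul_left, inner_smul_right, h,
      real_inner_comm u v]
    simp
    ring
  exact (pow_left_inj₀ (norm_nonneg _) (norm_nonneg _) two_ne_zero).mp h2

/-- reflection of a tensor in a subspace, computed from an orthogonal decomposition -/
lemma refl_eq (K : Submodule ℝ V) {T u w : V} (h : T = u + w) (hu : u ∈ K)
    (hw : ∀ v ∈ K, inner ℝ v w = 0) : K.reflection T = (2 : ℝ) • u - T := by
  have h1 : K.starProjection T = u := by
    rw [h, map_add, Submodule.starProjection_eq_self_iff.mpr hu,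
      (Submodule.starProjection_apply_eq_zero_iff K).mpr ((Submodule.mem_orthogonal K w).mpr hw),
      add_zero]
  rw [Submodule.reflection_apply, h1, two_smul, two_smul]

def K1 (u : A2) : Submodule ℝ V := Submodule.span ℝ {T | ∃ y z, T = tp u y z}
def K2 (u : A3) : Submodule ℝ V := Submodule.span ℝ {T | ∃ x z, T = tp x u z}
def K3 (u : A3) : Submodule ℝ V := Submodule.span ℝ {T | ∃ x y, T = tp x y u}

lemma refl1 {u : A2} (hu : ‖u‖ = 1) (x : A2) (y z : A3) :
    (K1 u).reflection (tp x y z) = tp (rf u x) y z := by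
  have hi : inner ℝ u u = (1 : ℝ) := by rw [real_inner_self_eq_norm_sq, hu]; norm_num
  have h := refl_eq (K1 u) (T := tp x y z) (u := tp ((inner ℝ u x : ℝ) • u) y z)
    (w := tp (x - (inner ℝ u x : ℝ) • u) y z) (by rw [← tp_add1]; congr 1; module)
    (by
      rw [tp_smul1]
      exact Submodule.smul_mem _ _ (Submodule.subset_span ⟨y, z, rfl⟩))
    (by
      intro v hv
      refine Submodule.span_induction ?_ ?_ ?_ ?_ hv
      · rintro _ ⟨y', z', rfl⟩
        rw [inner_tp, inner_sub_right, inner_smul_right, hi]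
        ring
      · simp
      · intro a b _ _ ha hb
        rw [inner_add_left, ha, hb, add_zero]
      · intro a b _ hb
        rw [inner_smul_left, hb, mul_zero])
  rw [h]
  unfold rf
  rw [tp_sub1, tp_smul1, tp_smul1, smul_smul]

lemma refl2 {u : A3} (hu : ‖u‖ = 1) (x : A2) (y z : A3) :
    (K2 u).reflection (tp x y z) = tp x (rf u y) z := by
  have hi : inner ℝ u u = (1 : ℝ) := by rw [real_inner_self_eq_norm_sq, hu]; norm_num
  have h := refl_eq (K2 u) (T := tp x y z) (u := tp x ((inner ℝ u y : ℝ) • u) z)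
    (w := tp x (y - (inner ℝ u y : ℝ) • u) z) (by rw [← tp_add2]; congr 1; module)
    (by
      rw [tp_smul2]
      exact Submodule.smul_mem _ _ (Submodule.subset_span ⟨x, z, rfl⟩))
    (by
      intro v hv
      refine Submodule.span_induction ?_ ?_ ?_ ?_ hv
      · rintro _ ⟨y', z', rfl⟩
        rw [inner_tp, inner_sub_right, inner_smul_right, hi]
        ring
      · simp
      · intro a b _ _ ha hb
        rw [inner_add_left, ha, hb, add_zero]
      · intro a b _ hb
        rw [inner_smul_left, hb, mul_zero])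
  rw [h]
  unfold rf
  rw [tp_sub2, tp_smul2, tp_smul2, smul_smul]

lemma refl3 {u : A3} (hu : ‖u‖ = 1) (x : A2) (y z : A3) :
    (K3 u).reflection (tp x y z) = tp x y (rf u z) := by
  have hi : inner ℝ u u = (1 : ℝ) := by rw [real_inner_self_eq_norm_sq, hu]; norm_num
  have h := refl_eq (K3 u) (T := tp x y z) (u := tp x y ((inner ℝ u z : ℝ) • u))
    (w := tp x y (z - (inner ℝ u z : ℝ) • u)) (by rw [← tp_add3]; congr 1; module)
    (by
      rw [tp_smul3]
      exact Submodule.smul_mem _ _ (Submodule.subset_span ⟨x, y, rfl⟩))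
    (by
      intro v hv
      refine Submodule.span_induction ?_ ?_ ?_ ?_ hv
      · rintro _ ⟨y', z', rfl⟩
        rw [inner_tp, inner_sub_right, inner_smul_right, hi]
        ring
      · simp
      · intro a b _ _ ha hb
        rw [inner_add_left, ha, hb, add_zero]
      · intro a b _ hb
        rw [inner_smul_left, hb, mul_zero])
  rw [h]
  unfold rf
  rw [tp_sub3, tp_smul3, tp_smul3, smul_smul]

end Pool.Agent.H911R3.Seg
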