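import Pool.Agent.H911R3.Seg2

/-! Symmetries of `M` and the fixed points of the symmetries. -/

open Bundle Bornology Set MeasureTheory Manifold Filter Topology
open scoped ENNReal ContDiff Manifold NNReal

noncomputable section

namespace Pool.Agent.H911R3.Seg
set_option maxSynthPendingDepth 3
set_option linter.unusedSectionVars false
set_option linter.unusedVariables false

open Pool.Agent.Helper562 Pool.Agent.Helper381

attribute [local instance] rb mM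

section
variable {H : Type*} [NormedAddCommGroup H] [InnerProductSpace ℝ H]

lemma inner_self_one {u : H} (hu : ‖u‖ = 1) : inner ℝ u u = (1 : ℝ) := by
  rw [real_inner_self_eq_norm_sq, hu]; norm_num

lemma inner_sq_le {u v : H} (hu : ‖u‖ = 1) (hv : ‖v‖ = 1) : (inner ℝ u v : ℝ) ^ 2 ≤ 1 := by
  have := abs_real_inner_le_norm u v
  rw [hu, hv, mul_one] at this
  rw [← sq_abs]
  exact pow_le_one₀ (abs_nonneg _) this

/-- equality in Cauchy-Schwarz -/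
lemma eq_smul_of_sq {u v : H} (hu : ‖u‖ = 1) (hv : ‖v‖ = 1) (h : (inner ℝ u v : ℝ) ^ 2 = 1) :
    v = (inner ℝ u v : ℝ) • u := by
  have h1 : ‖v - (inner ℝ u v : ℝ) • u‖ ^ 2 = 0 := by
    rw [← real_inner_self_eq_norm_sq]
    simp only [inner_sub_left, inner_sub_right, inner_smul_left, inner_smul_right,
      inner_self_one hu, inner_self_one hv, real_inner_comm u v]
    simp
    nlinarith
  have h2 : v - (inner ℝ u v : ℝ) • u = 0 := by
    rwa [sq_eq_zero_iff, norm_eq_zero] at h1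
  exact sub_eq_zero.mp h2

lemma par_trans {u v w : H} (hu : ‖u‖ = 1) (hv : ‖v‖ = 1) (h : (inner ℝ u v : ℝ) ^ 2 = 1) :
    (inner ℝ u w : ℝ) ^ 2 = (inner ℝ v w : ℝ) ^ 2 := by
  have h1 := eq_smul_of_sq hu hv h
  have h2 : (inner ℝ v w : ℝ) = inner ℝ u v * inner ℝ u w := by
    conv_lhs => rw [h1]
    rw [inner_smul_left]
    rfl
  rw [h2, mul_pow, h, one_mul]

/-- a unit vector `v` with `R_u v = e v`, `e = ±1` -/
lemma rf_eigen {u v : H} (hu : ‖u‖ = 1) (hv : ‖v‖ = 1) {e : ℝ} (he : e = 1 ∨ e = -1)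
    (h : rf u v = e • v) : (e = 1 ∧ (inner ℝ u v : ℝ) ^ 2 = 1) ∨ (e = -1 ∧ (inner ℝ u v : ℝ) = 0) := by
  rcases he with rfl | rfl
  · left
    refine ⟨rfl, ?_⟩
    have h1 : (inner ℝ u v : ℝ) • u = v := by
      unfold rf at h
      have h2 : (2 : ℝ) • ((inner ℝ u v : ℝ) • u) = (2 : ℝ) • v := by
        have h3 : (2 * inner ℝ u v : ℝ) • u = (1 : ℝ) • v + v := by
          rw [← h]; abel
        rw [smul_smul, h3]
        module
      exact smul_right_injective H (two_ne_zero (α := ℝ)) h2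
    have h2 := congrArg (fun z => (inner ℝ v z : ℝ)) h1
    simp only [inner_smul_right, inner_self_one hv, real_inner_comm u v] at h2
    rw [sq]
    exact h2
  · right
    refine ⟨rfl, ?_⟩
    unfold rf at h
    have h3 : (2 * inner ℝ u v : ℝ) • u = 0 := by
      have : (2 * inner ℝ u v : ℝ) • u = (-1 : ℝ) • v + v := by
        rw [← h]; abel
      rw [this]; module
    have hu0 : u ≠ 0 := by
      intro h0; rw [h0, norm_zero] at hu; exact zero_ne_one hu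
    rcases smul_eq_zero.mp h3 with h4 | h4
    · linarith
    · exact absurd h4 hu0

end

lemma sq_one (a : ℝ) (h : a ^ 2 = 1) : a = 1 ∨ a = -1 := by
  have : (a - 1) * (a + 1) = 0 := by ring_nf; linarith
  rcases mul_eq_zero.mp this with h | h
  · left; linarith
  · right; linarith

/-- equality of unit decomposable tensors -/
lemma tp_eq {x x' : A2} {y y' z z' : A3} (hx : ‖x‖ = 1) (hy : ‖y‖ = 1) (hz : ‖z‖ = 1)
    (hx' : ‖x'‖ = 1) (hy' : ‖y'‖ = 1) (hz' : ‖z'‖ = 1) (h : tp x y z = tp x' y' z') :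
    ∃ e₁ e₂ e₃ : ℝ, (e₁ = 1 ∨ e₁ = -1) ∧ (e₂ = 1 ∨ e₂ = -1) ∧ (e₃ = 1 ∨ e₃ = -1) ∧
      e₁ * e₂ * e₃ = 1 ∧ x' = e₁ • x ∧ y' = e₂ • y ∧ z' = e₃ • z := by
  have h1 : (inner ℝ x x' : ℝ) * inner ℝ y y' * inner ℝ z z' = 1 := by
    rw [← inner_tp, ← h, inner_tp, inner_self_one hx, inner_self_one hy, inner_self_one hz]
    norm_num
  have a1 := inner_sq_le hx hx'
  have a2 := inner_sq_le hy hy'
  have a3 := inner_sq_le hz hz'
  have h2 : (inner ℝ x x' : ℝ) ^ 2 * (inner ℝ y y') ^ 2 * (inner ℝ z z') ^ 2 = 1 := by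
    rw [← mul_pow, ← mul_pow, h1]; norm_num
  set p := (inner ℝ x x' : ℝ) with hp
  set q := (inner ℝ y y' : ℝ) with hq
  set r := (inner ℝ z z' : ℝ) with hr
  have b1 : p ^ 2 = 1 := by
    apply le_antisymm a1
    rw [← h2]
    have : p ^ 2 * q ^ 2 * r ^ 2 ≤ p ^ 2 * 1 * 1 := by gcongr
    linarith
  have b2 : q ^ 2 = 1 := by
    apply le_antisymm a2
    rw [← h2]
    have : p ^ 2 * q ^ 2 * r ^ 2 ≤ 1 * q ^ 2 * 1 := by gcongr
    linarith
  have b3 : r ^ 2 = 1 := by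
    apply le_antisymm a3
    rw [← h2]
    have : p ^ 2 * q ^ 2 * r ^ 2 ≤ 1 * 1 * r ^ 2 := by gcongr
    linarith
  exact ⟨p, q, r, sq_one p b1, sq_one q b2,
    sq_one r b3, h1, eq_smul_of_sq hx hx' b1, eq_smul_of_sq hy hy' b2,
    eq_smul_of_sq hz hz' b3⟩

/-- the linear isometry `R_a ⊗ R_b ⊗ R_c` -/
def Ls (a : A2) (b c : A3) : V ≃ₗᵢ[ℝ] V :=
  ((K1 a).reflection.trans (K2 b).reflection).trans (K3 c).reflection

lemma Ls_tp {a : A2} {b c : A3} (ha : ‖a‖ = 1) (hb : ‖b‖ = 1) (hc : ‖c‖ = 1) (x : A2) (y z : A3) :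
    Ls a b c (tp x y z) = tp (rf a x) (rf b y) (rf c z) := by
  unfold Ls
  rw [LinearIsometryEquiv.trans_apply, LinearIsometryEquiv.trans_apply, refl1 ha, refl2 hb,
    refl3 hc]

lemma Ls_P {a : A2} {b c : A3} (ha : ‖a‖ = 1) (hb : ‖b‖ = 1) (hc : ‖c‖ = 1) (T : V) (hT : P T) :
    P (Ls a b c T) := by
  obtain ⟨x, y, z, hx, hy, hz, rfl⟩ := hT
  exact ⟨_, _, _, by rw [norm_rf ha, hx], by rw [norm_rf hb, hy], by rw [norm_rf hc, hz],
    Ls_tp ha hb hc x y z⟩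

lemma Ls_Ls {a : A2} {b c : A3} (ha : ‖a‖ = 1) (hb : ‖b‖ = 1) (hc : ‖c‖ = 1) (T : V) (hT : P T) :
    Ls a b c (Ls a b c T) = T := by
  obtain ⟨x, y, z, hx, hy, hz, rfl⟩ := hT
  rw [Ls_tp ha hb hc, Ls_tp ha hb hc, rf_rf ha, rf_rf hb, rf_rf hc]

lemma Ls_P' {a : A2} {b c : A3} (ha : ‖a‖ = 1) (hb : ‖b‖ = 1) (hc : ‖c‖ = 1) (T : V) (hT : P T) :
    P ((Ls a b c).symm T) := by
  have : (Ls a b c).symm T = Ls a b c T := by
    rw [LinearIsometryEquiv.symm_apply_eq, Ls_Ls ha hb hc T hT]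
  rw [this]
  exact Ls_P ha hb hc T hT

/-- the isometry of `M` induced by `R_a ⊗ R_b ⊗ R_c` -/
def Is {a : A2} {b c : A3} (ha : ‖a‖ = 1) (hb : ‖b‖ = 1) (hc : ‖c‖ = 1) : M ≃ᵢ M :=
  indI (Ls a b c) (Ls_P ha hb hc) (Ls_P' ha hb hc)

/-- relation between the factors of a fixed point of the symmetry at `a ⊗ b ⊗ c` -/
lemma fixed_rel {a x : A2} {b c y z : A3} (ha : ‖a‖ = 1) (hb : ‖b‖ = 1) (hc : ‖c‖ = 1)
    (hx : ‖x‖ = 1) (hy : ‖y‖ = 1) (hz : ‖z‖ = 1) (h : Ls a b c (tp x y z) = tp x y z) :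
    ((inner ℝ a x : ℝ) ^ 2 = 1 ∧ (inner ℝ b y : ℝ) ^ 2 = 1 ∧ (inner ℝ c z : ℝ) ^ 2 = 1) ∨
    ((inner ℝ a x : ℝ) ^ 2 = 1 ∧ (inner ℝ b y : ℝ) = 0 ∧ (inner ℝ c z : ℝ) = 0) ∨
    ((inner ℝ a x : ℝ) = 0 ∧ (inner ℝ b y : ℝ) ^ 2 = 1 ∧ (inner ℝ c z : ℝ) = 0) ∨
    ((inner ℝ a x : ℝ) = 0 ∧ (inner ℝ b y : ℝ) = 0 ∧ (inner ℝ c z : ℝ) ^ 2 = 1) := by
  rw [Ls_tp ha hb hc] at h
  obtain ⟨e₁, e₂, e₃, h1, h2, h3, he, ex, ey, ez⟩ := tp_eq hx hy hz (by rw [norm_rf ha, hx])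
    (by rw [norm_rf hb, hy]) (by rw [norm_rf hc, hz]) h.symm
  rcases rf_eigen ha hx h1 ex with ⟨r1, s1⟩ | ⟨r1, s1⟩ <;>
  rcases rf_eigen hb hy h2 ey with ⟨r2, s2⟩ | ⟨r2, s2⟩ <;>
  rcases rf_eigen hc hz h3 ez with ⟨r3, s3⟩ | ⟨r3, s3⟩ <;>
  subst r1 <;> subst r2 <;> subst r3
  · exact Or.inl ⟨s1, s2, s3⟩
  · norm_num at he
  · norm_num at he
  · exact Or.inr (Or.inl ⟨s1, s2, s3⟩)
  · norm_num at he
  · exact Or.inr (Or.inr (Or.inl ⟨s1, s2, s3⟩))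
  · exact Or.inr (Or.inr (Or.inr ⟨s1, s2, s3⟩))
  · norm_num at he

lemma isSymm {a : A2} {b c : A3} (ha : ‖a‖ = 1) (hb : ‖b‖ = 1) (hc : ‖c‖ = 1) (p : M)
    (hp : p.1 = tp a b c) : IsSymmetryAt p (Is ha hb hc) := by
  refine ⟨fun y => Subtype.ext (Ls_Ls ha hb hc y.1 y.2), ?_, 1, one_pos, ?_⟩
  · apply Subtype.ext
    show Ls a b c p.1 = p.1
    rw [hp, Ls_tp ha hb hc]
    have : ∀ {H : Type} [NormedAddCommGroup H] [InnerProductSpace ℝ H] {u : H}, ‖u‖ = 1 →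
        rf u u = u := by
      intro H _ _ u hu
      unfold rf
      rw [inner_self_one hu]
      module
    rw [this ha, this hb, this hc]
  · intro q hq hfix
    obtain ⟨x, y, z, hx, hy, hz, hT⟩ := q.2
    have hd := dist_ge q p
    have h1 : Ls a b c (tp x y z) = tp x y z := by
      have := congrArg Subtype.val hfix
      rw [← hT]; exact this
    have hn : ‖inc q - inc p‖ ^ 2 = 2 - 2 * ((inner ℝ a x : ℝ) * inner ℝ b y * inner ℝ c z) := by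
      have e1 : inc q = tp x y z := hT
      have e2 : inc p = tp a b c := hp
      rw [e1, e2, norm_sub_sq_real, norm_tp, norm_tp, inner_tp, hx, hy, hz, ha, hb, hc,
        real_inner_comm x a, real_inner_comm y b, real_inner_comm z c]
      ring
    have hlt : ‖inc q - inc p‖ ^ 2 < 1 := by
      have : ‖inc q - inc p‖ < 1 := hd.trans_lt hq
      exact pow_lt_one₀ (norm_nonneg _) this two_ne_zero
    rw [hn] at hlt
    have hprod : (1 / 2 : ℝ) < (inner ℝ a x : ℝ) * inner ℝ b y * inner ℝ c z := by linarith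
    have hall : (inner ℝ a x : ℝ) * inner ℝ b y * inner ℝ c z = 1 := by
      rcases fixed_rel ha hb hc hx hy hz h1 with ⟨s1, s2, s3⟩ | ⟨s1, s2, s3⟩ | ⟨s1, s2, s3⟩ |
        ⟨s1, s2, s3⟩
      · have : ((inner ℝ a x : ℝ) * inner ℝ b y * inner ℝ c z) ^ 2 = 1 := by
          rw [mul_pow, mul_pow, s1, s2, s3]; norm_num
        nlinarith
      · rw [s2] at hprod; norm_num at hprod
      · rw [s1] at hprod; norm_num at hprod
      · rw [s1] at hprod; norm_num at hprod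
    have h0 : ‖inc q - inc p‖ ^ 2 = 0 := by rw [hn, hall]; norm_num
    have h00 : inc q - inc p = 0 := by rwa [sq_eq_zero_iff, norm_eq_zero] at h0
    exact inc_inj (sub_eq_zero.mp h00)

theorem isSymmetric_M : IsSymmetric M := by
  intro p
  obtain ⟨a, b, c, ha, hb, hc, hT⟩ := p.2
  exact ⟨_, isSymm ha hb hc p hT⟩

end Pool.Agent.H911R3.Seg
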