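import Pool.Agent.H911R3.Seg3
import Pool.Agent.H911R3.SmithFix
import Pool.Agent.Helper381.Riem3

/-! The two-number of `M` is at most 8. -/

open Bundle Bornology Set MeasureTheory Manifold Filter Topology
open scoped ENNReal ContDiff Manifold NNReal

noncomputable section

namespace Pool.Agent.H911R3.Seg
set_option maxSynthPendingDepth 3
set_option linter.unusedSectionVars false
set_option linter.unusedVariables false

open Pool.Agent.Helper562 Pool.Agent.Helper381

attribute [local instance] rb mM smoothBundle riemM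

lemma geoM : ∃ R, Geo M E R := riemannian_geo (E := E) (M := M)

lemma no3 (x : Fin 3 → A2) (h1 : ∀ i, ‖x i‖ = 1) (h0 : ∀ i j, i ≠ j → (inner ℝ (x i) (x j) : ℝ) = 0) :
    False := by
  have h : Orthonormal ℝ x := ⟨h1, fun i j hij => h0 i j hij⟩
  have := h.linearIndependent.fintype_card_le_finrank
  simp at this

lemma no4 (x : Fin 4 → A3) (h1 : ∀ i, ‖x i‖ = 1) (h0 : ∀ i j, i ≠ j → (inner ℝ (x i) (x j) : ℝ) = 0) :
    False := by
  have h : Orthonormal ℝ x := ⟨h1, fun i j hij => h0 i j hij⟩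
  have := h.linearIndependent.fintype_card_le_finrank
  simp at this

lemma pigeon5 : ∀ b : Fin 5 → Bool, ∃ i j k l : Fin 5, i ≠ j ∧ i ≠ k ∧ j ≠ k ∧ l ≠ i ∧ l ≠ j ∧ l ≠ k ∧
    b i = b j ∧ b i = b k := by
  intro b
  rcases h0 : b 0 <;> rcases h1 : b 1 <;> rcases h2 : b 2 <;> rcases h3 : b 3 <;>
    rcases h4 : b 4 <;>
  first
  | exact ⟨0, 1, 2, 3, by decide, by decide, by decide, by decide, by decide, by decide, h0.trans h1.symm, h0.trans h2.symm⟩
  | exact ⟨0, 1, 3, 2, by decide, by decide, by decide, by decide, by decide, by decide, h0.trans h1.symm, h0.trans h3.symm⟩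
  | exact ⟨0, 1, 4, 2, by decide, by decide, by decide, by decide, by decide, by decide, h0.trans h1.symm, h0.trans h4.symm⟩
  | exact ⟨0, 2, 3, 1, by decide, by decide, by decide, by decide, by decide, by decide, h0.trans h2.symm, h0.trans h3.symm⟩
  | exact ⟨0, 2, 4, 1, by decide, by decide, by decide, by decide, by decide, by decide, h0.trans h2.symm, h0.trans h4.symm⟩
  | exact ⟨0, 3, 4, 1, by decide, by decide, by decide, by decide, by decide, by decide, h0.trans h3.symm, h0.trans h4.symm⟩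
  | exact ⟨1, 2, 3, 0, by decide, by decide, by decide, by decide, by decide, by decide, h1.trans h2.symm, h1.trans h3.symm⟩
  | exact ⟨1, 2, 4, 0, by decide, by decide, by decide, by decide, by decide, by decide, h1.trans h2.symm, h1.trans h4.symm⟩
  | exact ⟨1, 3, 4, 0, by decide, by decide, by decide, by decide, by decide, by decide, h1.trans h3.symm, h1.trans h4.symm⟩
  | exact ⟨2, 3, 4, 0, by decide, by decide, by decide, by decide, by decide, by decide, h2.trans h3.symm, h2.trans h4.symm⟩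

/-- Five points whose factors are pairwise parallel in exactly one slot and orthogonal in the other
two cannot exist. -/
lemma no5 (X : Fin 5 → A2) (Y Z : Fin 5 → A3) (hX : ∀ i, ‖X i‖ = 1) (hY : ∀ i, ‖Y i‖ = 1)
    (hZ : ∀ i, ‖Z i‖ = 1)
    (h : ∀ i j, i ≠ j →
      ((inner ℝ (X i) (X j) : ℝ) ^ 2 = 1 ∧ (inner ℝ (Y i) (Y j) : ℝ) = 0 ∧ (inner ℝ (Z i) (Z j) : ℝ) = 0) ∨
      ((inner ℝ (X i) (X j) : ℝ) = 0 ∧ (inner ℝ (Y i) (Y j) : ℝ) ^ 2 = 1 ∧ (inner ℝ (Z i) (Z j) : ℝ) = 0) ∨
      ((inner ℝ (X i) (X j) : ℝ) = 0 ∧ (inner ℝ (Y i) (Y j) : ℝ) = 0 ∧ (inner ℝ (Z i) (Z j) : ℝ) ^ 2 = 1)) :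
    False := by
  have claim : ∀ i j k l : Fin 5, i ≠ j → i ≠ k → j ≠ k → l ≠ i → l ≠ j → l ≠ k →
      (inner ℝ (X i) (X j) : ℝ) ^ 2 = 1 → (inner ℝ (X i) (X k) : ℝ) ^ 2 = 1 → False := by
    intro i j k l hij hik hjk hli hlj hlk pij pik
    have pjk : (inner ℝ (X j) (X k) : ℝ) ^ 2 = 1 := by
      rw [← par_trans (hX i) (hX j) pij]; exact pik
    have Q : ∀ a b : Fin 5, a ≠ b → (inner ℝ (X a) (X b) : ℝ) ^ 2 = 1 →
        (inner ℝ (Y a) (Y b) : ℝ) = 0 ∧ (inner ℝ (Z a) (Z b) : ℝ) = 0 := by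
      intro a b hab hp
      rcases h a b hab with h1 | h1 | h1
      · exact h1.2
      · rw [h1.1] at hp; norm_num at hp
      · rw [h1.1] at hp; norm_num at hp
    have Qij := Q i j hij pij
    have Qik := Q i k hik pik
    have Qjk := Q j k hjk pjk
    by_cases hl : (inner ℝ (X i) (X l) : ℝ) ^ 2 = 1
    · have Qil := Q i l hli.symm hl
      have pjl : (inner ℝ (X j) (X l) : ℝ) ^ 2 = 1 := by
        rw [← par_trans (hX i) (hX j) pij]; exact hl
      have pkl : (inner ℝ (X k) (X l) : ℝ) ^ 2 = 1 := by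
        rw [← par_trans (hX i) (hX k) pik]; exact hl
      have Qjl := Q j l hlj.symm pjl
      have Qkl := Q k l hlk.symm pkl
      refine no4 ![Y i, Y j, Y k, Y l] ?_ ?_
      · intro a; fin_cases a <;> simp [hY]
      · intro a b hab
        fin_cases a <;> fin_cases b <;>
          first
          | exact absurd rfl hab
          | exact Qij.1
          | exact Qik.1
          | exact Qjk.1
          | exact Qil.1
          | exact Qjl.1
          | exact Qkl.1
          | (rw [real_inner_comm]; exact Qij.1)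
          | (rw [real_inner_comm]; exact Qik.1)
          | (rw [real_inner_comm]; exact Qjk.1)
          | (rw [real_inner_comm]; exact Qil.1)
          | (rw [real_inner_comm]; exact Qjl.1)
          | (rw [real_inner_comm]; exact Qkl.1)
    · have hl2 : ¬ (inner ℝ (X j) (X l) : ℝ) ^ 2 = 1 := by
        rw [← par_trans (hX i) (hX j) pij]; exact hl
      have hl3 : ¬ (inner ℝ (X k) (X l) : ℝ) ^ 2 = 1 := by
        rw [← par_trans (hX i) (hX k) pik]; exact hl
      have W : ∀ a : Fin 5, a ≠ l → ¬ (inner ℝ (X a) (X l) : ℝ) ^ 2 = 1 →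
          (inner ℝ (Y l) (Y a) : ℝ) ^ 2 = 1 ∨ (inner ℝ (Z l) (Z a) : ℝ) ^ 2 = 1 := by
        intro a hal hn
        rw [real_inner_comm, real_inner_comm (Z a)]
        rcases h a l hal with h1 | h1 | h1
        · exact absurd h1.1 hn
        · exact Or.inl h1.2.1
        · exact Or.inr h1.2.2
      have cY : ∀ a b : Fin 5, (inner ℝ (Y a) (Y b) : ℝ) = 0 → (inner ℝ (Y l) (Y a) : ℝ) ^ 2 = 1 →
          (inner ℝ (Y l) (Y b) : ℝ) ^ 2 = 1 → False := by
        intro a b hab ha hb
        have := par_trans (w := Y b) (hY l) (hY a) ha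
        rw [hab, hb] at this
        norm_num at this
      have cZ : ∀ a b : Fin 5, (inner ℝ (Z a) (Z b) : ℝ) = 0 → (inner ℝ (Z l) (Z a) : ℝ) ^ 2 = 1 →
          (inner ℝ (Z l) (Z b) : ℝ) ^ 2 = 1 → False := by
        intro a b hab ha hb
        have := par_trans (w := Z b) (hZ l) (hZ a) ha
        rw [hab, hb] at this
        norm_num at this
      rcases W i hli.symm hl with w1 | w1 <;> rcases W j hlj.symm hl2 with w2 | w2 <;>
        rcases W k hlk.symm hl3 with w3 | w3
      · exact cY i j Qij.1 w1 w2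
      · exact cY i j Qij.1 w1 w2
      · exact cY i k Qik.1 w1 w3
      · exact cZ j k Qjk.2 w2 w3
      · exact cY j k Qjk.1 w2 w3
      · exact cZ i k Qik.2 w1 w3
      · exact cZ i j Qij.2 w1 w2
      · exact cZ i j Qij.2 w1 w2
  classical
  have hpar : ∀ i j : Fin 5, (decide ((inner ℝ (X 0) (X i) : ℝ) ^ 2 = 1)) =
      (decide ((inner ℝ (X 0) (X j) : ℝ) ^ 2 = 1)) → (inner ℝ (X i) (X j) : ℝ) ^ 2 = 1 := by
    intro i j hij
    rw [decide_eq_decide] at hij
    by_cases hi : (inner ℝ (X 0) (X i) : ℝ) ^ 2 = 1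
    · rw [← par_trans (hX 0) (hX i) hi]; exact hij.mp hi
    · have hj := fun hh => hi (hij.mpr hh)
      have i0 : i ≠ 0 := by
        rintro rfl
        apply hi
        rw [inner_self_one (hX 0)]; norm_num
      have j0 : j ≠ 0 := by
        rintro rfl
        apply hj
        rw [inner_self_one (hX 0)]; norm_num
      by_cases e : i = j
      · rw [e, inner_self_one (hX j)]; norm_num
      have o1 : (inner ℝ (X 0) (X i) : ℝ) = 0 := by
        rcases h 0 i i0.symm with h1 | h1 | h1
        · exact absurd h1.1 hi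
        · exact h1.1
        · exact h1.1
      have o2 : (inner ℝ (X 0) (X j) : ℝ) = 0 := by
        rcases h 0 j j0.symm with h1 | h1 | h1
        · exact absurd h1.1 hj
        · exact h1.1
        · exact h1.1
      by_contra hc
      have o3 : (inner ℝ (X i) (X j) : ℝ) = 0 := by
        rcases h i j e with h1 | h1 | h1
        · exact absurd h1.1 hc
        · exact h1.1
        · exact h1.1
      refine no3 ![X 0, X i, X j] ?_ ?_
      · intro a; fin_cases a <;> simp [hX]
      · intro a b hab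
        fin_cases a <;> fin_cases b <;>
          first
          | exact absurd rfl hab
          | exact o1
          | exact o2
          | exact o3
          | (rw [real_inner_comm]; exact o1)
          | (rw [real_inner_comm]; exact o2)
          | (rw [real_inner_comm]; exact o3)
  obtain ⟨i, j, k, l, hij, hik, hjk, hli, hlj, hlk, b1, b2⟩ :=
    pigeon5 (fun i => decide ((inner ℝ (X 0) (X i) : ℝ) ^ 2 = 1))
  exact claim i j k l hij hik hjk hli hlj hlk (hpar i j b1) (hpar i k b2)

/-- relation for two points in an antipodal set -/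
lemma antip_rel {p q : M} {s : M ≃ᵢ M} (hs : IsSymmetryAt p s) (hq : s q = q)
    {a x : A2} {b c y z : A3} (ha : ‖a‖ = 1) (hb : ‖b‖ = 1) (hc : ‖c‖ = 1)
    (hx : ‖x‖ = 1) (hy : ‖y‖ = 1) (hz : ‖z‖ = 1) (hp : p.1 = tp a b c) (hq' : q.1 = tp x y z)
    (h1 : p.1 ≠ q.1) (h2 : p.1 ≠ - q.1) :
    ((inner ℝ a x : ℝ) ^ 2 = 1 ∧ (inner ℝ b y : ℝ) = 0 ∧ (inner ℝ c z : ℝ) = 0) ∨
    ((inner ℝ a x : ℝ) = 0 ∧ (inner ℝ b y : ℝ) ^ 2 = 1 ∧ (inner ℝ c z : ℝ) = 0) ∨
    ((inner ℝ a x : ℝ) = 0 ∧ (inner ℝ b y : ℝ) = 0 ∧ (inner ℝ c z : ℝ) ^ 2 = 1) := by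
  obtain ⟨R, G⟩ := geoM
  have e := G.symm_unique hs (isSymm ha hb hc p hp) q
  rw [hq] at e
  have e2 : Ls a b c (tp x y z) = tp x y z := by
    have := congrArg Subtype.val e
    rw [← hq']
    exact this.symm
  rcases fixed_rel ha hb hc hx hy hz e2 with ⟨s1, s2, s3⟩ | h | h | h
  · exfalso
    have f1 := eq_smul_of_sq ha hx s1
    have f2 := eq_smul_of_sq hb hy s2
    have f3 := eq_smul_of_sq hc hz s3
    have hT : q.1 = ((inner ℝ a x : ℝ) * inner ℝ b y * inner ℝ c z) • p.1 := by
      rw [hq', hp, f1, f2, f3, tp_smul]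
      simp only [inner_smul_right, inner_self_one ha, inner_self_one hb, inner_self_one hc,
        mul_one]
    have hsq : ((inner ℝ a x : ℝ) * inner ℝ b y * inner ℝ c z) ^ 2 = 1 := by
      rw [mul_pow, mul_pow, s1, s2, s3]; norm_num
    rcases sq_one _ hsq with g | g
    · rw [g, one_smul] at hT; exact h1 hT.symm
    · rw [g, neg_one_smul] at hT
      apply h2
      rw [hT, neg_neg]
  · exact Or.inl h
  · exact Or.inr (Or.inl h)
  · exact Or.inr (Or.inr h)

theorem twoNumber_M : twoNumber M ≤ 8 := by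
  classical
  unfold twoNumber
  apply iSup_le
  rintro ⟨A, hA⟩
  by_contra hlt
  rw [not_le] at hlt
  have h9 : (9 : ℕ∞) ≤ A.encard := by
    have := Order.add_one_le_of_lt hlt
    norm_num at this
    exact this
  obtain ⟨t, htA, ht⟩ := Set.exists_subset_encard_eq h9
  have htf : t.Finite := by
    rw [← Set.encard_lt_top_iff, ht]
    exact ENat.natCast_lt_top 9
  have hcard : htf.toFinset.card = 9 := by
    have h1 := htf.encard_eq_coe_toFinset_card
    rw [ht] at h1
    exact_mod_cast h1.symm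
  set f : M → Set V := fun p => {p.1, -p.1} with hf
  have hmem : ∀ p q : M, f p = f q → p.1 = q.1 ∨ p.1 = -q.1 := by
    intro p q hpq
    have : p.1 ∈ f p := by simp [hf]
    rw [hpq] at this
    simpa [hf] using this
  have hfib := Finset.card_le_mul_card_image (f := f) htf.toFinset 2 (by
    intro b hb
    obtain ⟨p, hp, rfl⟩ := Finset.mem_image.mp hb
    have hsub : (htf.toFinset.filter (fun a => f a = f p)).image (fun a : M => a.1) ⊆
        ({p.1, -p.1} : Finset V) := by
      intro v hv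
      obtain ⟨a, ha, rfl⟩ := Finset.mem_image.mp hv
      have := hmem a p (Finset.mem_filter.mp ha).2
      simpa using this
    calc _ = ((htf.toFinset.filter (fun a => f a = f p)).image (fun a : M => a.1)).card :=
          (Finset.card_image_of_injective _ Subtype.val_injective).symm
      _ ≤ ({p.1, -p.1} : Finset V).card := Finset.card_le_card hsub
      _ ≤ 2 := Finset.card_le_two)
  have h5 : 5 ≤ (htf.toFinset.image f).card := by
    rw [hcard] at hfib; omega
  obtain ⟨u, hu, hu5⟩ := Finset.exists_subset_card_eq h5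
  have eu : Fin 5 ≃ u := (u.equivFinOfCardEq hu5).symm
  have hch : ∀ i : Fin 5, ∃ p : M, p ∈ A ∧ f p = (eu i).1 := by
    intro i
    obtain ⟨p, hp, hpe⟩ := Finset.mem_image.mp (hu (eu i).2)
    exact ⟨p, htA (by simpa using hp), hpe⟩
  choose p hpA hpe using hch
  have hne : ∀ i j, i ≠ j → f (p i) ≠ f (p j) := by
    intro i j hij hfe
    rw [hpe, hpe] at hfe
    exact hij (eu.injective (Subtype.ext hfe))
  have hXYZ : ∀ i, ∃ x : A2, ∃ y z : A3, ‖x‖ = 1 ∧ ‖y‖ = 1 ∧ ‖z‖ = 1 ∧ (p i).1 = tp x y z :=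
    fun i => (p i).2
  choose X Y Z hX hY hZ hT using hXYZ
  refine no5 X Y Z hX hY hZ ?_
  intro i j hij
  obtain ⟨s, hs, hsj⟩ := hA (p i) (hpA i) (p j) (hpA j)
  refine antip_rel hs hsj (hX i) (hY i) (hZ i) (hX j) (hY j) (hZ j) (hT i) (hT j) ?_ ?_
  · intro h
    apply hne i j hij
    simp only [hf, h]
  · intro h
    apply hne i j hij
    simp only [hf, h, neg_neg]
    exact Set.pair_comm _ _

end Pool.Agent.H911R3.Seg
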