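import Pool.Agent.H911R3.Seg4

/-! The total mod 2 Betti number of `M` is at least 10. -/

open Bundle Bornology Set MeasureTheory Manifold Filter Topology
open scoped ENNReal ContDiff Manifold NNReal

noncomputable section

namespace Pool.Agent.H911R3.Seg
set_option maxSynthPendingDepth 3
set_option linter.unusedSectionVars false
set_option linter.unusedVariables false

open Pool.Agent.Helper562 Pool.Agent.Helper381

attribute [local instance] rb mM smoothBundle riemM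

/-- standard basis vector -/
def eb {n : ℕ} (i : Fin n) : EuclideanSpace ℝ (Fin n) := EuclideanSpace.single i 1

lemma norm_eb {n : ℕ} (i : Fin n) : ‖eb i‖ = 1 := by simp [eb]

lemma eb_apply {n : ℕ} (i j : Fin n) : eb i j = if j = i then (1 : ℝ) else 0 := by
  simp [eb]

lemma rf_eb {n : ℕ} (i j : Fin n) (x : EuclideanSpace ℝ (Fin n)) :
    rf (eb i) x j = (if j = i then (1 : ℝ) else -1) * x j := by
  have h : inner ℝ (eb i) x = x i := by simp [eb, EuclideanSpace.inner_single_left]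
  unfold rf
  rw [h]
  simp only [PiLp.sub_apply, PiLp.smul_apply, eb_apply, smul_eq_mul]
  split_ifs with hj
  · rw [hj]; ring
  · ring

/-- the isometry `1 ⊗ R_b ⊗ R_c` -/
def Ls2 (b c : A3) : V ≃ₗᵢ[ℝ] V := (K2 b).reflection.trans (K3 c).reflection

lemma Ls2_tp {b c : A3} (hb : ‖b‖ = 1) (hc : ‖c‖ = 1) (x : A2) (y z : A3) :
    Ls2 b c (tp x y z) = tp x (rf b y) (rf c z) := by
  unfold Ls2
  rw [LinearIsometryEquiv.trans_apply, refl2 hb, refl3 hc]

lemma Ls2_P {b c : A3} (hb : ‖b‖ = 1) (hc : ‖c‖ = 1) (T : V) (hT : P T) :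
    P (Ls2 b c T) := by
  obtain ⟨x, y, z, hx, hy, hz, rfl⟩ := hT
  exact ⟨_, _, _, hx, by rw [norm_rf hb, hy], by rw [norm_rf hc, hz], Ls2_tp hb hc x y z⟩

lemma Ls2_Ls2 {b c : A3} (hb : ‖b‖ = 1) (hc : ‖c‖ = 1) (T : V) (hT : P T) :
    Ls2 b c (Ls2 b c T) = T := by
  obtain ⟨x, y, z, hx, hy, hz, rfl⟩ := hT
  rw [Ls2_tp hb hc, Ls2_tp hb hc, rf_rf hb, rf_rf hc]

lemma Ls2_P' {b c : A3} (hb : ‖b‖ = 1) (hc : ‖c‖ = 1) (T : V) (hT : P T) :
    P ((Ls2 b c).symm T) := by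
  have : (Ls2 b c).symm T = Ls2 b c T := by
    rw [LinearIsometryEquiv.symm_apply_eq, Ls2_Ls2 hb hc T hT]
  rw [this]
  exact Ls2_P hb hc T hT

def Is2 {b c : A3} (hb : ‖b‖ = 1) (hc : ‖c‖ = 1) : M ≃ᵢ M :=
  indI (Ls2 b c) (Ls2_P hb hc) (Ls2_P' hb hc)

def g1 : M ≃ᵢ M := Is (a := eb 0) (b := eb 1) (c := eb 1) (norm_eb _) (norm_eb _) (norm_eb _)
def g2 : M ≃ᵢ M := Is2 (b := eb 2) (c := eb 2) (norm_eb _) (norm_eb _)

/-- the sign of `g1` -/
def χ1 (t : Ix) : ℝ := (if t.1 = 0 then 1 else -1) * (if t.2.1 = 1 then 1 else -1) *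
  (if t.2.2 = 1 then 1 else -1)
/-- the sign of `g2` -/
def χ2 (t : Ix) : ℝ := (if t.2.1 = 2 then 1 else -1) * (if t.2.2 = 2 then 1 else -1)

lemma g1_apply (p : M) (t : Ix) : (g1 p).1 t = χ1 t * p.1 t := by
  obtain ⟨x, y, z, hx, hy, hz, hT⟩ := p.2
  have h : (g1 p).1 = tp (rf (eb 0) x) (rf (eb 1) y) (rf (eb 1) z) := by
    rw [← Ls_tp (norm_eb _) (norm_eb _) (norm_eb _), ← hT]
    rfl
  rw [h, hT]
  simp only [tp_apply, rf_eb, χ1]
  ring

lemma g2_apply (p : M) (t : Ix) : (g2 p).1 t = χ2 t * p.1 t := by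
  obtain ⟨x, y, z, hx, hy, hz, hT⟩ := p.2
  have h : (g2 p).1 = tp x (rf (eb 2) y) (rf (eb 2) z) := by
    rw [← Ls2_tp (norm_eb _) (norm_eb _), ← hT]
    rfl
  rw [h, hT]
  simp only [tp_apply, rf_eb, χ2]
  ring

/-- the five surviving positions -/
def S5 : Fin 5 → Ix := ![(0, 0, 0), (0, 1, 1), (0, 2, 2), (1, 0, 1), (1, 1, 0)]

lemma S5_inj : Function.Injective S5 := by decide

lemma χ1_S5 (s : Fin 5) : χ1 (S5 s) = 1 := by
  fin_cases s <;> simp [S5, χ1]

lemma χ2_S5 (s : Fin 5) : χ2 (S5 s) = 1 := by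
  fin_cases s <;> simp [S5, χ2]

/-- a neighbour of a surviving position is killed -/
lemma nb1 (s : Fin 5) (i : Fin 2) (h : i ≠ (S5 s).1) :
    χ1 (i, (S5 s).2.1, (S5 s).2.2) = -1 ∨ χ2 (i, (S5 s).2.1, (S5 s).2.2) = -1 := by
  fin_cases s <;> fin_cases i <;> simp [S5] at h <;> simp [S5, χ1, χ2]

lemma nb2 (s : Fin 5) (j : Fin 3) (h : j ≠ (S5 s).2.1) :
    χ1 ((S5 s).1, j, (S5 s).2.2) = -1 ∨ χ2 ((S5 s).1, j, (S5 s).2.2) = -1 := by
  fin_cases s <;> fin_cases j <;> simp [S5] at h <;> simp [S5, χ1, χ2]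

lemma nb3 (s : Fin 5) (k : Fin 3) (h : k ≠ (S5 s).2.2) :
    χ1 ((S5 s).1, (S5 s).2.1, k) = -1 ∨ χ2 ((S5 s).1, (S5 s).2.1, k) = -1 := by
  fin_cases s <;> fin_cases k <;> simp [S5] at h <;> simp [S5, χ1, χ2]

/-- sign of a Boolean -/
def sg (b : Bool) : ℝ := if b then 1 else -1

lemma sg_abs (b : Bool) : |sg b| = 1 := by cases b <;> simp [sg]

/-- the ten points -/
def pt (w : Fin 5 × Bool) : M :=
  ⟨tp (sg w.2 • eb (S5 w.1).1) (eb (S5 w.1).2.1) (eb (S5 w.1).2.2), _, _, _,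
    by rw [norm_smul, norm_eb, Real.norm_eq_abs, sg_abs, mul_one], norm_eb _, norm_eb _, rfl⟩

lemma pt_apply (w : Fin 5 × Bool) (t : Ix) : (pt w).1 t = if t = S5 w.1 then sg w.2 else 0 := by
  show tp (sg w.2 • eb (S5 w.1).1) (eb (S5 w.1).2.1) (eb (S5 w.1).2.2) t = _
  simp only [tp_apply, PiLp.smul_apply, eb_apply, smul_eq_mul]
  by_cases h : t = S5 w.1
  · subst h; simp
  · rw [if_neg h]
    by_cases h1 : t.1 = (S5 w.1).1
    · by_cases h2 : t.2.1 = (S5 w.1).2.1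
      · by_cases h3 : t.2.2 = (S5 w.1).2.2
        · exact absurd (Prod.ext h1 (Prod.ext h2 h3)) h
        · simp [h3]
      · simp [h2]
    · simp [h1]

lemma pt_inj : Function.Injective pt := by
  intro w w' h
  have h1 : ∀ t, (if t = S5 w.1 then sg w.2 else 0) = if t = S5 w'.1 then sg w'.2 else 0 := by
    intro t
    rw [← pt_apply, ← pt_apply, h]
  have h2 := h1 (S5 w.1)
  rw [if_pos rfl] at h2
  have h3 : w.1 = w'.1 := by
    by_contra hne
    rw [if_neg (fun hh => hne (S5_inj hh))] at h2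
    have := sg_abs w.2
    rw [h2] at this
    norm_num at this
  rw [h3, if_pos rfl] at h2
  apply Prod.ext h3
  revert h2
  rcases w.2 <;> rcases w'.2 <;> simp [sg] <;> norm_num

lemma M_ext {p q : M} (h : ∀ t, p.1 t = q.1 t) : p = q := by
  apply Subtype.ext
  ext t
  exact h t

lemma g1_pt (w : Fin 5 × Bool) : g1 (pt w) = pt w := by
  apply M_ext
  intro t
  rw [g1_apply, pt_apply]
  split_ifs with h
  · rw [h, χ1_S5, one_mul]
  · rw [mul_zero]

lemma g2_pt (w : Fin 5 × Bool) : g2 (pt w) = pt w := by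
  apply M_ext
  intro t
  rw [g2_apply, pt_apply]
  split_ifs with h
  · rw [h, χ2_S5, one_mul]
  · rw [mul_zero]

lemma χ1_sq (t : Ix) : χ1 t * χ1 t = 1 := by
  unfold χ1
  split_ifs <;> norm_num

lemma χ2_sq (t : Ix) : χ2 t * χ2 t = 1 := by
  unfold χ2
  split_ifs <;> norm_num

lemma iso_pt (w : Fin 5 × Bool) (q : M) (hd : dist q (pt w) < 1) (h1 : g1 q = q) (h2 : g2 q = q) :
    q = pt w := by
  have hkill : ∀ t, χ1 t = -1 ∨ χ2 t = -1 → q.1 t = 0 := by
    intro t ht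
    rcases ht with ht | ht
    · have := g1_apply q t
      rw [h1, ht] at this
      linarith
    · have := g2_apply q t
      rw [h2, ht] at this
      linarith
  have hnorm : ‖inc q - inc (pt w)‖ < 1 := (dist_ge q (pt w)).trans_lt hd
  have hco : |q.1 (S5 w.1) - sg w.2| < 1 := by
    have h3 : ‖(inc q - inc (pt w)) (S5 w.1)‖ ≤ ‖inc q - inc (pt w)‖ := PiLp.norm_apply_le _ _
    have h4 : (inc q - inc (pt w)) (S5 w.1) = q.1 (S5 w.1) - sg w.2 := by
      show q.1 (S5 w.1) - (pt w).1 (S5 w.1) = _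
      rw [pt_apply, if_pos rfl]
    rw [h4, Real.norm_eq_abs] at h3
    exact h3.trans_lt hnorm
  have hne : q.1 (S5 w.1) ≠ 0 := by
    intro h0
    rw [h0, zero_sub, abs_neg, sg_abs] at hco
    exact lt_irrefl _ hco
  obtain ⟨x, y, z, hx, hy, hz, hT⟩ := q.2
  have hS : x (S5 w.1).1 * y (S5 w.1).2.1 * z (S5 w.1).2.2 ≠ 0 := by
    rw [hT] at hne; exact hne
  have hx0 : x (S5 w.1).1 ≠ 0 := fun h => hS (by rw [h]; ring)
  have hy0 : y (S5 w.1).2.1 ≠ 0 := fun h => hS (by rw [h]; ring)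
  have hz0 : z (S5 w.1).2.2 ≠ 0 := fun h => hS (by rw [h]; ring)
  have kx : ∀ i, i ≠ (S5 w.1).1 → x i = 0 := by
    intro i hi
    have := hkill _ (nb1 w.1 i hi)
    rw [hT, tp_apply] at this
    simpa [hy0, hz0] using this
  have ky : ∀ i, i ≠ (S5 w.1).2.1 → y i = 0 := by
    intro i hi
    have := hkill _ (nb2 w.1 i hi)
    rw [hT, tp_apply] at this
    simpa [hx0, hz0] using this
  have kz : ∀ i, i ≠ (S5 w.1).2.2 → z i = 0 := by
    intro i hi
    have := hkill _ (nb3 w.1 i hi)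
    rw [hT, tp_apply] at this
    simpa [hx0, hy0] using this
  have hz1 : ∀ t, t ≠ S5 w.1 → q.1 t = 0 := by
    intro t ht
    rw [hT, tp_apply]
    by_cases a1 : t.1 = (S5 w.1).1
    · by_cases a2 : t.2.1 = (S5 w.1).2.1
      · by_cases a3 : t.2.2 = (S5 w.1).2.2
        · exact absurd (Prod.ext a1 (Prod.ext a2 a3)) ht
        · rw [kz _ a3]; ring
      · rw [ky _ a2]; ring
    · rw [kx _ a1]; ring
  have hnq : ‖q.1‖ = 1 := by rw [hT, norm_tp, hx, hy, hz]; norm_num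
  have hsq : (q.1 (S5 w.1)) ^ 2 = 1 := by
    have h5 := EuclideanSpace.norm_sq_eq q.1
    rw [hnq, Finset.sum_eq_single (S5 w.1) (fun t _ ht => by rw [hz1 t ht]; simp)
      (fun h => absurd (Finset.mem_univ _) h)] at h5
    rw [Real.norm_eq_abs, sq_abs] at h5
    rw [← h5]; norm_num
  have hval : q.1 (S5 w.1) = sg w.2 := by
    rcases sq_one _ hsq with h | h
    · rw [h] at hco ⊢
      unfold sg at hco ⊢
      split_ifs at hco ⊢
      · rfl
      · norm_num at hco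
    · rw [h] at hco ⊢
      unfold sg at hco ⊢
      split_ifs at hco ⊢
      · norm_num at hco
      · rfl
  apply M_ext
  intro t
  rw [pt_apply]
  split_ifs with h
  · rw [h, hval]
  · exact hz1 t h

theorem betti_M : 10 ≤ totalBetti (ZMod 2) M := by
  classical
  obtain ⟨R, G⟩ := geoM
  have hne : Nonempty M := ⟨pt (0, true)⟩
  have h := G.card_le_of_fixed [g1, g2] (by
    intro g hg p
    apply M_ext
    intro t
    rcases List.mem_cons.mp hg with rfl | hg
    · rw [g1_apply, g1_apply, ← mul_assoc, χ1_sq, one_mul]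
    · rw [List.mem_singleton.mp hg, g2_apply, g2_apply, ← mul_assoc, χ2_sq, one_mul])
    (by
      intro g hg g' hg' p
      apply M_ext
      intro t
      rcases List.mem_cons.mp hg with rfl | hg <;> rcases List.mem_cons.mp hg' with rfl | hg'
      · rfl
      · rw [List.mem_singleton.mp hg', g1_apply, g2_apply, g2_apply, g1_apply]
        ring
      · rw [List.mem_singleton.mp hg, g1_apply, g2_apply, g2_apply, g1_apply]
        ring
      · rw [List.mem_singleton.mp hg, List.mem_singleton.mp hg'])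
    (Finset.univ.map ⟨pt, pt_inj⟩) (by
      intro g hg a ha
      obtain ⟨w, -, rfl⟩ := Finset.mem_map.mp ha
      rcases List.mem_cons.mp hg with rfl | hg
      · exact g1_pt w
      · rw [List.mem_singleton.mp hg]; exact g2_pt w)
    (ε := 1) one_pos (by
      intro a ha y hy hg
      obtain ⟨w, -, rfl⟩ := Finset.mem_map.mp ha
      exact iso_pt w y hy (hg g1 (by simp)) (hg g2 (by simp)))
  have hc : (Finset.univ.map ⟨pt, pt_inj⟩ : Finset M).card = 10 := by
    rw [Finset.card_map, Finset.card_univ]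
    rfl
  rw [hc] at h
  exact_mod_cast h

end Pool.Agent.H911R3.Seg
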