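import Pool.Agent.H911R3.Seg5

/-! The two-number of `M` is exactly 8. -/

open Bundle Bornology Set MeasureTheory Manifold Filter Topology
open scoped ENNReal ContDiff Manifold NNReal

noncomputable section

namespace Pool.Agent.H911R3.Seg
set_option maxSynthPendingDepth 3
set_option linter.unusedSectionVars false
set_option linter.unusedVariables false

open Pool.Agent.Helper562 Pool.Agent.Helper381

attribute [local instance] rb mM smoothBundle riemM

lemma norm_sg_eb {n : ℕ} (b : Bool) (i : Fin n) : ‖sg b • eb i‖ = 1 := by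
  rw [norm_smul, norm_eb, Real.norm_eq_abs, sg_abs, mul_one]

lemma rf_sg (b : Bool) {n : ℕ} (i : Fin n) (x : EuclideanSpace ℝ (Fin n)) :
    rf (sg b • eb i) x = rf (eb i) x := by
  have h : sg b * sg b = 1 := by cases b <;> simp [sg]
  unfold rf
  rw [inner_smul_left, smul_smul]
  congr 2
  show 2 * (sg b * inner ℝ (eb i) x) * sg b = 2 * inner ℝ (eb i) x
  linear_combination (2 * inner ℝ (eb i) x) * h

/-- the symmetry at `pt w` -/
def gw (w : Fin 5 × Bool) : M ≃ᵢ M :=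
  Is (a := sg w.2 • eb (S5 w.1).1) (b := eb (S5 w.1).2.1) (c := eb (S5 w.1).2.2)
    (norm_sg_eb _ _) (norm_eb _) (norm_eb _)

/-- signs -/
def χw (s t : Ix) : ℝ := (if t.1 = s.1 then 1 else -1) * (if t.2.1 = s.2.1 then 1 else -1) *
  (if t.2.2 = s.2.2 then 1 else -1)

lemma gw_apply (w : Fin 5 × Bool) (p : M) (t : Ix) : (gw w p).1 t = χw (S5 w.1) t * p.1 t := by
  obtain ⟨x, y, z, hx, hy, hz, hT⟩ := p.2
  have h : (gw w p).1 = tp (rf (sg w.2 • eb (S5 w.1).1) x) (rf (eb (S5 w.1).2.1) y)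
      (rf (eb (S5 w.1).2.2) z) := by
    rw [← Ls_tp (norm_sg_eb _ _) (norm_eb _) (norm_eb _), ← hT]
    rfl
  rw [h, hT, rf_sg]
  simp only [tp_apply, rf_eb, χw]
  ring

lemma χw_S5 (s t : Fin 5) (hs : s ≠ 2) (ht : t ≠ 2) : χw (S5 s) (S5 t) = 1 := by
  fin_cases s <;> fin_cases t <;> simp at hs ht <;> simp [S5, χw]

lemma antipodal8 : IsAntipodal (pt '' {w | w.1 ≠ 2}) := by
  rintro _ ⟨w, hw, rfl⟩ _ ⟨w', hw', rfl⟩
  refine ⟨gw w, isSymm _ _ _ (pt w) rfl, ?_⟩
  apply M_ext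
  intro t
  rw [gw_apply, pt_apply]
  split_ifs with h
  · rw [h, χw_S5 _ _ hw hw', one_mul]
  · rw [mul_zero]

theorem twoNumber_ge : 8 ≤ twoNumber M := by
  unfold twoNumber
  refine le_trans ?_ (le_iSup _ ⟨_, antipodal8⟩)
  show 8 ≤ (pt '' {w | w.1 ≠ 2}).encard
  rw [pt_inj.encard_image]
  have : ({w | w.1 ≠ 2} : Set (Fin 5 × Bool)) =
      ((Finset.univ.filter fun w : Fin 5 × Bool => w.1 ≠ 2 : Finset _) : Set (Fin 5 × Bool)) := by
    ext w; simp
  rw [this, Set.encard_coe_eq_coe_finsetCard]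
  have h8 : (Finset.univ.filter fun w : Fin 5 × Bool => w.1 ≠ 2).card = 8 := by decide
  rw [h8]
  rfl

theorem twoNumber_eq : twoNumber M = 8 := le_antisymm twoNumber_M twoNumber_ge

end Pool.Agent.H911R3.Seg
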