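import Pool.Agent.H911R3.Complete

/-! The bottom of the spectrum of the metrics `ω_t`. -/

namespace Pool.Agent.H911R3

open MeasureTheory Set Filter Topology
open scoped ComplexOrder

variable {n : ℕ}

theorem inv_om {t : ℝ} (ht : 0 ≤ t) {p : Fin n → ℂ} (hp : p ∈ polydisc n) :
    (om n t p)⁻¹ = Matrix.diagonal fun i => (((Gs t (sc (p i)))⁻¹ : ℝ) : ℂ) := by
  apply Matrix.inv_eq_right_inv
  rw [om_eq, Matrix.diagonal_mul_diagonal, ← Matrix.diagonal_one]
  congr 1
  funext i
  rw [← Complex.ofReal_mul, mul_inv_cancel₀ (Gs_pos ht (mem_poly.mp hp i)).ne', Complex.ofReal_one]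

/-- `|∂_{x_i} f|² + |∂_{y_i} f|²` -/
noncomputable def gi (i : Fin n) (f : (Fin n → ℂ) → ℝ) (p : Fin n → ℂ) : ℝ :=
  fderiv ℝ f p (Pi.single i 1) ^ 2 + fderiv ℝ f p (Pi.single i Complex.I) ^ 2

theorem gradSq_om {t : ℝ} (ht : 0 ≤ t) {p : Fin n → ℂ} (hp : p ∈ polydisc n)
    {f : (Fin n → ℂ) → ℝ} (hf : DifferentiableAt ℝ f p) :
    gradSq (om n t) f p = (1 / 2) * ∑ i, (Gs t (sc (p i)))⁻¹ * gi i f p := by
  unfold gradSq
  rw [inv_om ht hp]
  simp only [Matrix.diagonal_apply, ite_mul, zero_mul]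
  have e : ∀ i, (∑ j, if j = i then (((Gs t (sc (p j)))⁻¹ : ℝ) : ℂ) *
      dz i (fun q => (f q : ℂ)) p * (starRingEnd ℂ) (dz j (fun q => (f q : ℂ)) p) else 0) =
      (((Gs t (sc (p i)))⁻¹ * gi i f p / 4 : ℝ) : ℂ) := by
    intro i
    rw [Finset.sum_ite_eq' Finset.univ i]
    simp only [Finset.mem_univ, if_true]
    rw [dz_ofReal hf.hasFDerivAt, mul_assoc, Complex.mul_conj]
    rw [← Complex.ofReal_mul]
    congr 1
    rw [mul_div_assoc]
    congr 1
    rw [Complex.normSq_apply]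
    simp [gi]
    ring
  simp only [e, ← Complex.ofReal_sum, Complex.ofReal_re]
  rw [Finset.mul_sum, Finset.mul_sum]
  refine Finset.sum_congr rfl fun i _ => ?_
  ring

/-- product of the coefficients with the `i`-th one omitted -/
noncomputable def Wt (t : ℝ) (i : Fin n) (p : Fin n → ℂ) : ℝ :=
  ∏ j ∈ Finset.univ.erase i, Gs t (sc (p j))

theorem Wt_mul (t : ℝ) (i : Fin n) (p : Fin n → ℂ) :
    Gs t (sc (p i)) * Wt t i p = ∏ j, Gs t (sc (p j)) :=
  Finset.mul_prod_erase Finset.univ (fun j => Gs t (sc (p j))) (Finset.mem_univ i)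

theorem Wt_pos {t : ℝ} (ht : 0 ≤ t) {p : Fin n → ℂ} (hp : p ∈ polydisc n) (i : Fin n) :
    0 < Wt t i p :=
  Finset.prod_pos fun j _ => Gs_pos ht (mem_poly.mp hp j)

theorem contDiffOn_Wt (t : ℝ) (i : Fin n) : ContDiffOn ℝ ((⊤ : ℕ∞) : WithTop ℕ∞)
    (Wt t i) (polydisc n) :=
  contDiffOn_prod fun j _ => contDiffOn_Gs t j

theorem fderiv_Wt (t : ℝ) {p : Fin n → ℂ} (hp : p ∈ polydisc n) (i : Fin n) (w : ℂ) :
    fderiv ℝ (Wt t i) p (Pi.single i w) = 0 := by
  have hd : DifferentiableAt ℝ (Wt t i) p :=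
    ((contDiffOn_Wt t i).contDiffAt (isOpen_poly.mem_nhds hp)).differentiableAt (by norm_cast)
  rw [← hd.lineDeriv_eq_fderiv]
  unfold lineDeriv
  have : (fun τ : ℝ => Wt t i (p + τ • (Pi.single i w : Fin n → ℂ))) = fun _ => Wt t i p := by
    funext τ
    unfold Wt
    refine Finset.prod_congr rfl fun j hj => ?_
    have hji : j ≠ i := Finset.ne_of_mem_erase hj
    simp [hji]
  rw [this]
  simp

theorem vol_om (t : ℝ) (p : Fin n → ℂ) : vol (om n t) p = 2 ^ n * ∏ i, Gs t (sc (p i)) := by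
  rw [vol, det_om]

theorem gradSq_vol {t : ℝ} (ht : 0 ≤ t) {p : Fin n → ℂ} (hp : p ∈ polydisc n)
    {f : (Fin n → ℂ) → ℝ} (hf : DifferentiableAt ℝ f p) :
    gradSq (om n t) f p * vol (om n t) p =
      (2 ^ n / 2) * ∑ i, Wt t i p * gi i f p := by
  rw [gradSq_om ht hp hf, vol_om, Finset.mul_sum, Finset.sum_mul, Finset.mul_sum]
  refine Finset.sum_congr rfl fun i _ => ?_
  rw [← Wt_mul t i p]
  have := (Gs_pos ht (mem_poly.mp hp i)).ne'
  field_simp

theorem gi_zero {f : (Fin n → ℂ) → ℝ} {p : Fin n → ℂ} (hp : p ∉ tsupport f) (i : Fin n) :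
    gi i f p = 0 := by
  have : fderiv ℝ f p = 0 := by
    by_contra hne
    exact hp (support_fderiv_subset ℝ (f := f) hne)
  simp [gi, this]

/-- the energy as a sum of weighted integrals -/
theorem energy_eq {t : ℝ} (ht : 0 ≤ t) {f : (Fin n → ℂ) → ℝ}
    (hf : ContDiff ℝ ((⊤ : ℕ∞) : WithTop ℕ∞) f) (hc : HasCompactSupport f)
    (hs : tsupport f ⊆ polydisc n) :
    ∫ p in polydisc n, gradSq (om n t) f p * vol (om n t) p =
      (2 ^ n / 2) * ∑ i, ∫ p, Wt t i p * gi i f p := by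
  have hi : ∀ i, Integrable (fun p => Wt t i p * gi i f p) := by
    intro i
    refine integrable_of_supp isOpen_poly ?_ (fun p hp => by simp [gi_zero hp]) hc hs
    refine (contDiffOn_Wt t i).continuousOn.mul ?_
    have cdf : ∀ v, Continuous fun p => fderiv ℝ f p v := fun v =>
      (hf.continuous_fderiv (by norm_cast)).clm_apply continuous_const
    exact (((cdf _).pow 2).add ((cdf _).pow 2)).continuousOn
  rw [setIntegral_congr_fun isOpen_poly.measurableSet (fun p hp =>
    gradSq_vol ht hp ((hf.differentiable (by norm_cast)) p))]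
  rw [setIntegral_eq_integral_of_forall_compl_eq_zero, integral_const_mul,
    integral_finsetSum _ (fun i _ => hi i)]
  intro p hp
  have : p ∉ tsupport f := fun h => hp (hs h)
  simp [gi_zero this]

theorem mass_eq (t : ℝ) {f : (Fin n → ℂ) → ℝ} (hs : tsupport f ⊆ polydisc n) :
    ∫ p in polydisc n, f p ^ 2 * vol (om n t) p =
      2 ^ n * ∫ p, f p ^ 2 * ∏ i, Gs t (sc (p i)) := by
  rw [setIntegral_eq_integral_of_forall_compl_eq_zero, ← integral_const_mul]
  · refine integral_congr_ae (Eventually.of_forall fun p => ?_)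
    simp only [vol_om]
    ring
  · intro p hp
    have : p ∉ tsupport f := fun h => hp (hs h)
    rw [image_eq_zero_of_notMem_tsupport this]
    simp

theorem integrable_mass (t : ℝ) {f : (Fin n → ℂ) → ℝ}
    (hf : Continuous f) (hc : HasCompactSupport f)
    (hs : tsupport f ⊆ polydisc n) : Integrable fun p => f p ^ 2 * ∏ i, Gs t (sc (p i)) := by
  refine integrable_of_supp isOpen_poly ?_ (fun p hp => by
    simp [image_eq_zero_of_notMem_tsupport hp]) hc hs
  refine (hf.pow 2).continuousOn.mul ?_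
  exact continuousOn_finsetProd _ fun i _ => (contDiffOn_Gs t i).continuousOn

/-- the mass of a nonzero function is positive -/
theorem mass_pos {t : ℝ} (ht : 0 ≤ t) {f : (Fin n → ℂ) → ℝ}
    (hf : Continuous f) (hc : HasCompactSupport f)
    (hs : tsupport f ⊆ polydisc n) (hne : f ≠ 0) :
    0 < ∫ p, f p ^ 2 * ∏ i, Gs t (sc (p i)) := by
  have hnn : ∀ p, 0 ≤ f p ^ 2 * ∏ i, Gs t (sc (p i)) := by
    intro p
    by_cases hp : p ∈ tsupport f
    · have := hs hp
      exact mul_nonneg (sq_nonneg _) (Finset.prod_nonneg fun i _ =>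
        (Gs_pos ht (mem_poly.mp this i)).le)
    · simp [image_eq_zero_of_notMem_tsupport hp]
  have hcont : Continuous fun p => f p ^ 2 * ∏ i, Gs t (sc (p i)) := by
    have h1 : ContinuousOn (fun p => f p ^ 2 * ∏ i, Gs t (sc (p i))) (polydisc n) :=
      (hf.pow 2).continuousOn.mul
        (continuousOn_finsetProd _ fun i _ => (contDiffOn_Gs t i).continuousOn)
    refine h1.continuous_of_tsupport_subset isOpen_poly (subset_trans ?_ hs)
    apply closure_mono
    intro p hp hn
    exact hp (by simp [hn])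
  obtain ⟨p, hp⟩ : ∃ p, f p ≠ 0 := by
    by_contra h
    push Not at h
    exact hne (funext h)
  apply hcont.integral_pos_of_hasCompactSupport_nonneg_nonzero
  · refine hc.of_isClosed_subset (isClosed_tsupport _) ?_
    apply closure_mono
    intro p hp hn
    exact hp (by simp [hn])
  · exact hnn
  · have hpX : p ∈ polydisc n := hs (subset_tsupport f hp)
    have : 0 < ∏ i, Gs t (sc (p i)) := Finset.prod_pos fun i _ => Gs_pos ht (mem_poly.mp hpX i)
    exact mul_ne_zero (pow_ne_zero 2 hp) this.ne'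

theorem energy_ge {t : ℝ} (ht : 0 ≤ t) (ht1 : t ≤ 1) {f : (Fin n → ℂ) → ℝ}
    (hf : ContDiff ℝ ((⊤ : ℕ∞) : WithTop ℕ∞) f) (hc : HasCompactSupport f)
    (hs : tsupport f ⊆ polydisc n) (i : Fin n) :
    (1 / 2) * ∫ p, f p ^ 2 * ∏ i, Gs t (sc (p i)) ≤ ∫ p, Wt t i p * gi i f p := by
  obtain ⟨i1, i2, i3, key⟩ := hardy_identity (volume : Measure (Fin n → ℂ)) (zc n i)
    (e1 := Pi.single i 1) (e2 := Pi.single i Complex.I) (by simp) (by simp) isOpen_poly
    (fun p hp => mem_poly.mp hp i) ((contDiffOn_Wt t i).of_le (by norm_cast))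
    (fun p hp => fderiv_Wt t hp i 1) (fun p hp => fderiv_Wt t hp i Complex.I)
    (hf.of_le (by norm_cast)) hc hs
  have e1 : ∫ p, Wt t i p * gi i f p = ∫ p, Wt t i p * (fderiv ℝ f p (Pi.single i 1) ^ 2 +
      fderiv ℝ f p (Pi.single i Complex.I) ^ 2) := rfl
  rw [e1, key]
  have h3 : 0 ≤ ∫ p, Wt t i p * ((fderiv ℝ f p (Pi.single i 1) +
      f p * ((zc n i p).re / (1 - sq (zc n i) p))) ^ 2 +
        (fderiv ℝ f p (Pi.single i Complex.I) +
          f p * ((zc n i p).im / (1 - sq (zc n i) p))) ^ 2) := by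
    apply integral_nonneg
    intro p
    by_cases hp : p ∈ tsupport f
    · exact mul_nonneg (Wt_pos ht (hs hp) i).le (by positivity)
    · have : fderiv ℝ f p = 0 := by
        by_contra hne
        exact hp (support_fderiv_subset ℝ (f := f) hne)
      simp [image_eq_zero_of_notMem_tsupport hp, this]
  have h4 : (1 / 2) * ∫ p, f p ^ 2 * ∏ i, Gs t (sc (p i)) ≤
      ∫ p, Wt t i p * (f p ^ 2 * ((2 - sq (zc n i) p) / (1 - sq (zc n i) p) ^ 2)) := by
    rw [← integral_const_mul]
    apply integral_mono ((integrable_mass t hf.continuous hc hs).const_mul _) i2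
    intro p
    simp only
    by_cases hp : p ∈ tsupport f
    · have hs1 := mem_poly.mp (hs hp) i
      have hW := Wt_pos ht (hs hp) i
      have h1 : 0 < 1 - sc (p i) := by linarith
      rw [← Wt_mul t i p, sq_zc]
      have h5 : Gs t (sc (p i)) ≤ 2 * ((2 - sc (p i)) / (1 - sc (p i)) ^ 2) := by
        unfold Gs
        have : (1 + t * (1 - sc (p i))) ≤ 2 - sc (p i) := by nlinarith
        have h6 : (1 + t * (1 - sc (p i))) * (2 / (1 - sc (p i)) ^ 2) ≤
            (2 - sc (p i)) * (2 / (1 - sc (p i)) ^ 2) := by gcongr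
        refine h6.trans (le_of_eq ?_)
        ring
      have h7 : f p ^ 2 * Wt t i p * Gs t (sc (p i)) ≤
          f p ^ 2 * Wt t i p * (2 * ((2 - sc (p i)) / (1 - sc (p i)) ^ 2)) := by gcongr
      nlinarith
    · simp [image_eq_zero_of_notMem_tsupport hp]
  linarith

theorem rayleigh_ge {t : ℝ} (ht : 0 ≤ t) (ht1 : t ≤ 1) {f : (Fin n → ℂ) → ℝ}
    (hf : ContDiff ℝ ((⊤ : ℕ∞) : WithTop ℕ∞) f) (hc : HasCompactSupport f)
    (hs : tsupport f ⊆ polydisc n) (hne : f ≠ 0) :
    (n : ℝ) / 4 ≤ (∫ p in polydisc n, gradSq (om n t) f p * vol (om n t) p) /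
      ∫ p in polydisc n, f p ^ 2 * vol (om n t) p := by
  rw [energy_eq ht hf hc hs, mass_eq t hs]
  have hM := mass_pos ht hf.continuous hc hs hne
  have h2n : (0 : ℝ) < 2 ^ n := by positivity
  rw [le_div_iff₀ (by positivity)]
  have h1 : ∑ _i : Fin n, (1 / 2) * ∫ p, f p ^ 2 * ∏ i, Gs t (sc (p i)) ≤
      ∑ i, ∫ p, Wt t i p * gi i f p :=
    Finset.sum_le_sum fun i _ => energy_ge ht ht1 hf hc hs i
  rw [Finset.sum_const, Finset.card_univ, Fintype.card_fin, nsmul_eq_mul] at h1
  have h2 := mul_le_mul_of_nonneg_left h1 (by positivity : (0 : ℝ) ≤ 2 ^ n / 2)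
  refine le_trans (le_of_eq ?_) h2
  ring

/-- the product test functions -/
theorem exists_prod {t : ℝ} (ht : 0 ≤ t) {ε : ℝ} (hε : 0 < ε) :
    ∃ f : (Fin n → ℂ) → ℝ, ContDiff ℝ ((⊤ : ℕ∞) : WithTop ℕ∞) f ∧ HasCompactSupport f ∧
      tsupport f ⊆ polydisc n ∧ f ≠ 0 ∧
      (∫ p in polydisc n, gradSq (om n t) f p * vol (om n t) p) /
      (∫ p in polydisc n, f p ^ 2 * vol (om n t) p) ≤ (n : ℝ) / 4 * (1 + ε) := by
  obtain ⟨h, hsm, hcs, htsX, hi, hpos, hle⟩ := test_fn hε
  set f : (Fin n → ℂ) → ℝ := fun p => ∏ i, h (p i) with hf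
  have hfs : ContDiff ℝ ((⊤ : ℕ∞) : WithTop ℕ∞) f :=
    contDiff_prod fun i _ => hsm.comp (contDiff_apply ℝ ℂ i)
  have hsup : tsupport f ⊆ Set.pi univ fun _ => tsupport h := by
    apply closure_minimal _ (isClosed_set_pi fun _ _ => isClosed_tsupport h)
    intro p hp i _
    apply subset_tsupport h
    intro h0
    exact hp (Finset.prod_eq_zero (Finset.mem_univ i) h0)
  have hfc : HasCompactSupport f :=
    (isCompact_univ_pi fun _ => hcs).of_isClosed_subset (isClosed_tsupport f) hsup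
  have hfX : tsupport f ⊆ polydisc n := by
    intro p hp
    rw [mem_poly]
    intro i
    exact htsX (hsup hp i (mem_univ i))
  obtain ⟨w, hw⟩ : ∃ w, h w ≠ 0 := by
    by_contra hcon
    push Not at hcon
    simp [hcon] at hpos
  have hfne : f ≠ 0 := by
    intro h0
    have := congrFun h0 (fun _ => w)
    simp only [hf, Pi.zero_apply, Finset.prod_const] at this
    exact hw (pow_eq_zero_iff'.mp this).1
  refine ⟨f, hfs, hfc, hfX, hfne, ?_⟩
  set B := ∫ w, h w ^ 2 * Gs t (sc w) with hB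
  set A := ∫ w, (fderiv ℝ h w 1 ^ 2 + fderiv ℝ h w Complex.I ^ 2) with hA
  -- derivative of the product
  have hder : ∀ (p : Fin n → ℂ) (i : Fin n) (v : ℂ), fderiv ℝ f p (Pi.single i v) =
      fderiv ℝ h (p i) v * ∏ j ∈ Finset.univ.erase i, h (p j) := by
    intro p i v
    have hd : DifferentiableAt ℝ f p := hfs.differentiable (by norm_cast) p
    rw [← hd.lineDeriv_eq_fderiv]
    have hdh : DifferentiableAt ℝ h (p i) := hsm.differentiable (by norm_cast) (p i)
    rw [← hdh.lineDeriv_eq_fderiv]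
    unfold lineDeriv
    have : (fun τ : ℝ => f (p + τ • (Pi.single i v : Fin n → ℂ))) =
        fun τ => h (p i + τ • v) * ∏ j ∈ Finset.univ.erase i, h (p j) := by
      funext τ
      rw [hf]
      simp only
      rw [← Finset.mul_prod_erase Finset.univ _ (Finset.mem_univ i)]
      congr 1
      · simp
      · refine Finset.prod_congr rfl fun j hj => ?_
        have hji : j ≠ i := Finset.ne_of_mem_erase hj
        simp [hji]
    rw [this, deriv_mul_const_field]
  have hWg : ∀ i, ∫ p, Wt t i p * gi i f p = A * B ^ (n - 1) := by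
    intro i
    have e1 : ∀ p : Fin n → ℂ, Wt t i p * gi i f p =
        ∏ j, (if j = i then fun w : ℂ => (fderiv ℝ h w 1 ^ 2 + fderiv ℝ h w Complex.I ^ 2)
          else fun w : ℂ => h w ^ 2 * Gs t (sc w)) (p j) := by
      intro p
      rw [← Finset.mul_prod_erase Finset.univ _ (Finset.mem_univ i)]
      have e2 : ∏ j ∈ Finset.univ.erase i, (if j = i then fun w : ℂ =>
          (fderiv ℝ h w 1 ^ 2 + fderiv ℝ h w Complex.I ^ 2)
          else fun w : ℂ => h w ^ 2 * Gs t (sc w)) (p j) =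
          ∏ j ∈ Finset.univ.erase i, (h (p j) ^ 2 * Gs t (sc (p j))) := by
        refine Finset.prod_congr rfl fun j hj => ?_
        rw [if_neg (Finset.ne_of_mem_erase hj)]
      rw [e2, if_pos rfl, Finset.prod_mul_distrib, Finset.prod_pow]
      unfold gi Wt
      rw [hder, hder]
      ring
    simp only [e1]
    rw [integral_fintype_prod_volume_eq_prod (fun (j : Fin n) => (if j = i then fun w : ℂ =>
      (fderiv ℝ h w 1 ^ 2 + fderiv ℝ h w Complex.I ^ 2)
          else fun w : ℂ => h w ^ 2 * Gs t (sc w)))]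
    rw [← Finset.mul_prod_erase Finset.univ _ (Finset.mem_univ i)]
    have e3 : ∏ j ∈ Finset.univ.erase i, ∫ w, (if j = i then fun w : ℂ =>
          (fderiv ℝ h w 1 ^ 2 + fderiv ℝ h w Complex.I ^ 2)
          else fun w : ℂ => h w ^ 2 * Gs t (sc w)) w =
          ∏ j ∈ Finset.univ.erase i, B := by
      refine Finset.prod_congr rfl fun j hj => ?_
      rw [if_neg (Finset.ne_of_mem_erase hj)]
    rw [e3, if_pos rfl, Finset.prod_const, Finset.card_erase_of_mem (Finset.mem_univ i),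
      Finset.card_univ, Fintype.card_fin]
  have hmass : ∫ p, f p ^ 2 * ∏ i, Gs t (sc (p i)) = B ^ n := by
    have e1 : ∀ p : Fin n → ℂ, f p ^ 2 * ∏ i, Gs t (sc (p i)) =
        ∏ i, (fun w : ℂ => h w ^ 2 * Gs t (sc w)) (p i) := by
      intro p
      simp only
      rw [hf, Finset.prod_mul_distrib, Finset.prod_pow]
    simp only [e1]
    rw [integral_fintype_prod_volume_eq_prod (fun (_ : Fin n) (w : ℂ) => h w ^ 2 * Gs t (sc w)),
      Finset.prod_const, Finset.card_univ, Fintype.card_fin]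
  rw [energy_eq ht hfs hfc hfX, mass_eq t hfX, hmass]
  simp only [hWg]
  rw [Finset.sum_const, Finset.card_univ, Fintype.card_fin, nsmul_eq_mul]
  rcases Nat.eq_zero_or_pos n with hn | hn
  · subst hn; simp
  -- comparison of `A` and `B`
  have hopen : IsOpen {p : ℂ | sc p < 1} := isOpen_lt continuous_sc continuous_const
  have hne1 : ∀ p ∈ {p : ℂ | sc p < 1}, (1 - sc p) ≠ 0 := fun p hp => by
    have : sc p < 1 := hp
    linarith
  have cG : ContinuousOn (fun w : ℂ => Gs t (sc w)) {p | sc p < 1} := by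
    unfold Gs
    refine ContinuousOn.mul ?_ ?_
    · have := continuous_sc
      fun_prop
    · exact continuousOn_const.div ((continuous_const.sub continuous_sc).pow 2).continuousOn
        (fun p hp => pow_ne_zero 2 (hne1 p hp))
  have iB : Integrable (fun w => h w ^ 2 * Gs t (sc w)) :=
    integrable_of_supp hopen ((hsm.continuous.pow 2).continuousOn.mul cG)
      (fun p hp => by simp [image_eq_zero_of_notMem_tsupport hp]) hcs htsX
  have iM : Integrable (fun p => h p ^ 2 * (1 / (1 - sc p) ^ 2)) := by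
    refine integrable_of_supp hopen ((hsm.continuous.pow 2).continuousOn.mul ?_)
      (fun p hp => by simp [image_eq_zero_of_notMem_tsupport hp]) hcs htsX
    exact continuousOn_const.div ((continuous_const.sub continuous_sc).pow 2).continuousOn
      (fun p hp => pow_ne_zero 2 (hne1 p hp))
  have hMB : 2 * ∫ p, h p ^ 2 * (1 / (1 - sc p) ^ 2) ≤ B := by
    rw [hB, ← integral_const_mul]
    apply integral_mono (iM.const_mul _) iB
    intro p
    simp only
    by_cases hp : p ∈ tsupport h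
    · have h1 : sc p < 1 := htsX hp
      have h2 := Gs_ge ht h1
      have h3 : h p ^ 2 * (2 / (1 - sc p) ^ 2) ≤ h p ^ 2 * Gs t (sc p) := by gcongr
      refine le_trans (le_of_eq ?_) h3
      ring
    · simp [image_eq_zero_of_notMem_tsupport hp]
  have hBpos : 0 < B := by linarith
  have hAB : A ≤ (1 + ε) * (B / 2) := by
    refine hle.trans ?_
    have : ∫ p, h p ^ 2 * (1 / (1 - sc p) ^ 2) ≤ B / 2 := by linarith
    gcongr
  have hBn : B ^ n = B * B ^ (n - 1) := by
    rw [← pow_succ']; congr 1; omega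
  rw [hBn]
  have hB1 : 0 < B ^ (n - 1) := by positivity
  have hn' : (0 : ℝ) < n := by exact_mod_cast hn
  rw [div_le_iff₀ (by positivity)]
  have h5 : 2 ^ n / 2 * (n * (A * B ^ (n - 1))) ≤
      2 ^ n / 2 * (n * (((1 + ε) * (B / 2)) * B ^ (n - 1))) := by gcongr
  refine h5.trans (le_of_eq ?_)
  ring

theorem bottom_om {t : ℝ} (ht : 0 ≤ t) (ht1 : t ≤ 1) : bottom (polydisc n) (om n t) = n / 4 := by
  unfold bottom
  set S : Set ℝ := {r : ℝ | ∃ f : (Fin n → ℂ) → ℝ, ContDiff ℝ ((⊤ : ℕ∞) : WithTop ℕ∞) f ∧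
    HasCompactSupport f ∧ tsupport f ⊆ polydisc n ∧ f ≠ 0 ∧
    r = (∫ p in polydisc n, gradSq (om n t) f p * vol (om n t) p) /
      ∫ p in polydisc n, f p ^ 2 * vol (om n t) p} with hS
  have hlow : ∀ r ∈ S, (n : ℝ) / 4 ≤ r := by
    rintro r ⟨g, c1, c2, c3, c4, rfl⟩
    exact rayleigh_ge ht ht1 c1 c2 c3 c4
  obtain ⟨f₀, a1, a2, a3, a4, _⟩ := exists_prod (n := n) ht one_pos
  have hne : S.Nonempty := ⟨_, f₀, a1, a2, a3, a4, rfl⟩
  apply le_antisymm
  · apply le_of_forall_pos_le_add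
    intro ε hε
    have hε' : 0 < ε / (n / 4 + 1) := by positivity
    obtain ⟨f, b1, b2, b3, b4, b5⟩ := exists_prod (n := n) ht hε'
    have hmem : (∫ p in polydisc n, gradSq (om n t) f p * vol (om n t) p) /
      (∫ p in polydisc n, f p ^ 2 * vol (om n t) p) ∈ S := ⟨f, b1, b2, b3, b4, rfl⟩
    have hbdd : BddBelow S := ⟨(n : ℝ) / 4, fun r hr => hlow r hr⟩
    refine (csInf_le hbdd hmem).trans (b5.trans ?_)
    have : (n : ℝ) / 4 * (ε / (n / 4 + 1)) ≤ ε := by
      rw [← mul_div_assoc, div_le_iff₀ (by positivity)]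
      nlinarith
    linarith
  · exact le_csInf hne hlow

theorem isConnected_poly : IsConnected (polydisc n) := by
  have : polydisc n = Set.pi univ fun _ : Fin n => Metric.ball (0 : ℂ) 1 := by
    ext p
    simp [polydisc]
  rw [this]
  exact isConnected_univ_pi.mpr fun i =>
    ⟨⟨0, by simp⟩, (convex_ball (0 : ℂ) 1).isPreconnected⟩

theorem not_compact_poly (hn : 1 ≤ n) : ¬ IsCompact (polydisc n) := by
  intro h
  have h1 : IsClopen (polydisc n) := ⟨h.isClosed, isOpen_poly⟩
  have hne : (polydisc n).Nonempty := isConnected_poly.nonempty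
  have h2 := isClopen_iff.mp h1
  rcases h2 with h2 | h2
  · exact hne.ne_empty h2
  · have h3 : (fun _ => (1 : ℂ) : Fin n → ℂ) ∈ polydisc n := by rw [h2]; trivial
    have := h3 ⟨0, by omega⟩
    simp at this

theorem om_ne (hn : 1 ≤ n) {s t : ℝ} (hst : s ≠ t) : om n s 0 ≠ om n t 0 := by
  intro h
  have := congrFun (congrFun h ⟨0, by omega⟩) ⟨0, by omega⟩
  rw [om_apply, om_apply, if_pos rfl, if_pos rfl] at this
  have h2 : Gs s (sc ((0 : Fin n → ℂ) ⟨0, by omega⟩)) = Gs t (sc ((0 : Fin n → ℂ) ⟨0, by omega⟩)) := by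
    exact_mod_cast this
  simp only [Pi.zero_apply, Gs, sc, Complex.zero_re, Complex.zero_im] at h2
  norm_num at h2
  exact hst h2

end Pool.Agent.H911R3
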